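import Pool.Agent.H717R2.MQ.Main

open Finset MeasureTheory Filter

namespace Pool.Agent.H717R2.MQ

/-- `⌊α (n + β) ^ c⌋` -/
noncomputable def fl (c β α : ℝ) (n : ℕ) : ℕ := ⌊α * ((n : ℝ) + β) ^ c⌋₊

/-- number of `n ≥ 1` with `⌊α (n + β) ^ c⌋ ∈ Q` -/
noncomputable def cS (c β α : ℝ) (Q : Set ℕ) : ℝ := ({n : ℕ | 1 ≤ n ∧ fl c β α n ∈ Q}.ncard : ℝ)

open Classical in
/-- the elements of `S` in `(a, b]` -/
noncomputable def PS (S : Set ℕ) (a b : ℕ) : Finset ℕ := (Ioc a b).filter (fun p => p ∈ S)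

lemma NN_facts {c Y : ℝ} {X : ℕ} (hR : 32 ≤ ((X : ℝ) / Y) ^ (1 / c)) :
    (NN c Y X : ℝ) ≤ ((X : ℝ) / Y) ^ (1 / c) / 8 ∧ ((X : ℝ) / Y) ^ (1 / c) / 16 ≤ NN c Y X := by
  constructor
  · exact Nat.floor_le (by linarith)
  · have h1 := Nat.lt_floor_add_one (((X : ℝ) / Y) ^ (1 / c) / 8)
    have h2 : ((⌊((X : ℝ) / Y) ^ (1 / c) / 8⌋₊ : ℕ) : ℝ) = NN c Y X := rfl
    rw [h2] at h1
    linarith

lemma cnt_eq {c Y : ℝ} (hc : 1 ≤ c) (hY : 0 < Y) {X : ℕ} (hX : 1 ≤ X) (hR : 32 ≤ ((X : ℝ) / Y) ^ (1 / c))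
    {P : Finset ℕ} (hP : P ⊆ Ioc X (2 * X)) {β α : ℝ} (hβ0 : 0 ≤ β) (hβ1 : β ≤ 1)
    (hα : α ∈ Set.Icc Y (2 * Y)) :
    cnt c P (Ico (NN c Y X) (64 * NN c Y X)) β 1 1 α = cS c β α (↑P : Set ℕ) := by
  classical
  have hc0 : 0 < c := by linarith
  obtain ⟨hN1, hN2⟩ := NN_facts hR
  set R : ℝ := ((X : ℝ) / Y) ^ (1 / c) with hRdef
  set N : ℕ := NN c Y X with hN
  have hα0 : 0 < α := hY.trans_le hα.1
  have hX1 : (1 : ℝ) ≤ X := by exact_mod_cast hX
  have h1c : 1 / c ≤ 1 := by rw [div_le_one hc0]; exact hc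
  have h1c0 : 0 < 1 / c := by positivity
  have hR0 : 0 < R := by linarith
  have hz : ∀ n : ℕ, 0 ≤ α * ((n : ℝ) + β) ^ c := fun n => by positivity
  have h1 : ∀ k ∈ Ico N (64 * N), ((P.filter (fun p : ℕ => ((k : ℝ) + β) ^ c * α - 1 * 1 < p ∧
      (p : ℝ) ≤ ((k : ℝ) + β) ^ c * α + (1 - 1) * 1)).card : ℝ) = if fl c β α k ∈ P then 1 else 0 := by
    intro k _
    have e1 : P.filter (fun p : ℕ => ((k : ℝ) + β) ^ c * α - 1 * 1 < p ∧
      (p : ℝ) ≤ ((k : ℝ) + β) ^ c * α + (1 - 1) * 1) = P.filter (fun p : ℕ => p = fl c β α k) := by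
      apply filter_congr
      intro p _
      unfold fl
      rw [eq_comm, Nat.floor_eq_iff (hz k)]
      constructor
      · rintro ⟨a1, a2⟩
        constructor <;> linarith
      · rintro ⟨a1, a2⟩
        constructor <;> linarith
    rw [e1, filter_eq']
    split_ifs <;> simp
  unfold cnt
  rw [sum_congr rfl h1, ← Nat.cast_one (R := ℝ)]
  have h2 : (∑ k ∈ Ico N (64 * N), if fl c β α k ∈ P then ((1 : ℕ) : ℝ) else 0) =
      (((Ico N (64 * N)).filter (fun k => fl c β α k ∈ P)).card : ℝ) := by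
    rw [card_filter]; push_cast; rfl
  rw [h2]
  unfold cS
  have h3 : {n : ℕ | 1 ≤ n ∧ fl c β α n ∈ (↑P : Set ℕ)} =
      (↑((Ico N (64 * N)).filter (fun k => fl c β α k ∈ P)) : Set ℕ) := by
    ext n
    simp only [Set.mem_setOf_eq, coe_filter, mem_coe, mem_Ico]
    constructor
    · rintro ⟨hn, hnP⟩
      refine ⟨?_, hnP⟩
      have hn1 : (1 : ℝ) ≤ n := by exact_mod_cast hn
      have hm := mem_Ioc.mp (hP hnP)
      have hz1 : (X : ℝ) < α * ((n : ℝ) + β) ^ c := by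
        have a1 : (X : ℝ) < (fl c β α n : ℝ) := by exact_mod_cast hm.1
        exact a1.trans_le (Nat.floor_le (hz n))
      have hz2 : α * ((n : ℝ) + β) ^ c < 4 * X := by
        have a1 : ((fl c β α n : ℕ) : ℝ) ≤ 2 * X := by exact_mod_cast hm.2
        have a2 := Nat.lt_floor_add_one (α * ((n : ℝ) + β) ^ c)
        have a3 : ((⌊α * ((n : ℝ) + β) ^ c⌋₊ : ℕ) : ℝ) = (fl c β α n : ℝ) := rfl
        rw [a3] at a2
        linarith
      have hnβ : 0 < (n : ℝ) + β := by linarith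
      have hback : (n : ℝ) + β = (((n : ℝ) + β) ^ c) ^ (1 / c) := by
        rw [← Real.rpow_mul hnβ.le, mul_one_div_cancel hc0.ne', Real.rpow_one]
      constructor
      · have b1 : (X : ℝ) / Y * (1 / 2) ≤ ((n : ℝ) + β) ^ c := by
          have e2 : (X : ℝ) / Y * (1 / 2) = X / (2 * Y) := by field_simp
          rw [e2, div_le_iff₀ (by positivity)]
          have : α * ((n : ℝ) + β) ^ c ≤ (2 * Y) * ((n : ℝ) + β) ^ c := by
            have := hα.2
            gcongr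
          linarith
        have b2 : R / 2 ≤ (n : ℝ) + β := by
          rw [hback]
          calc R / 2 = R * (1 / 2) ^ (1 : ℝ) := by rw [Real.rpow_one]; ring
            _ ≤ R * (1 / 2) ^ (1 / c) := by
              apply mul_le_mul_of_nonneg_left _ hR0.le
              exact Real.rpow_le_rpow_of_exponent_ge (by norm_num) (by norm_num) h1c
            _ = ((X : ℝ) / Y * (1 / 2)) ^ (1 / c) := by
              rw [Real.mul_rpow (by positivity) (by norm_num)]
            _ ≤ _ := Real.rpow_le_rpow (by positivity) b1 h1c0.le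
        have b3 : (N : ℝ) ≤ n := by linarith
        exact_mod_cast b3
      · have b1 : ((n : ℝ) + β) ^ c < (X : ℝ) / Y * 4 := by
          have e2 : (X : ℝ) / Y * 4 = 4 * X / Y := by ring
          rw [e2, lt_div_iff₀ hY]
          have : Y * ((n : ℝ) + β) ^ c ≤ α * ((n : ℝ) + β) ^ c := by
            have := hα.1
            gcongr
          linarith
        have b2 : (n : ℝ) + β < 4 * R := by
          rw [hback]
          calc (((n : ℝ) + β) ^ c) ^ (1 / c) < ((X : ℝ) / Y * 4) ^ (1 / c) :=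
                Real.rpow_lt_rpow (by positivity) b1 h1c0
            _ = R * 4 ^ (1 / c) := by rw [Real.mul_rpow (by positivity) (by norm_num)]
            _ ≤ R * 4 ^ (1 : ℝ) := by
              apply mul_le_mul_of_nonneg_left _ hR0.le
              exact Real.rpow_le_rpow_of_exponent_le (by norm_num) h1c
            _ = 4 * R := by rw [Real.rpow_one]; ring
        have b4 : (n : ℝ) < 64 * N := by linarith
        exact_mod_cast b4
    · rintro ⟨⟨hn1, _⟩, hnP⟩
      refine ⟨?_, hnP⟩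
      have : (1 : ℝ) ≤ N := by linarith
      have hN1' : 1 ≤ N := by exact_mod_cast this
      omega
  rw [h3, Set.ncard_coe_finset]

end Pool.Agent.H717R2.MQ
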