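import Pool.Agent.H717R2.MQ.AE

open Finset MeasureTheory Filter

namespace Pool.Agent.H717R2.MQ

/-- grid size at `X = 2 ^ i` -/
noncomputable def gG (κ : ℝ) (i : ℕ) : ℕ := ⌈(((2 : ℕ) ^ i : ℕ) : ℝ) ^ (1 - κ / 4)⌉₊

/-- the set of elements of `S` up to the `m`-th grid point -/
noncomputable def PG (κ : ℝ) (S : Set ℕ) (i m : ℕ) : Finset ℕ :=
  PS S (2 ^ i) (min (2 ^ i + m * gG κ i) (2 * 2 ^ i))

lemma PG_sub (κ : ℝ) (S : Set ℕ) (i m : ℕ) : PG κ S i m ⊆ Ioc (2 ^ i) (2 * 2 ^ i) := by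
  classical
  unfold PG PS
  refine (filter_subset _ _).trans ?_
  exact Ioc_subset_Ioc_right (min_le_right _ _)

/-- the conclusion of `G2` for windows of length one -/
def G2P (c κ : ℝ) : Prop := ∀ Y : ℝ, 0 < Y → ∃ X₀ : ℕ, 3 ≤ X₀ ∧ ∀ X : ℕ, X₀ ≤ X →
      ∀ P : Finset ℕ, P ⊆ Ioc X (2 * X) →
      ∀ (β : ℝ), 0 ≤ β → β ≤ 1 →
      ∫ y in Set.Icc Y (2 * Y), dv c P (Ico (NN c Y X) (64 * NN c Y X)) β 1 1 y ≤
        (X : ℝ) ^ (1 / c - κ)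

lemma exists_G2P (c : ℝ) (hc : 1 ≤ c) : ∃ κ : ℝ, 0 < κ ∧ κ ≤ 1 / (64 * c) ∧ G2P c κ := by
  obtain ⟨κ, hκ0, hκ1, h⟩ := G2 c hc
  refine ⟨κ, hκ0, hκ1, ?_⟩
  intro Y hY
  obtain ⟨X₀, hX₀, h⟩ := h Y hY
  refine ⟨X₀, hX₀, ?_⟩
  intro X hX P hP β hβ0 hβ1
  have hX1 : (1 : ℝ) ≤ X := by
    have : 1 ≤ X := by omega
    exact_mod_cast this
  have := h X hX P hP 1 β 1 (Real.rpow_le_one_of_one_le_of_nonpos hX1 (by linarith)) (by norm_num) hβ0 hβ1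
    (Or.inr rfl)
  rwa [one_mul] at this

/-- the bad set -/
def Bad (c κ β Y : ℝ) (S : Set ℕ) (i m : ℕ) : Set ℝ :=
  {y | (((2 : ℕ) ^ i : ℕ) : ℝ) ^ (1 / c - κ / 2) ≤
    dv c (PG κ S i m) (Ico (NN c Y (2 ^ i)) (64 * NN c Y (2 ^ i))) β 1 1 y}

lemma bad_measure {c κ β Y : ℝ} (hc : 1 ≤ c) (hY : 0 < Y) (S : Set ℕ) (i m : ℕ)
    (h : ∫ y in Set.Icc Y (2 * Y), dv c (PG κ S i m) (Ico (NN c Y (2 ^ i)) (64 * NN c Y (2 ^ i))) β 1 1 y ≤
        (((2 : ℕ) ^ i : ℕ) : ℝ) ^ (1 / c - κ)) :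
    (volume.restrict (Set.Icc Y (2 * Y))) (Bad c κ β Y S i m) ≤
      ENNReal.ofReal ((((2 : ℕ) ^ i : ℕ) : ℝ) ^ (-(κ / 2))) := by
  have hc0 : 0 < c := by linarith
  set X : ℝ := (((2 : ℕ) ^ i : ℕ) : ℝ) with hX
  have hX0 : 0 < X := by rw [hX]; positivity
  have hm := mul_meas_ge_le_integral_of_nonneg (μ := volume.restrict (Set.Icc Y (2 * Y)))
    (f := dv c (PG κ S i m) (Ico (NN c Y (2 ^ i)) (64 * NN c Y (2 ^ i))) β 1 1)
    (Filter.Eventually.of_forall fun y => dv_nonneg _ _ _ _ _ _ _)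
    (dv_int hc0 _ _ _ _ _ hY) (X ^ (1 / c - κ / 2))
  have hm2 := hm.trans h
  have hpos : 0 < X ^ (1 / c - κ / 2) := Real.rpow_pos_of_pos hX0 _
  have hb : (volume.restrict (Set.Icc Y (2 * Y))).real (Bad c κ β Y S i m) ≤ X ^ (-(κ / 2)) := by
    have e1 : X ^ (1 / c - κ) = X ^ (1 / c - κ / 2) * X ^ (-(κ / 2)) := by
      rw [← Real.rpow_add hX0]; congr 1; ring
    rw [e1] at hm2
    exact le_of_mul_le_mul_left hm2 hpos
  have hfin : (volume.restrict (Set.Icc Y (2 * Y))) (Bad c κ β Y S i m) ≠ ⊤ := by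
    refine ne_top_of_le_ne_top ?_ (measure_mono (Set.subset_univ _))
    simp
  rw [← ENNReal.ofReal_toReal hfin]
  exact ENNReal.ofReal_le_ofReal hb

/-- number of grid points -/
noncomputable def gM (κ : ℝ) (i : ℕ) : ℕ := 2 ^ i / gG κ i + 2

lemma gG_pos (κ : ℝ) (i : ℕ) : 0 < gG κ i := by
  unfold gG
  exact Nat.ceil_pos.mpr (Real.rpow_pos_of_pos (by positivity) _)

lemma gM_le {κ : ℝ} (hκ : 0 ≤ κ) (i : ℕ) : (gM κ i : ℝ) ≤ 3 * (((2 : ℕ) ^ i : ℕ) : ℝ) ^ (κ / 4) := by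
  set X : ℝ := (((2 : ℕ) ^ i : ℕ) : ℝ) with hX
  have hX1 : 1 ≤ X := by rw [hX]; exact_mod_cast Nat.one_le_two_pow
  have hX0 : 0 < X := by linarith
  have h1 : ((2 ^ i / gG κ i : ℕ) : ℝ) ≤ X ^ (κ / 4) := by
    refine (Nat.cast_div_le (m := 2 ^ i) (n := gG κ i)).trans ?_
    have h2 : X ^ (1 - κ / 4) ≤ gG κ i := Nat.le_ceil _
    have h3 : 0 < X ^ (1 - κ / 4) := Real.rpow_pos_of_pos hX0 _
    rw [div_le_iff₀ (by linarith)]
    have e1 : (((2 ^ i : ℕ)) : ℝ) = X := rfl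
    rw [e1]
    calc X = X ^ (κ / 4) * X ^ (1 - κ / 4) := by
          rw [← Real.rpow_add hX0]; simp
      _ ≤ _ := by gcongr
  have h4 : 1 ≤ X ^ (κ / 4) := Real.one_le_rpow hX1 (by positivity)
  unfold gM
  push_cast at h1 ⊢
  linarith

lemma ae_dyadic {c κ : ℝ} (hc : 1 ≤ c) (hκ : 0 < κ) (hG : G2P c κ) {Y : ℝ} (hY : 0 < Y) {β : ℝ} (hβ0 : 0 ≤ β)
    (hβ1 : β ≤ 1) (S : Set ℕ) :
    ∀ᵐ α ∂(volume.restrict (Set.Icc Y (2 * Y))), ∀ᶠ i : ℕ in atTop, ∀ m < gM κ i,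
      |cS c β α (↑(PG κ S i m) : Set ℕ) - MT c (PG κ S i m) α| ≤ (((2 : ℕ) ^ i : ℕ) : ℝ) ^ (1 / c - κ / 2) := by
  have hc0 : 0 < c := by linarith
  obtain ⟨X₀, hX₀3, hX₀⟩ := hG Y hY
  have evR : ∀ᶠ i : ℕ in atTop, 32 ≤ ((((2 : ℕ) ^ i : ℕ) : ℝ) / Y) ^ (1 / c) := by
    have t1 : Tendsto (fun i : ℕ => (((2 : ℕ) ^ i : ℕ) : ℝ)) atTop atTop :=
      tendsto_natCast_atTop_atTop.comp (tendsto_pow_atTop_atTop_of_one_lt (by norm_num))
    have t2 : Tendsto (fun i : ℕ => (((2 : ℕ) ^ i : ℕ) : ℝ) / Y) atTop atTop := t1.atTop_div_const hY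
    exact ((tendsto_rpow_atTop (by positivity : 0 < 1 / c)).comp t2).eventually_ge_atTop 32
  have evX : ∀ᶠ i : ℕ in atTop, X₀ ≤ 2 ^ i :=
    (tendsto_pow_atTop_atTop_of_one_lt (by norm_num)).eventually_ge_atTop X₀
  obtain ⟨i0, hi0⟩ := (evR.and evX).exists_forall_of_atTop
  set μ := volume.restrict (Set.Icc Y (2 * Y)) with hμ
  set E : ℕ → Set ℝ := fun i => {α | i0 ≤ i ∧ ∃ m < gM κ i, α ∈ Bad c κ β Y S i m} with hE
  set r : ℝ := (2 : ℝ) ^ (-(κ / 4)) with hr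
  have hr0 : 0 < r := Real.rpow_pos_of_pos (by norm_num) _
  have hr1 : r < 1 := Real.rpow_lt_one_of_one_lt_of_neg (by norm_num) (by linarith)
  have hEm : ∀ i, μ (E i) ≤ ENNReal.ofReal (3 * r ^ i) := by
    intro i
    rcases lt_or_ge i i0 with h | h
    · have : E i = ∅ := by
        ext α; simp only [hE, Set.mem_setOf_eq, Set.mem_empty_iff_false, iff_false, not_and]
        intro h'; omega
      rw [this]; simp
    · have hsub : E i ⊆ ⋃ m ∈ range (gM κ i), Bad c κ β Y S i m := by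
        intro α hα
        obtain ⟨-, m, hm, hα⟩ := hα
        exact Set.mem_biUnion (mem_range.mpr hm) hα
      refine (measure_mono hsub).trans ((measure_biUnion_finset_le _ _).trans ?_)
      have hX0 : (0 : ℝ) < (((2 : ℕ) ^ i : ℕ) : ℝ) := by positivity
      have hb : ∀ m ∈ range (gM κ i), μ (Bad c κ β Y S i m) ≤
          ENNReal.ofReal ((((2 : ℕ) ^ i : ℕ) : ℝ) ^ (-(κ / 2))) := by
        intro m _
        exact bad_measure hc hY S i m (hX₀ (2 ^ i) (hi0 i h).2 _ (PG_sub κ S i m) β hβ0 hβ1)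
      refine (sum_le_sum hb).trans ?_
      rw [sum_const, card_range, nsmul_eq_mul, ← ENNReal.ofReal_natCast, ← ENNReal.ofReal_mul (by positivity)]
      apply ENNReal.ofReal_le_ofReal
      have e1 : r ^ i = (((2 : ℕ) ^ i : ℕ) : ℝ) ^ (κ / 4) * (((2 : ℕ) ^ i : ℕ) : ℝ) ^ (-(κ / 2)) := by
        rw [← Real.rpow_add hX0, hr, ← Real.rpow_natCast, ← Real.rpow_mul (by norm_num)]
        push_cast
        rw [← Real.rpow_natCast, ← Real.rpow_mul (by norm_num)]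
        congr 1; ring
      rw [e1, ← mul_assoc]
      apply mul_le_mul_of_nonneg_right (gM_le hκ.le i) (by positivity)
  have hsum : ∑' i, μ (E i) ≠ ⊤ := by
    have hs : Summable (fun i : ℕ => 3 * r ^ i) := (summable_geometric_of_lt_one hr0.le hr1).mul_left 3
    refine ne_top_of_le_ne_top ?_ (ENNReal.tsum_le_tsum hEm)
    exact hs.tsum_ofReal_ne_top
  have hae := ae_eventually_notMem hsum
  have hmem : ∀ᵐ α ∂μ, α ∈ Set.Icc Y (2 * Y) := ae_restrict_mem measurableSet_Icc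
  filter_upwards [hae, hmem] with α hα hαY
  filter_upwards [hα, eventually_ge_atTop i0] with i hi hii m hm
  have hnot : α ∉ Bad c κ β Y S i m := fun hb => hi ⟨hii, m, hm, hb⟩
  unfold Bad at hnot
  rw [Set.mem_setOf_eq, not_le] at hnot
  unfold dv at hnot
  rw [one_mul] at hnot
  rw [← cnt_eq hc hY Nat.one_le_two_pow (hi0 i hii).1 (PG_sub κ S i m) hβ0 hβ1 hαY]
  exact hnot.le

end Pool.Agent.H717R2.MQ
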