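import Pool.Agent.H717R2.MQ.AE2

open Finset MeasureTheory Filter

namespace Pool.Agent.H717R2.MQ

lemma fin_set {c β α : ℝ} (hc : 1 ≤ c) (hβ0 : 0 ≤ β) (hα : 0 < α) (B : ℕ) :
    {n : ℕ | 1 ≤ n ∧ fl c β α n ≤ B}.Finite := by
  refine (Set.finite_Iic ⌈((B : ℝ) + 1) / α⌉₊).subset ?_
  rintro n ⟨hn, hB⟩
  have hn1 : (1 : ℝ) ≤ n := by exact_mod_cast hn
  have h1 : (n : ℝ) ≤ ((n : ℝ) + β) ^ c := by
    have h2 : (1 : ℝ) ≤ (n : ℝ) + β := by linarith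
    have h3 : (n : ℝ) + β ≤ ((n : ℝ) + β) ^ c := Real.self_le_rpow_of_one_le h2 hc
    linarith
  have h4 := Nat.lt_floor_add_one (α * ((n : ℝ) + β) ^ c)
  have h5 : ((⌊α * ((n : ℝ) + β) ^ c⌋₊ : ℕ) : ℝ) ≤ B := by exact_mod_cast hB
  have h6 : α * (n : ℝ) ≤ α * ((n : ℝ) + β) ^ c := by gcongr
  have h7 : (n : ℝ) ≤ ((B : ℝ) + 1) / α := by
    rw [le_div_iff₀ hα]; linarith
  have h8 := h7.trans (Nat.le_ceil _)
  exact_mod_cast h8

lemma fin_set' {c β α : ℝ} (hc : 1 ≤ c) (hβ0 : 0 ≤ β) (hα : 0 < α) (Q : Finset ℕ) :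
    {n : ℕ | 1 ≤ n ∧ fl c β α n ∈ (↑Q : Set ℕ)}.Finite := by
  refine (fin_set hc hβ0 hα (Q.sup id)).subset ?_
  rintro n ⟨hn, hQ⟩
  exact ⟨hn, le_sup (f := id) hQ⟩

lemma cS_mono {c β α : ℝ} (hc : 1 ≤ c) (hβ0 : 0 ≤ β) (hα : 0 < α) {P Q : Finset ℕ} (h : P ⊆ Q) :
    cS c β α (↑P : Set ℕ) ≤ cS c β α (↑Q : Set ℕ) := by
  unfold cS
  have := Set.ncard_le_ncard (s := {n : ℕ | 1 ≤ n ∧ fl c β α n ∈ (↑P : Set ℕ)})
    (t := {n : ℕ | 1 ≤ n ∧ fl c β α n ∈ (↑Q : Set ℕ)}) (fun n hn => ⟨hn.1, h hn.2⟩) (fin_set' hc hβ0 hα Q)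
  exact_mod_cast this

lemma cS_union {c β α : ℝ} (hc : 1 ≤ c) (hβ0 : 0 ≤ β) (hα : 0 < α) {P Q : Finset ℕ} (h : Disjoint P Q) :
    cS c β α (↑(P ∪ Q) : Set ℕ) = cS c β α (↑P : Set ℕ) + cS c β α (↑Q : Set ℕ) := by
  unfold cS
  rw [← Nat.cast_add, ← Set.ncard_union_eq _ (fin_set' hc hβ0 hα P) (fin_set' hc hβ0 hα Q)]
  · congr 2
    ext n
    simp only [coe_union, Set.mem_union, mem_coe, Set.mem_setOf_eq]
    tauto
  · rw [Set.disjoint_left]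
    rintro n ⟨_, h1⟩ ⟨_, h2⟩
    exact (disjoint_left.mp h) h1 h2

lemma term_nonneg {c α : ℝ} (hc : 1 ≤ c) (hα : 0 < α) (p : ℕ) :
    0 ≤ (1 / (c * (p : ℝ))) * ((p : ℝ) / α) ^ (1 / c) := by
  have : 0 < c := by linarith
  positivity

lemma MT_mono {c α : ℝ} (hc : 1 ≤ c) (hα : 0 < α) {P Q : Finset ℕ} (h : P ⊆ Q) : MT c P α ≤ MT c Q α := by
  unfold MT
  exact sum_le_sum_of_subset_of_nonneg h fun p _ _ => term_nonneg hc hα p

lemma MT_union {c α : ℝ} {P Q : Finset ℕ} (h : Disjoint P Q) : MT c (P ∪ Q) α = MT c P α + MT c Q α := by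
  unfold MT
  exact sum_union h

lemma PS_mono {S : Set ℕ} {a b b' : ℕ} (h : b ≤ b') : PS S a b ⊆ PS S a b' := by
  classical
  unfold PS
  exact filter_subset_filter _ (Ioc_subset_Ioc_right h)

lemma PS_union {S : Set ℕ} {a b d : ℕ} (h1 : a ≤ b) (h2 : b ≤ d) : PS S a d = PS S a b ∪ PS S b d := by
  classical
  unfold PS
  rw [← filter_union, Ioc_union_Ioc_eq_Ioc h1 h2]

lemma PS_disj {S : Set ℕ} {a b d : ℕ} : Disjoint (PS S a b) (PS S b d) := by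
  classical
  unfold PS
  apply disjoint_filter_filter
  rw [disjoint_left]
  intro x hx hy
  rw [mem_Ioc] at hx hy
  omega

lemma MT_cell {c Y α : ℝ} (hc : 1 ≤ c) (hY : 0 < Y) (hα : α ∈ Set.Icc Y (2 * Y)) {S : Set ℕ} {X a b G : ℕ}
    (hX : 1 ≤ X) (ha : X ≤ a) (hb : b ≤ 2 * X) (hG : b ≤ a + G) :
    MT c (PS S a b) α ≤ G * (2 * Y ^ (-(1 / c)) * (X : ℝ) ^ (1 / c) / X) := by
  classical
  have hc0 : 0 < c := by linarith
  have hα0 : 0 < α := hY.trans_le hα.1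
  have hX0 : (0 : ℝ) < X := by exact_mod_cast hX
  have h1c : 1 / c ≤ 1 := by rw [div_le_one hc0]; exact hc
  unfold MT
  have h1 : ∀ p ∈ PS S a b, (1 / (c * (p : ℝ))) * ((p : ℝ) / α) ^ (1 / c) ≤
      2 * Y ^ (-(1 / c)) * (X : ℝ) ^ (1 / c) / X := by
    intro p hp
    unfold PS at hp
    rw [mem_filter, mem_Ioc] at hp
    have hp1 : (X : ℝ) ≤ p := by
      have : X ≤ p := by omega
      exact_mod_cast this
    have hp2 : (p : ℝ) ≤ 2 * X := by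
      have : p ≤ 2 * X := by omega
      exact_mod_cast this
    have hp0 : (0 : ℝ) < p := by linarith
    have h2 : ((p : ℝ) / α) ^ (1 / c) ≤ 2 * Y ^ (-(1 / c)) * (X : ℝ) ^ (1 / c) := by
      have h3 : (p : ℝ) / α ≤ (X : ℝ) * Y⁻¹ * 2 := by
        have : (X : ℝ) * Y⁻¹ * 2 = 2 * X / Y := by ring
        rw [this]
        exact div_le_div₀ (by positivity) hp2 hY hα.1
      calc ((p : ℝ) / α) ^ (1 / c) ≤ ((X : ℝ) * Y⁻¹ * 2) ^ (1 / c) :=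
            Real.rpow_le_rpow (by positivity) h3 (by positivity)
        _ = (X : ℝ) ^ (1 / c) * Y ^ (-(1 / c)) * 2 ^ (1 / c) := by
          rw [Real.mul_rpow (by positivity) (by norm_num), Real.mul_rpow (by positivity) (by positivity),
            Real.inv_rpow hY.le, Real.rpow_neg hY.le]
        _ ≤ (X : ℝ) ^ (1 / c) * Y ^ (-(1 / c)) * 2 ^ (1 : ℝ) := by
          apply mul_le_mul_of_nonneg_left _ (by positivity)
          exact Real.rpow_le_rpow_of_exponent_le (by norm_num) h1c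
        _ = _ := by rw [Real.rpow_one]; ring
    have h4 : 1 / (c * (p : ℝ)) ≤ 1 / X := by
      apply one_div_le_one_div_of_le hX0
      nlinarith
    calc (1 / (c * (p : ℝ))) * ((p : ℝ) / α) ^ (1 / c) ≤ (1 / X) * (2 * Y ^ (-(1 / c)) * (X : ℝ) ^ (1 / c)) := by
          gcongr
      _ = _ := by ring
  refine (sum_le_sum h1).trans ?_
  rw [sum_const, nsmul_eq_mul]
  have h5 : (PS S a b).card ≤ G := by
    unfold PS
    refine (card_filter_le _ _).trans ?_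
    rw [Nat.card_Ioc]; omega
  have h6 : ((PS S a b).card : ℝ) ≤ G := by exact_mod_cast h5
  gcongr

lemma dyadic_all {c κ β Y α : ℝ} (hc : 1 ≤ c) (hκ : 0 < κ) (hκ1 : κ ≤ 1 / (64 * c)) (hY : 0 < Y) (hβ0 : 0 ≤ β)
    (hα : α ∈ Set.Icc Y (2 * Y)) {S : Set ℕ} {i : ℕ}
    (h : ∀ m < gM κ i, |cS c β α (↑(PG κ S i m) : Set ℕ) - MT c (PG κ S i m) α| ≤
      (((2 : ℕ) ^ i : ℕ) : ℝ) ^ (1 / c - κ / 2)) {Z : ℕ} (hZ1 : 2 ^ i < Z) (hZ2 : Z ≤ 2 * 2 ^ i) :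
    |cS c β α (↑(PS S (2 ^ i) Z) : Set ℕ) - MT c (PS S (2 ^ i) Z) α| ≤
      (1 + 4 * Y ^ (-(1 / c))) * (((2 : ℕ) ^ i : ℕ) : ℝ) ^ (1 / c - κ / 4) := by
  have hc0 : 0 < c := by linarith
  have hα0 : 0 < α := hY.trans_le hα.1
  set X : ℕ := 2 ^ i with hX
  have hX1 : 1 ≤ X := Nat.one_le_two_pow
  have hXr : (1 : ℝ) ≤ X := by exact_mod_cast hX1
  have hX0 : (0 : ℝ) < X := by linarith
  set G : ℕ := gG κ i with hG
  have hG0 : 0 < G := gG_pos κ i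
  set m : ℕ := (Z - X) / G with hm
  have hm1 : m ≤ X / G := Nat.div_le_div_right (by omega)
  have hmM : m + 1 < gM κ i := by
    show m + 1 < X / G + 2
    omega
  have ha : X + m * G ≤ Z := by
    have h2 : m * G ≤ Z - X := Nat.div_mul_le_self (Z - X) G
    omega
  have hb : Z < X + (m + 1) * G := by
    have h2 : Z - X < G * (m + 1) := Nat.lt_mul_div_succ (Z - X) hG0
    rw [mul_comm] at h2
    omega
  set a : ℕ := min (X + m * G) (2 * X) with hadef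
  set b : ℕ := min (X + (m + 1) * G) (2 * X) with hbdef
  have haX : X ≤ a := by rw [hadef]; apply le_min <;> omega
  have haZ : a ≤ Z := (min_le_left _ _).trans ha
  have hZb : Z ≤ b := le_min hb.le hZ2
  have hbX : b ≤ 2 * X := min_le_right _ _
  have hba : b ≤ a + G := by
    rw [hadef, hbdef]
    have : (m + 1) * G = m * G + G := by ring
    omega
  have h1 := h m (by omega)
  have h2 := h (m + 1) hmM
  have e1 : PG κ S i m = PS S X a := rfl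
  have e2 : PG κ S i (m + 1) = PS S X b := rfl
  rw [e1] at h1
  rw [e2] at h2
  have c1 := cS_mono (β := β) hc hβ0 hα0 (PS_mono (S := S) (a := X) haZ)
  have c2 := cS_mono (β := β) hc hβ0 hα0 (PS_mono (S := S) (a := X) hZb)
  have m1 := MT_mono hc hα0 (PS_mono (S := S) (a := X) haZ)
  have m2 := MT_mono hc hα0 (PS_mono (S := S) (a := X) hZb)
  have hcell := MT_cell hc hY hα (S := S) hX1 haX hbX hba
  have hun : MT c (PS S X b) α = MT c (PS S X a) α + MT c (PS S a b) α := by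
    rw [PS_union haX (haZ.trans hZb), MT_union PS_disj]
  have hGle : (G : ℝ) ≤ 2 * (X : ℝ) ^ (1 - κ / 4) := by
    have hκ2 : κ / 4 ≤ 1 := by
      have : 1 / (64 * c) ≤ 1 := by rw [div_le_one (by positivity)]; linarith
      linarith
    have h3 : (1 : ℝ) ≤ (X : ℝ) ^ (1 - κ / 4) := Real.one_le_rpow hXr (by linarith)
    have h4 := (Nat.ceil_lt_add_one (a := (X : ℝ) ^ (1 - κ / 4)) (by positivity)).le
    have h5 : ((⌈(X : ℝ) ^ (1 - κ / 4)⌉₊ : ℕ) : ℝ) = G := rfl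
    rw [h5] at h4
    linarith
  have hYc : 0 < Y ^ (-(1 / c)) := Real.rpow_pos_of_pos hY _
  have hcell2 : MT c (PS S a b) α ≤ 4 * Y ^ (-(1 / c)) * (X : ℝ) ^ (1 / c - κ / 4) := by
    refine hcell.trans ?_
    calc (G : ℝ) * (2 * Y ^ (-(1 / c)) * (X : ℝ) ^ (1 / c) / X) ≤
          (2 * (X : ℝ) ^ (1 - κ / 4)) * (2 * Y ^ (-(1 / c)) * (X : ℝ) ^ (1 / c) / X) := by gcongr
      _ = 4 * Y ^ (-(1 / c)) * ((X : ℝ) ^ (1 - κ / 4) * (X : ℝ) ^ (1 / c) / X) := by ring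
      _ = _ := by
        congr 1
        rw [← Real.rpow_add hX0, div_eq_mul_inv, ← Real.rpow_neg_one (X : ℝ), ← Real.rpow_add hX0]
        congr 1; ring
  have hpow : (X : ℝ) ^ (1 / c - κ / 2) ≤ (X : ℝ) ^ (1 / c - κ / 4) :=
    Real.rpow_le_rpow_of_exponent_le hXr (by linarith)
  rw [abs_le] at h1 h2 ⊢
  constructor <;> linarith [h1.1, h1.2, h2.1, h2.2]

lemma final_det {f : ℕ → ℝ} {θ C1 : ℝ} (hθ : 0 < θ) (hC1 : 0 ≤ C1) (i0 : ℕ)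
    (hf : ∀ i ≥ i0, ∀ Z : ℕ, 2 ^ i < Z → Z ≤ 2 * 2 ^ i → f Z ≤ f (2 ^ i) + C1 * (((2 : ℕ) ^ i : ℕ) : ℝ) ^ θ)
    (hf0 : ∀ Z, 0 ≤ f Z) : ∃ C : ℝ, ∀ Z : ℕ, 1 ≤ Z → f Z ≤ C * (Z : ℝ) ^ θ := by
  set A : ℝ := ∑ Z ∈ range (2 ^ i0 + 1), f Z with hA
  have hA0 : 0 ≤ A := sum_nonneg fun Z _ => hf0 Z
  have hfA : ∀ Z, Z ≤ 2 ^ i0 → f Z ≤ A := fun Z hZ =>
    single_le_sum (f := f) (fun Z _ => hf0 Z) (mem_range.mpr (by omega))
  have h2θ : 0 < (2 : ℝ) ^ θ - 1 := by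
    have := Real.one_lt_rpow (by norm_num : (1 : ℝ) < 2) hθ
    linarith
  set C2 : ℝ := A + C1 / ((2 : ℝ) ^ θ - 1) with hC2
  have hC20 : 0 ≤ C2 := by rw [hC2]; positivity
  have hC2C1 : C1 ≤ C2 * ((2 : ℝ) ^ θ - 1) := by
    have : C1 / ((2 : ℝ) ^ θ - 1) * ((2 : ℝ) ^ θ - 1) = C1 := div_mul_cancel₀ _ h2θ.ne'
    rw [hC2, add_mul, this]
    nlinarith
  have hAC : A ≤ C2 := by
    have : 0 ≤ C1 / ((2 : ℝ) ^ θ - 1) := by positivity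
    linarith
  have hone : ∀ Z : ℕ, 1 ≤ Z → (1 : ℝ) ≤ (Z : ℝ) ^ θ := fun Z hZ =>
    Real.one_le_rpow (by exact_mod_cast hZ) hθ.le
  have hind : ∀ i ≥ i0, f (2 ^ i) ≤ C2 * (((2 : ℕ) ^ i : ℕ) : ℝ) ^ θ := by
    intro i hi
    induction i, hi using Nat.le_induction with
    | base =>
      refine (hfA _ le_rfl).trans (hAC.trans ?_)
      have := hone (2 ^ i0) Nat.one_le_two_pow
      nlinarith
    | succ i hi ih =>
      have h1 := hf i hi (2 ^ (i + 1)) (Nat.pow_lt_pow_right (by norm_num) (Nat.lt_succ_self i))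
        (by rw [pow_succ, mul_comm])
      have e1 : (((2 : ℕ) ^ (i + 1) : ℕ) : ℝ) ^ θ = (2 : ℝ) ^ θ * (((2 : ℕ) ^ i : ℕ) : ℝ) ^ θ := by
        push_cast
        rw [← Real.mul_rpow (by norm_num) (by positivity), pow_succ, mul_comm]
      rw [e1]
      have h2 : 0 ≤ (((2 : ℕ) ^ i : ℕ) : ℝ) ^ θ := by positivity
      nlinarith
  refine ⟨C2 + C1, ?_⟩
  intro Z hZ
  rcases le_or_gt Z (2 ^ i0) with h | h
  · have := hfA Z h
    have h2 := hone Z hZ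
    nlinarith
  · set i : ℕ := Nat.log 2 (Z - 1) with hi
    have hZ1 : Z - 1 ≠ 0 := by
      have : 1 ≤ 2 ^ i0 := Nat.one_le_two_pow
      omega
    have h1 : 2 ^ i ≤ Z - 1 := Nat.pow_log_le_self 2 hZ1
    have h2 : Z - 1 < 2 ^ (i + 1) := Nat.lt_pow_succ_log_self (by norm_num) _
    have hii : i0 ≤ i := by
      by_contra hcon
      have : i + 1 ≤ i0 := by omega
      have := Nat.pow_le_pow_right (n := 2) (by norm_num) this
      omega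
    have h3 := hf i hii Z (by omega) (by rw [pow_succ] at h2; omega)
    have h4 := hind i hii
    have h5 : (((2 : ℕ) ^ i : ℕ) : ℝ) ^ θ ≤ (Z : ℝ) ^ θ := by
      apply Real.rpow_le_rpow (by positivity) _ hθ.le
      have : 2 ^ i ≤ Z := by omega
      exact_mod_cast this
    calc f Z ≤ (C2 + C1) * (((2 : ℕ) ^ i : ℕ) : ℝ) ^ θ := by linarith
      _ ≤ (C2 + C1) * (Z : ℝ) ^ θ := by gcongr

/-- **Metric theorem for `⌊α (n + β) ^ c⌋`**, arbitrary sets, power saving. -/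
theorem ae_asymp (c : ℝ) (hc : 1 ≤ c) : ∃ κ : ℝ, 0 < κ ∧ ∀ β : ℝ, 0 ≤ β → β ≤ 1 → ∀ S : Set ℕ,
    ∀ᵐ α : ℝ, 0 < α → ∃ C : ℝ, ∀ Z : ℕ, 1 ≤ Z →
      |cS c β α (↑(PS S 0 Z) : Set ℕ) - MT c (PS S 0 Z) α| ≤ C * (Z : ℝ) ^ (1 / c - κ) := by
  obtain ⟨κ, hκ, hκ1, hG⟩ := exists_G2P c hc
  have hc0 : 0 < c := by linarith
  refine ⟨κ / 4, by positivity, ?_⟩
  intro β hβ0 hβ1 S
  have hθ : 0 < 1 / c - κ / 4 := by
    have : 1 / (64 * c) < 1 / c := by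
      apply one_div_lt_one_div_of_lt hc0; linarith
    linarith
  have h1 : ∀ j : ℤ, ∀ᵐ α : ℝ, α ∈ Set.Icc ((2 : ℝ) ^ j) (2 * (2 : ℝ) ^ j) →
      ∀ᶠ i : ℕ in atTop, ∀ m < gM κ i,
      |cS c β α (↑(PG κ S i m) : Set ℕ) - MT c (PG κ S i m) α| ≤ (((2 : ℕ) ^ i : ℕ) : ℝ) ^ (1 / c - κ / 2) := by
    intro j
    have := ae_dyadic hc hκ hG (Y := (2 : ℝ) ^ j) (by positivity) hβ0 hβ1 S
    rwa [ae_restrict_iff' measurableSet_Icc] at this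
  rw [← ae_all_iff] at h1
  filter_upwards [h1] with α hα hα0
  obtain ⟨j, hj⟩ := exists_mem_Ico_zpow (x := α) (y := (2 : ℝ)) hα0 (by norm_num)
  have hmem : α ∈ Set.Icc ((2 : ℝ) ^ j) (2 * (2 : ℝ) ^ j) := by
    refine ⟨hj.1, ?_⟩
    have := hj.2.le
    rwa [zpow_add₀ (by norm_num), zpow_one, mul_comm] at this
  obtain ⟨i0, hi0⟩ := (hα j hmem).exists_forall_of_atTop
  refine final_det (f := fun Z => |cS c β α (↑(PS S 0 Z) : Set ℕ) - MT c (PS S 0 Z) α|) hθ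
    (C1 := 1 + 4 * ((2 : ℝ) ^ j) ^ (-(1 / c))) (by positivity) i0 ?_ (fun Z => abs_nonneg _)
  intro i hi Z hZ1 hZ2
  have h2 := dyadic_all hc hκ hκ1 (by positivity) hβ0 hmem (hi0 i hi) hZ1 hZ2
  have e1 : PS S 0 Z = PS S 0 (2 ^ i) ∪ PS S (2 ^ i) Z := PS_union (Nat.zero_le _) hZ1.le
  rw [e1, cS_union hc hβ0 hα0 PS_disj, MT_union PS_disj]
  have e2 : cS c β α (↑(PS S 0 (2 ^ i)) : Set ℕ) + cS c β α (↑(PS S (2 ^ i) Z) : Set ℕ) -
      (MT c (PS S 0 (2 ^ i)) α + MT c (PS S (2 ^ i) Z) α) =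
      (cS c β α (↑(PS S 0 (2 ^ i)) : Set ℕ) - MT c (PS S 0 (2 ^ i)) α) +
      (cS c β α (↑(PS S (2 ^ i) Z) : Set ℕ) - MT c (PS S (2 ^ i) Z) α) := by ring
  rw [e2]
  exact (abs_add_le _ _).trans (by linarith)

end Pool.Agent.H717R2.MQ
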