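import Pool.Agent.H717R2.MQ.AE3

open Finset MeasureTheory Filter Topology

namespace Pool.Agent.H717R2.MQ

/-- shifted primes -/
def Sh (h : ℤ) : Set ℕ := {m : ℕ | ((m : ℤ) + h).toNat.Prime}

/-- the asymptotic formula with error exponent `θ` -/
def Asym (c β α : ℝ) (S : Set ℕ) (θ : ℝ) : Prop :=
  ∃ C : ℝ, ∀ Z : ℕ, 1 ≤ Z →
    |cS c β α (↑(PS S 0 Z) : Set ℕ) - MT c (PS S 0 Z) α| ≤ C * (Z : ℝ) ^ θ

/-- Task PRM: partial summation from the prime number theorem -/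
def PRM : Prop := ∀ s : ℝ, 0 < s → s ≤ 1 → ∀ h : ℤ,
  Tendsto (fun Z : ℕ => (∑ m ∈ PS (Sh h) 0 Z, (m : ℝ) ^ (s - 1)) * (s * Real.log Z) / (Z : ℝ) ^ s)
    atTop (𝓝 1)

/-- Task COR: from the asymptotic formula with power saving to the count up to `N` -/
def COR : Prop := PRM → ∀ c α κ : ℝ, 1 ≤ c → 0 < α → 0 < κ → ∀ h : ℤ, Asym c 0 α (Sh h) (1 / c - κ) →
  Tendsto (fun N : ℕ => (({n : ℕ | 1 ≤ n ∧ n ≤ N ∧ ((⌊α * (n : ℝ) ^ c⌋₊ : ℤ) + h).toNat.Prime}.ncard : ℕ) : ℝ) *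
    (c * Real.log N) / N) atTop (𝓝 1)

end Pool.Agent.H717R2.MQ
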