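import Mathlib
import Pool.Agent.H717R2.MQ.Stubs

/-!
# From the asymptotic formula with a power saving to the count up to `N`
-/

open Finset MeasureTheory Filter Topology

namespace Pool.Agent.H717R2.MQ

namespace CORh

lemma pow_sub_ge {c : ℝ} (hc : 1 ≤ c) {x y : ℝ} (hx : 1 ≤ x) (hxy : x ≤ y) :
    y - x ≤ y ^ c - x ^ c := by
  have hx0 : 0 < x := by linarith
  have h1 : 1 ≤ y / x := (one_le_div hx0).2 hxy
  have h2 : y / x ≤ (y / x) ^ c := Real.self_le_rpow_of_one_le h1 hc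
  rw [Real.div_rpow (by linarith) hx0.le] at h2
  have hxc : 0 < x ^ c := Real.rpow_pos_of_pos hx0 c
  have h3 : y / x * x ^ c ≤ y ^ c := by rwa [le_div_iff₀ hxc] at h2
  have h4 : x ≤ x ^ c := Real.self_le_rpow_of_one_le hx hc
  have h5 : y / x * x ^ c - x ^ c = (y - x) * (x ^ c / x) := by
    field_simp
  have h6 : 1 ≤ x ^ c / x := (one_le_div hx0).2 h4
  nlinarith

lemma count_diff {c α : ℝ} (hc : 1 ≤ c) (hα : 0 < α) (h : ℤ) {N : ℕ} (hN : 1 ≤ N) :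
    |(({n : ℕ | 1 ≤ n ∧ n ≤ N ∧ ((⌊α * (n : ℝ) ^ c⌋₊ : ℤ) + h).toNat.Prime}.ncard : ℕ) : ℝ) -
      cS c 0 α (↑(PS (Sh h) 0 ⌊α * (N : ℝ) ^ c⌋₊) : Set ℕ)| ≤ ((⌈1 / α⌉₊ + 1 : ℕ) : ℝ) := by
  classical
  set k : ℕ := ⌈1 / α⌉₊ with hk
  have hk1 : 1 / α ≤ k := Nat.le_ceil _
  set A : Set ℕ := {n : ℕ | 1 ≤ n ∧ n ≤ N ∧ ((⌊α * (n : ℝ) ^ c⌋₊ : ℤ) + h).toNat.Prime} with hA
  set Z : ℕ := ⌊α * (N : ℝ) ^ c⌋₊ with hZ
  have hfl : ∀ n : ℕ, fl c 0 α n = ⌊α * (n : ℝ) ^ c⌋₊ := by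
    intro n
    unfold fl
    rw [add_zero]
  set D : Set ℕ := {n : ℕ | 1 ≤ n ∧ fl c 0 α n ∈ (↑(PS (Sh h) 0 Z) : Set ℕ)} with hD
  have hcS : cS c 0 α (↑(PS (Sh h) 0 Z) : Set ℕ) = (D.ncard : ℝ) := rfl
  rw [hcS]
  have hAfin : A.Finite := (Set.finite_Iic N).subset fun n hn => hn.2.1
  have hDfin : D.Finite := fin_set' hc le_rfl hα _
  have hmem : ∀ n, n ∈ D ↔ 1 ≤ n ∧ 0 < ⌊α * (n : ℝ) ^ c⌋₊ ∧ ⌊α * (n : ℝ) ^ c⌋₊ ≤ Z ∧
      ((⌊α * (n : ℝ) ^ c⌋₊ : ℤ) + h).toNat.Prime := by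
    intro n
    rw [hD]
    show (1 ≤ n ∧ fl c 0 α n ∈ (↑(PS (Sh h) 0 Z) : Set ℕ)) ↔ _
    rw [Finset.mem_coe, hfl, PS, mem_filter, mem_Ioc]
    constructor
    · rintro ⟨h1, ⟨h2, h3⟩, h4⟩
      exact ⟨h1, h2, h3, h4⟩
    · rintro ⟨h1, h2, h3, h4⟩
      exact ⟨h1, ⟨h2, h3⟩, h4⟩
  have h1 : A ⊆ D ∪ ↑(Finset.range (k + 1)) := by
    intro n hn
    obtain ⟨hn1, hn2, hn3⟩ := hn
    by_cases h0 : 0 < ⌊α * (n : ℝ) ^ c⌋₊
    · left
      rw [hmem]
      refine ⟨hn1, h0, ?_, hn3⟩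
      refine Nat.floor_le_floor ?_
      have : (n : ℝ) ^ c ≤ (N : ℝ) ^ c :=
        Real.rpow_le_rpow (by positivity) (by exact_mod_cast hn2) (by linarith)
      gcongr
    · right
      have h2 : α * (n : ℝ) ^ c < 1 := by
        rw [Nat.floor_pos] at h0
        exact not_le.1 h0
      have h3 : (n : ℝ) ≤ (n : ℝ) ^ c := Real.self_le_rpow_of_one_le (by exact_mod_cast hn1) hc
      have h4 : (n : ℝ) ≤ k := by
        refine le_trans ?_ hk1
        rw [le_div_iff₀ hα]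
        nlinarith
      have h5 : n ≤ k := by exact_mod_cast h4
      rw [Finset.mem_coe, Finset.mem_range]
      omega
  have h2 : D ⊆ A ∪ ↑(Finset.Ioc N (N + k)) := by
    intro n hn
    rw [hmem] at hn
    obtain ⟨hn1, hn2, hn3, hn4⟩ := hn
    rcases le_or_gt n N with hnN | hnN
    · left
      exact ⟨hn1, hnN, hn4⟩
    · right
      have h3 := Nat.lt_floor_add_one (α * (n : ℝ) ^ c)
      have h4 : ((⌊α * (n : ℝ) ^ c⌋₊ : ℕ) : ℝ) ≤ Z := by exact_mod_cast hn3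
      have h5 : (Z : ℝ) ≤ α * (N : ℝ) ^ c := Nat.floor_le (by positivity)
      have h6 : (n : ℝ) - N ≤ (n : ℝ) ^ c - (N : ℝ) ^ c :=
        pow_sub_ge hc (by exact_mod_cast hN) (by exact_mod_cast hnN.le)
      have h7 : (n : ℝ) - N ≤ 1 / α := by
        rw [le_div_iff₀ hα]
        nlinarith
      have h8 : (n : ℝ) ≤ ((N + k : ℕ) : ℝ) := by
        push_cast
        linarith
      have h9 : n ≤ N + k := by exact_mod_cast h8
      rw [Finset.mem_coe, Finset.mem_Ioc]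
      omega
  have h3 : A.ncard ≤ D.ncard + (k + 1) := by
    refine (Set.ncard_le_ncard h1 (hDfin.union (Finset.finite_toSet _))).trans ?_
    refine (Set.ncard_union_le _ _).trans ?_
    rw [Set.ncard_coe_finset, Finset.card_range]
  have h4 : D.ncard ≤ A.ncard + (k + 1) := by
    refine (Set.ncard_le_ncard h2 (hAfin.union (Finset.finite_toSet _))).trans ?_
    refine (Set.ncard_union_le _ _).trans ?_
    rw [Set.ncard_coe_finset, Nat.card_Ioc]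
    omega
  have h3' : (A.ncard : ℝ) ≤ D.ncard + ((k + 1 : ℕ) : ℝ) := by exact_mod_cast h3
  have h4' : (D.ncard : ℝ) ≤ A.ncard + ((k + 1 : ℕ) : ℝ) := by exact_mod_cast h4
  rw [abs_le]
  constructor <;> linarith

lemma MT_eq {c α : ℝ} (hc : 1 ≤ c) (hα : 0 < α) (S : Set ℕ) (Z : ℕ) :
    MT c (PS S 0 Z) α = 1 / (c * α ^ (1 / c)) * ∑ m ∈ PS S 0 Z, (m : ℝ) ^ (1 / c - 1) := by
  classical
  have hc0 : 0 < c := by linarith
  unfold MT
  rw [Finset.mul_sum]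
  refine Finset.sum_congr rfl fun p hp => ?_
  unfold PS at hp
  rw [mem_filter, mem_Ioc] at hp
  have hp0 : (0 : ℝ) < p := by exact_mod_cast hp.1.1
  rw [Real.div_rpow hp0.le hα.le, Real.rpow_sub hp0, Real.rpow_one]
  have : 0 < α ^ (1 / c) := Real.rpow_pos_of_pos hα _
  field_simp

end CORh

open CORh in
theorem cor : COR := by
  intro hPRM c α κ hc hα hκ h hAs
  have hc0 : 0 < c := by linarith
  obtain ⟨s, hs⟩ : ∃ s : ℝ, s = 1 / c := ⟨_, rfl⟩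
  have hs0 : 0 < s := by rw [hs]; positivity
  have hs1 : s ≤ 1 := by rw [hs, div_le_one hc0]; exact hc
  have hcs : c * s = 1 := by rw [hs]; field_simp
  obtain ⟨C, hC⟩ := hAs
  have hαs : 0 < α ^ s := Real.rpow_pos_of_pos hα _
  -- the floor
  let Zf : ℕ → ℕ := fun N => ⌊α * (N : ℝ) ^ c⌋₊
  have hxt : Tendsto (fun N : ℕ => α * (N : ℝ) ^ c) atTop atTop :=
    ((tendsto_rpow_atTop hc0).comp tendsto_natCast_atTop_atTop).const_mul_atTop hα
  have hZt : Tendsto Zf atTop atTop := tendsto_nat_floor_atTop.comp hxt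
  have hL2 : Tendsto (fun N : ℕ => ((Zf N : ℕ) : ℝ) / (α * (N : ℝ) ^ c)) atTop (𝓝 1) :=
    (tendsto_nat_floor_div_atTop (R := ℝ)).comp hxt
  have hlogN : Tendsto (fun N : ℕ => c * Real.log N) atTop atTop :=
    (Real.tendsto_log_atTop.comp tendsto_natCast_atTop_atTop).const_mul_atTop hc0
  -- ratio of powers
  have hR1 : Tendsto (fun N : ℕ => ((Zf N : ℕ) : ℝ) ^ s / N) atTop (𝓝 (α ^ s)) := by
    have h1 : Tendsto (fun N : ℕ => (((Zf N : ℕ) : ℝ) / (α * (N : ℝ) ^ c)) ^ s * α ^ s) atTop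
        (𝓝 ((1 : ℝ) ^ s * α ^ s)) :=
      (hL2.rpow_const (Or.inl one_ne_zero)).mul_const _
    rw [Real.one_rpow, one_mul] at h1
    refine h1.congr' ?_
    filter_upwards [eventually_ge_atTop 1] with N hN
    have hN0 : (0 : ℝ) < N := by exact_mod_cast hN
    have hNc : 0 < (N : ℝ) ^ c := Real.rpow_pos_of_pos hN0 _
    rw [Real.div_rpow (by positivity) (by positivity), Real.mul_rpow hα.le hNc.le,
      ← Real.rpow_mul hN0.le, hcs, Real.rpow_one]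
    field_simp
  -- ratio of logarithms
  have hR2 : Tendsto (fun N : ℕ => Real.log (Zf N : ℕ) / (c * Real.log N)) atTop (𝓝 1) := by
    have h1 : Tendsto (fun N : ℕ => Real.log (((Zf N : ℕ) : ℝ) / (α * (N : ℝ) ^ c)) + Real.log α)
        atTop (𝓝 (Real.log 1 + Real.log α)) :=
      ((Real.continuousAt_log one_ne_zero).tendsto.comp hL2).add_const _
    have h2 := (h1.div_atTop hlogN).add_const (1 : ℝ)
    rw [zero_add] at h2
    refine h2.congr' ?_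
    filter_upwards [eventually_ge_atTop 2, hZt.eventually_ge_atTop 1] with N hN hZ
    have hN0 : (0 : ℝ) < N := by
      have : 0 < N := by omega
      exact_mod_cast this
    have hNc : 0 < (N : ℝ) ^ c := Real.rpow_pos_of_pos hN0 _
    have hZ0 : (0 : ℝ) < (Zf N : ℕ) := by exact_mod_cast hZ
    have hlog : 0 < Real.log N := Real.log_pos (by exact_mod_cast hN)
    rw [Real.log_div hZ0.ne' (by positivity), Real.log_mul hα.ne' hNc.ne', Real.log_rpow hN0]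
    field_simp
    ring
  have hR3 : Tendsto (fun N : ℕ => c * Real.log N / (s * Real.log (Zf N : ℕ))) atTop (𝓝 c) := by
    have h1 := (hR2.inv₀ one_ne_zero).const_mul (1 / s)
    have e1 : 1 / s * (1 : ℝ)⁻¹ = c := by
      rw [hs]
      field_simp
    rw [e1] at h1
    refine h1.congr' ?_
    filter_upwards with N
    rw [inv_div, div_mul_div_comm, one_mul]
  -- the prime number theorem
  have hP := (hPRM s hs0 hs1 h).comp hZt
  -- the error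
  obtain ⟨B, hB⟩ : ∃ B : ℝ, B = ((⌈1 / α⌉₊ + 1 : ℕ) : ℝ) := ⟨_, rfl⟩
  have hB0 : 0 ≤ B := by rw [hB]; positivity
  have hlr : ∀ θ : ℝ, 0 < θ → Tendsto (fun Z : ℕ => Real.log Z / (Z : ℝ) ^ θ) atTop (𝓝 0) := by
    intro θ hθ
    exact (isLittleO_log_rpow_atTop hθ).tendsto_div_nhds_zero.comp tendsto_natCast_atTop_atTop
  have herr : Tendsto (fun Z : ℕ => |C| * s * (Real.log Z / (Z : ℝ) ^ κ) +
      B * s * (Real.log Z / (Z : ℝ) ^ s)) atTop (𝓝 0) := by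
    have h1 := ((hlr κ hκ).const_mul (|C| * s)).add ((hlr s hs0).const_mul (B * s))
    simpa using h1
  have hmain : Tendsto (fun N : ℕ =>
      (({n : ℕ | 1 ≤ n ∧ n ≤ N ∧ ((⌊α * (n : ℝ) ^ c⌋₊ : ℤ) + h).toNat.Prime}.ncard : ℕ) : ℝ) *
        (s * Real.log (Zf N : ℕ)) / ((Zf N : ℕ) : ℝ) ^ s) atTop (𝓝 (1 / (c * α ^ s))) := by
    have h1 : Tendsto (fun N : ℕ => 1 / (c * α ^ s) *
        ((∑ m ∈ PS (Sh h) 0 (Zf N), (m : ℝ) ^ (s - 1)) * (s * Real.log (Zf N : ℕ)) /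
          ((Zf N : ℕ) : ℝ) ^ s)) atTop (𝓝 (1 / (c * α ^ s))) := by
      have := hP.const_mul (1 / (c * α ^ s))
      rw [mul_one] at this
      exact this
    have h2 : Tendsto (fun N : ℕ =>
      (({n : ℕ | 1 ≤ n ∧ n ≤ N ∧ ((⌊α * (n : ℝ) ^ c⌋₊ : ℤ) + h).toNat.Prime}.ncard : ℕ) : ℝ) *
        (s * Real.log (Zf N : ℕ)) / ((Zf N : ℕ) : ℝ) ^ s - 1 / (c * α ^ s) *
        ((∑ m ∈ PS (Sh h) 0 (Zf N), (m : ℝ) ^ (s - 1)) * (s * Real.log (Zf N : ℕ)) /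
          ((Zf N : ℕ) : ℝ) ^ s)) atTop (𝓝 0) := by
      refine squeeze_zero_norm' ?_ (herr.comp hZt)
      filter_upwards [eventually_ge_atTop 1, hZt.eventually_ge_atTop 1] with N hN hZ
      have hZ1 : (1 : ℝ) ≤ (Zf N : ℕ) := by exact_mod_cast hZ
      have hZ0 : (0 : ℝ) < (Zf N : ℕ) := by linarith
      have hZs : 0 < ((Zf N : ℕ) : ℝ) ^ s := Real.rpow_pos_of_pos hZ0 _
      have hZk : 0 < ((Zf N : ℕ) : ℝ) ^ κ := Real.rpow_pos_of_pos hZ0 _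
      have hlog : 0 ≤ Real.log (Zf N : ℕ) := Real.log_nonneg hZ1
      have h3 := count_diff hc hα h hN
      have h4 := hC (Zf N) hZ
      rw [MT_eq hc hα, ← hs] at h4
      rw [← hB] at h3
      change |_ - cS c 0 α (↑(PS (Sh h) 0 (Zf N)) : Set ℕ)| ≤ B at h3
      set X : ℝ := (({n : ℕ | 1 ≤ n ∧ n ≤ N ∧
        ((⌊α * (n : ℝ) ^ c⌋₊ : ℤ) + h).toNat.Prime}.ncard : ℕ) : ℝ) with hX
      set W : ℝ := cS c 0 α (↑(PS (Sh h) 0 (Zf N)) : Set ℕ) with hW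
      set T : ℝ := ∑ m ∈ PS (Sh h) 0 (Zf N), (m : ℝ) ^ (s - 1) with hT
      have h5 : |X - 1 / (c * α ^ s) * T| ≤ |C| * ((Zf N : ℕ) : ℝ) ^ (s - κ) + B := by
        have e1 : X - 1 / (c * α ^ s) * T = (X - W) + (W - 1 / (c * α ^ s) * T) := by ring
        rw [e1]
        refine (abs_add_le _ _).trans ?_
        have h6 : C * ((Zf N : ℕ) : ℝ) ^ (s - κ) ≤ |C| * ((Zf N : ℕ) : ℝ) ^ (s - κ) :=
          mul_le_mul_of_nonneg_right (le_abs_self C) (by positivity)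
        linarith
      have e2 : X * (s * Real.log (Zf N : ℕ)) / ((Zf N : ℕ) : ℝ) ^ s - 1 / (c * α ^ s) *
          (T * (s * Real.log (Zf N : ℕ)) / ((Zf N : ℕ) : ℝ) ^ s) =
          (X - 1 / (c * α ^ s) * T) * (s * Real.log (Zf N : ℕ) / ((Zf N : ℕ) : ℝ) ^ s) := by
        ring
      rw [e2, Real.norm_eq_abs, abs_mul,
        abs_of_nonneg (show 0 ≤ s * Real.log (Zf N : ℕ) / ((Zf N : ℕ) : ℝ) ^ s by positivity)]
      refine (mul_le_mul_of_nonneg_right h5 (by positivity)).trans (le_of_eq ?_)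
      rw [Real.rpow_sub hZ0]
      show _ = |C| * s * (Real.log (Zf N : ℕ) / ((Zf N : ℕ) : ℝ) ^ κ) +
        B * s * (Real.log (Zf N : ℕ) / ((Zf N : ℕ) : ℝ) ^ s)
      field_simp
    have h3 := h2.add h1
    rw [zero_add] at h3
    refine h3.congr fun N => ?_
    ring
  have hfin := (hmain.mul hR1).mul hR3
  have e1 : 1 / (c * α ^ s) * α ^ s * c = 1 := by field_simp
  rw [e1] at hfin
  refine hfin.congr' ?_
  filter_upwards [eventually_ge_atTop 1, hZt.eventually_ge_atTop 2] with N hN hZ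
  have hN0 : (0 : ℝ) < N := by exact_mod_cast hN
  have hZ1 : (1 : ℝ) < (Zf N : ℕ) := by
    have : 1 < Zf N := by omega
    exact_mod_cast this
  have hZ0 : (0 : ℝ) < (Zf N : ℕ) := by linarith
  have hZs : 0 < ((Zf N : ℕ) : ℝ) ^ s := Real.rpow_pos_of_pos hZ0 _
  have hlog : 0 < Real.log (Zf N : ℕ) := Real.log_pos hZ1
  field_simp

end Pool.Agent.H717R2.MQ
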