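import Pool.Agent.H717R2.MQ.AE3

open Finset MeasureTheory Filter Topology
open scoped ENNReal NNReal

namespace Pool.Agent.H717R2.MQ

/-- Hausdorff-Cantelli -/
theorem dimH_limsup_le {s : ℝ≥0} (hs : 0 < s) {r : ℕ → ℝ} (hr0 : ∀ i, 0 ≤ r i) (hr : Antitone r)
    (hr' : Tendsto r atTop (𝓝 0)) (T : ℕ → Finset ℝ)
    (hsum : Summable (fun i => ((T i).card : ℝ) * (r i) ^ (s : ℝ))) {E : Set ℝ}
    (hE : ∀ α ∈ E, ∃ᶠ i in atTop, ∃ q ∈ T i, α ∈ Set.Icc q (q + r i)) : dimH E ≤ s := by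
  have hs' : (0 : ℝ) < s := by exact_mod_cast hs
  have hpos : ∀ i, 0 ≤ ((T i).card : ℝ) * (r i) ^ (s : ℝ) := fun i => by
    have := hr0 i
    positivity
  have hterm : ∀ i, ∀ q ∈ T i, Metric.ediam (Set.Icc q (q + r i)) ^ (s : ℝ) = ENNReal.ofReal ((r i) ^ (s : ℝ)) := by
    intro i q _
    rw [Real.ediam_Icc, add_sub_cancel_left, ENNReal.ofReal_rpow_of_nonneg (hr0 i) hs'.le]
  have key : Measure.hausdorffMeasure (s : ℝ) E ≤ 0 := by
    have h1 := Measure.hausdorffMeasure_le_liminf_tsum (ι := fun n : ℕ => (Σ i : ℕ, {q // q ∈ T (i + n)}))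
      (s : ℝ) E (l := atTop) (fun n => ENNReal.ofReal (r n)) (by
        have := ENNReal.tendsto_ofReal hr'
        simpa using this)
      (fun n x => Set.Icc (x.2 : ℝ) ((x.2 : ℝ) + r (x.1 + n))) (by
        refine Filter.Eventually.of_forall fun n x => ?_
        rw [Real.ediam_Icc, add_sub_cancel_left]
        exact ENNReal.ofReal_le_ofReal (hr (by omega))) (by
        refine Filter.Eventually.of_forall fun n α hα => ?_
        obtain ⟨i, hi, q, hq, hαq⟩ := (frequently_atTop.mp (hE α hα)) n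
        rw [Set.mem_iUnion]
        have hin : i - n + n = i := by omega
        refine ⟨⟨i - n, ⟨q, by rw [hin]; exact hq⟩⟩, ?_⟩
        simp only
        rw [hin]
        exact hαq)
    refine h1.trans ?_
    have h2 : ∀ n : ℕ, ∑' x : (Σ i : ℕ, {q // q ∈ T (i + n)}),
        Metric.ediam (Set.Icc (x.2 : ℝ) ((x.2 : ℝ) + r (x.1 + n))) ^ (s : ℝ) =
        ∑' i : ℕ, ENNReal.ofReal (((T (i + n)).card : ℝ) * (r (i + n)) ^ (s : ℝ)) := by
      intro n
      rw [ENNReal.tsum_sigma']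
      congr 1
      funext i
      have h3 : ∀ q : {q // q ∈ T (i + n)}, Metric.ediam (Set.Icc (q : ℝ) ((q : ℝ) + r (i + n))) ^ (s : ℝ) =
          ENNReal.ofReal ((r (i + n)) ^ (s : ℝ)) := fun q => hterm (i + n) q q.2
      simp only [h3]
      rw [tsum_fintype, Finset.sum_const, nsmul_eq_mul, ENNReal.ofReal_mul (by positivity), ENNReal.ofReal_natCast]
      congr 2
      simp
    have h4 : Tendsto (fun n : ℕ => ∑' i : ℕ, ENNReal.ofReal (((T (i + n)).card : ℝ) * (r (i + n)) ^ (s : ℝ)))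
        atTop (𝓝 0) :=
      ENNReal.tendsto_sum_nat_add (fun i => ENNReal.ofReal (((T i).card : ℝ) * (r i) ^ (s : ℝ)))
        hsum.tsum_ofReal_ne_top
    have h5 : liminf (fun n : ℕ => ∑' x : (Σ i : ℕ, {q // q ∈ T (i + n)}),
        Metric.ediam (Set.Icc (x.2 : ℝ) ((x.2 : ℝ) + r (x.1 + n))) ^ (s : ℝ)) atTop = 0 := by
      simp only [h2]
      exact h4.liminf_eq
    exact h5.le
  apply dimH_le_of_hausdorffMeasure_ne_top
  exact ne_top_of_le_ne_top ENNReal.zero_ne_top key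

lemma stab_upper {c β ρ α α' : ℝ} {P K : Finset ℕ}
    (h : ∀ k ∈ K, |((k : ℝ) + β) ^ c * α - ((k : ℝ) + β) ^ c * α'| ≤ ρ) :
    cnt c P K β 1 1 α ≤ cnt c P K β 1 (1 + ρ) α' + cnt c P K β 0 ρ α' := by
  classical
  unfold cnt
  rw [← sum_add_distrib]
  refine sum_le_sum fun k hk => ?_
  have h1 := abs_le.mp (h k hk)
  rw [← Nat.cast_add]
  have h2 : (P.filter (fun p : ℕ => ((k : ℝ) + β) ^ c * α - 1 * 1 < p ∧
      (p : ℝ) ≤ ((k : ℝ) + β) ^ c * α + (1 - 1) * 1)) ⊆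
      (P.filter (fun p : ℕ => ((k : ℝ) + β) ^ c * α' - 1 * (1 + ρ) < p ∧
      (p : ℝ) ≤ ((k : ℝ) + β) ^ c * α' + (1 - 1) * (1 + ρ))) ∪
      (P.filter (fun p : ℕ => ((k : ℝ) + β) ^ c * α' - 0 * ρ < p ∧
      (p : ℝ) ≤ ((k : ℝ) + β) ^ c * α' + (1 - 0) * ρ)) := by
    intro p hp
    rw [mem_filter] at hp
    rw [mem_union, mem_filter, mem_filter]
    obtain ⟨hpP, h3, h4⟩ := hp
    rcases le_or_gt (p : ℝ) (((k : ℝ) + β) ^ c * α') with h5 | h5
    · left
      exact ⟨hpP, by linarith, by linarith⟩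
    · right
      exact ⟨hpP, by linarith, by linarith⟩
  have h3 := (card_le_card h2).trans (card_union_le _ _)
  exact_mod_cast h3

lemma stab_lower {c β ρ α α' : ℝ} {P K : Finset ℕ}
    (h : ∀ k ∈ K, |((k : ℝ) + β) ^ c * α - ((k : ℝ) + β) ^ c * α'| ≤ ρ) :
    cnt c P K β 1 (1 - ρ) α' ≤ cnt c P K β 1 1 α + cnt c P K β 1 ρ α' := by
  classical
  unfold cnt
  rw [← sum_add_distrib]
  refine sum_le_sum fun k hk => ?_
  have h1 := abs_le.mp (h k hk)
  rw [← Nat.cast_add]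
  have h2 : (P.filter (fun p : ℕ => ((k : ℝ) + β) ^ c * α' - 1 * (1 - ρ) < p ∧
      (p : ℝ) ≤ ((k : ℝ) + β) ^ c * α' + (1 - 1) * (1 - ρ))) ⊆
      (P.filter (fun p : ℕ => ((k : ℝ) + β) ^ c * α - 1 * 1 < p ∧
      (p : ℝ) ≤ ((k : ℝ) + β) ^ c * α + (1 - 1) * 1)) ∪
      (P.filter (fun p : ℕ => ((k : ℝ) + β) ^ c * α' - 1 * ρ < p ∧
      (p : ℝ) ≤ ((k : ℝ) + β) ^ c * α' + (1 - 1) * ρ)) := by
    intro p hp
    rw [mem_filter] at hp
    rw [mem_union, mem_filter, mem_filter]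
    obtain ⟨hpP, h3, h4⟩ := hp
    rcases le_or_gt (p : ℝ) (((k : ℝ) + β) ^ c * α' - ρ) with h5 | h5
    · left
      exact ⟨hpP, by linarith, by linarith⟩
    · right
      exact ⟨hpP, by linarith, by linarith⟩
  have h3 := (card_le_card h2).trans (card_union_le _ _)
  exact_mod_cast h3

lemma MT_stab {c Y r α α' : ℝ} (hc : 1 ≤ c) (hY : 0 < Y) (hr : 0 ≤ r) (hα : Y ≤ α) (hα' : Y ≤ α')
    (h : |α - α'| ≤ r) (P : Finset ℕ) : MT c P α ≤ (1 + r / Y) * MT c P α' := by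
  have hc0 : 0 < c := by linarith
  have hα0 : 0 < α := hY.trans_le hα
  have hα0' : 0 < α' := hY.trans_le hα'
  unfold MT
  rw [mul_sum]
  refine sum_le_sum fun p _ => ?_
  have h1 : ((p : ℝ) / α) ^ (1 / c) ≤ (1 + r / Y) * ((p : ℝ) / α') ^ (1 / c) := by
    have h2 : (p : ℝ) / α ≤ (1 + r / Y) * ((p : ℝ) / α') := by
      have h3 : α' / α ≤ 1 + r / Y := by
        have h4 := (abs_le.mp h).1
        have h5 : α' / α = 1 + (α' - α) / α := by field_simp; ring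
        rw [h5]
        have h6 : (α' - α) / α ≤ r / α := by
          apply div_le_div_of_nonneg_right _ hα0.le
          linarith
        have h7 : r / α ≤ r / Y := div_le_div_of_nonneg_left hr hY hα
        linarith
      have h8 : (p : ℝ) / α = (α' / α) * ((p : ℝ) / α') := by field_simp
      rw [h8]
      gcongr
    calc ((p : ℝ) / α) ^ (1 / c) ≤ ((1 + r / Y) * ((p : ℝ) / α')) ^ (1 / c) :=
          Real.rpow_le_rpow (by positivity) h2 (by positivity)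
      _ = (1 + r / Y) ^ (1 / c) * ((p : ℝ) / α') ^ (1 / c) := by
          rw [Real.mul_rpow (by positivity) (by positivity)]
      _ ≤ (1 + r / Y) ^ (1 : ℝ) * ((p : ℝ) / α') ^ (1 / c) := by
          apply mul_le_mul_of_nonneg_right _ (by positivity)
          apply Real.rpow_le_rpow_of_exponent_le
          · have : 0 ≤ r / Y := by positivity
            linarith
          · rw [div_le_one hc0]; exact hc
      _ = _ := by rw [Real.rpow_one]
  have h2 : 0 ≤ 1 / (c * (p : ℝ)) := by positivity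
  calc 1 / (c * (p : ℝ)) * ((p : ℝ) / α) ^ (1 / c) ≤ 1 / (c * (p : ℝ)) * ((1 + r / Y) * ((p : ℝ) / α') ^ (1 / c)) := by
        gcongr
    _ = _ := by ring

/-- if `α` is bad, every nearby `α'` is bad for one of four other windows -/
lemma four {c β ρ Y r D MB α α' : ℝ} (hc : 1 ≤ c) (hY : 0 < Y) (hr : 0 ≤ r) (hρ : 0 ≤ ρ) {P K : Finset ℕ}
    (hα : Y ≤ α) (hα' : Y ≤ α') (hαα' : |α - α'| ≤ r)
    (h : ∀ k ∈ K, |((k : ℝ) + β) ^ c * α - ((k : ℝ) + β) ^ c * α'| ≤ ρ)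
    (hMB : MT c P α ≤ MB) (hMB' : MT c P α' ≤ MB) (hsmall : (r / Y + 2 * ρ) * MB ≤ D / 2)
    (hbad : D < dv c P K β 1 1 α) :
    D / 4 ≤ dv c P K β 1 (1 + ρ) α' ∨ D / 4 ≤ dv c P K β 0 ρ α' ∨ D / 4 ≤ dv c P K β 1 (1 - ρ) α' ∨
      D / 4 ≤ dv c P K β 1 ρ α' := by
  by_contra hcon
  push Not at hcon
  obtain ⟨h1, h2, h3, h4⟩ := hcon
  unfold dv at h1 h2 h3 h4 hbad
  rw [abs_lt] at h1 h2 h3 h4
  rw [lt_abs] at hbad
  have hα0 : 0 < α := hY.trans_le hα
  have hα0' : 0 < α' := hY.trans_le hα'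
  have m0 : 0 ≤ MT c P α := sum_nonneg fun p _ => term_nonneg hc hα0 p
  have m0' : 0 ≤ MT c P α' := sum_nonneg fun p _ => term_nonneg hc hα0' p
  have s1 := stab_upper (P := P) h
  have s2 := stab_lower (P := P) h
  have s3 := MT_stab hc hY hr hα hα' hαα' P
  have s4 := MT_stab hc hY hr hα' hα (by rwa [abs_sub_comm]) P
  have hrY : 0 ≤ r / Y := by positivity
  have u1 : r / Y * MT c P α ≤ r / Y * MB := by gcongr
  have u2 : r / Y * MT c P α' ≤ r / Y * MB := by gcongr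
  have u3 : ρ * MT c P α' ≤ ρ * MB := by gcongr
  rcases hbad with hb | hb
  · linarith [h1.2, h2.2]
  · linarith [h3.1, h4.2]

end Pool.Agent.H717R2.MQ
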