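import Pool.Agent.H717R2.MQ.Dim1

open Finset MeasureTheory Filter Topology
open scoped ENNReal NNReal

namespace Pool.Agent.H717R2.MQ

lemma markov' {c : ℝ} (hc : 0 < c) {Y : ℝ} (hY : 0 < Y) (P K : Finset ℕ) (β σ H : ℝ) {D I : ℝ} (hD : 0 < D)
    (hI : ∫ y in Set.Icc Y (2 * Y), dv c P K β σ H y ≤ I) :
    (volume.restrict (Set.Icc Y (2 * Y))) {y | D ≤ dv c P K β σ H y} ≤ ENNReal.ofReal (I / D) := by
  have hm := mul_meas_ge_le_integral_of_nonneg (μ := volume.restrict (Set.Icc Y (2 * Y)))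
    (f := dv c P K β σ H) (Filter.Eventually.of_forall fun y => dv_nonneg _ _ _ _ _ _ _)
    (dv_int hc _ _ _ _ _ hY) D
  have hm2 := hm.trans hI
  have hb : (volume.restrict (Set.Icc Y (2 * Y))).real {y | D ≤ dv c P K β σ H y} ≤ I / D := by
    rw [le_div_iff₀ hD, mul_comm]
    exact hm2
  have hfin : (volume.restrict (Set.Icc Y (2 * Y))) {y | D ≤ dv c P K β σ H y} ≠ ⊤ := by
    refine ne_top_of_le_ne_top ?_ (measure_mono (Set.subset_univ _))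
    simp
  rw [← ENNReal.ofReal_toReal hfin]
  exact ENNReal.ofReal_le_ofReal hb

lemma cells {Y : ℝ} (hY : 0 < Y) {L : ℕ} (hL : 0 < L) {r : ℝ} (hr : r = Y / L) (T : Finset ℕ)
    (hT : ∀ q ∈ T, q < L) (B : Set ℝ)
    (hB : ∀ q ∈ T, Set.Ico (Y + (q : ℝ) * r) (Y + ((q : ℝ) + 1) * r) ⊆ B) {M : ℝ}
    (hM0 : 0 ≤ M) (hM : (volume.restrict (Set.Icc Y (2 * Y))) B ≤ ENNReal.ofReal M) : (T.card : ℝ) * r ≤ M := by
  have hL' : (0 : ℝ) < L := by exact_mod_cast hL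
  have hr0 : 0 < r := by rw [hr]; positivity
  have h1 : volume (⋃ q ∈ T, Set.Ico (Y + (q : ℝ) * r) (Y + ((q : ℝ) + 1) * r)) =
      ENNReal.ofReal ((T.card : ℝ) * r) := by
    rw [measure_biUnion_finset]
    · have h2 : ∀ q ∈ T, volume (Set.Ico (Y + (q : ℝ) * r) (Y + ((q : ℝ) + 1) * r)) = ENNReal.ofReal r := by
        intro q _
        rw [Real.volume_Ico]
        congr 1; ring
      rw [sum_congr rfl h2, sum_const, nsmul_eq_mul, ENNReal.ofReal_mul (by positivity), ENNReal.ofReal_natCast]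
    · intro a _ b _ hab
      rw [Function.onFun, Set.disjoint_left]
      intro x hx hy
      rw [Set.mem_Ico] at hx hy
      apply hab
      have h3 : (a : ℝ) < b + 1 := by
        by_contra hcon
        push Not at hcon
        have : ((b : ℝ) + 1) * r ≤ a * r := by gcongr
        linarith [hx.1, hy.2]
      have h4 : (b : ℝ) < a + 1 := by
        by_contra hcon
        push Not at hcon
        have : ((a : ℝ) + 1) * r ≤ b * r := by gcongr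
        linarith [hy.1, hx.2]
      have h5 : a < b + 1 := by exact_mod_cast h3
      have h6 : b < a + 1 := by exact_mod_cast h4
      omega
    · intro q _
      exact measurableSet_Ico
  have h2 : (⋃ q ∈ T, Set.Ico (Y + (q : ℝ) * r) (Y + ((q : ℝ) + 1) * r)) ⊆ B ∩ Set.Icc Y (2 * Y) := by
    intro x hx
    rw [Set.mem_iUnion₂] at hx
    obtain ⟨q, hq, hx⟩ := hx
    refine ⟨hB q hq hx, ?_⟩
    rw [Set.mem_Ico] at hx
    have hqL : (q : ℝ) + 1 ≤ L := by exact_mod_cast hT q hq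
    have h3 : ((q : ℝ) + 1) * r ≤ L * r := by gcongr
    have h4 : (L : ℝ) * r = Y := by rw [hr]; field_simp
    have h5 : 0 ≤ (q : ℝ) * r := by positivity
    constructor <;> linarith [hx.1, hx.2]
  have h3 : ENNReal.ofReal ((T.card : ℝ) * r) ≤ ENNReal.ofReal M := by
    rw [← h1]
    exact (measure_mono h2).trans ((Measure.le_restrict_apply _ _).trans hM)
  exact (ENNReal.ofReal_le_ofReal_iff hM0).mp h3

/-- number of cells -/
noncomputable def LL (c κ : ℝ) (i : ℕ) : ℕ := ⌈(9 : ℝ) ^ c * (((2 : ℕ) ^ i : ℕ) : ℝ) ^ (1 + κ)⌉₊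

lemma LL_pos (c κ : ℝ) (i : ℕ) : 0 < LL c κ i := by
  unfold LL
  apply Nat.ceil_pos.mpr
  have : (0 : ℝ) < (((2 : ℕ) ^ i : ℕ) : ℝ) := by positivity
  positivity

/-- the conclusion of `G2` -/
def G2F (c κ : ℝ) : Prop := ∀ Y : ℝ, 0 < Y → ∃ X₀ : ℕ, 3 ≤ X₀ ∧ ∀ X : ℕ, X₀ ≤ X →
      ∀ P : Finset ℕ, P ⊆ Ioc X (2 * X) →
      ∀ (H β σ : ℝ), (X : ℝ) ^ (-κ) ≤ H → H ≤ 2 → 0 ≤ β → β ≤ 1 → (σ = 0 ∨ σ = 1) →
      ∫ y in Set.Icc Y (2 * Y), dv c P (Ico (NN c Y X) (64 * NN c Y X)) β σ H y ≤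
        H * (X : ℝ) ^ (1 / c - κ)

/-- bad cells at level `i`, piece `m` -/
def badcell (c κ β Y : ℝ) (S : Set ℕ) (i m q : ℕ) : Prop :=
  ∃ α ∈ Set.Icc (Y + (q : ℝ) * (Y / LL c κ i)) (Y + ((q : ℝ) + 1) * (Y / LL c κ i)), α ∈ Set.Icc Y (2 * Y) ∧
    (((2 : ℕ) ^ i : ℕ) : ℝ) ^ (1 / c - κ / 2) <
      dv c (PG κ S i m) (Ico (NN c Y (2 ^ i)) (64 * NN c Y (2 ^ i))) β 1 1 α

lemma badcell_count {c κ β Y : ℝ} (hc : 1 ≤ c) (hκ : 0 < κ) (hκ1 : κ ≤ 1 / 4) (hY : 0 < Y) (hβ0 : 0 ≤ β)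
    (hβ1 : β ≤ 1) (hG : G2F c (4 * κ)) :
    ∃ i0 : ℕ, ∀ i ≥ i0, 32 ≤ ((((2 : ℕ) ^ i : ℕ) : ℝ) / Y) ^ (1 / c) ∧ ∀ (S : Set ℕ) (m : ℕ) (T : Finset ℕ),
      (∀ q ∈ T, q < LL c κ i ∧ badcell c κ β Y S i m q) →
      (T.card : ℝ) * (Y / LL c κ i) ≤ 32 * (((2 : ℕ) ^ i : ℕ) : ℝ) ^ (κ / 2 - 4 * κ) := by
  have hc0 : 0 < c := by linarith
  obtain ⟨X₀, hX₀3, hX₀⟩ := hG Y hY
  have t1 : Tendsto (fun i : ℕ => (((2 : ℕ) ^ i : ℕ) : ℝ)) atTop atTop :=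
    tendsto_natCast_atTop_atTop.comp (tendsto_pow_atTop_atTop_of_one_lt (by norm_num))
  have evR : ∀ᶠ i : ℕ in atTop, 32 ≤ ((((2 : ℕ) ^ i : ℕ) : ℝ) / Y) ^ (1 / c) := by
    have t2 : Tendsto (fun i : ℕ => (((2 : ℕ) ^ i : ℕ) : ℝ) / Y) atTop atTop := t1.atTop_div_const hY
    exact ((tendsto_rpow_atTop (by positivity : 0 < 1 / c)).comp t2).eventually_ge_atTop 32
  have evX : ∀ᶠ i : ℕ in atTop, X₀ ≤ 2 ^ i :=
    (tendsto_pow_atTop_atTop_of_one_lt (by norm_num)).eventually_ge_atTop X₀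
  have ev2 : ∀ᶠ i : ℕ in atTop, 2 ≤ (((2 : ℕ) ^ i : ℕ) : ℝ) ^ κ :=
    ((tendsto_rpow_atTop hκ).comp t1).eventually_ge_atTop 2
  have ev3 : ∀ᶠ i : ℕ in atTop, 12 * Y ^ (-(1 / c)) ≤ (((2 : ℕ) ^ i : ℕ) : ℝ) ^ (κ / 2) :=
    ((tendsto_rpow_atTop (by positivity)).comp t1).eventually_ge_atTop _
  obtain ⟨i0, hi0⟩ := (evR.and (evX.and (ev2.and ev3))).exists_forall_of_atTop
  refine ⟨i0, ?_⟩
  intro i hi
  obtain ⟨hR, hXX, h2κ, h12⟩ := hi0 i hi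
  refine ⟨hR, ?_⟩
  intro S m T hT
  set X : ℕ := 2 ^ i with hX
  have hX1 : 1 ≤ X := Nat.one_le_two_pow
  have hXr : (1 : ℝ) ≤ X := by exact_mod_cast hX1
  have hX0 : (0 : ℝ) < X := by linarith
  set L : ℕ := LL c κ i with hL
  have hL0 : 0 < L := LL_pos c κ i
  have hLr : (0 : ℝ) < L := by exact_mod_cast hL0
  have hLge : (9 : ℝ) ^ c * (X : ℝ) ^ (1 + κ) ≤ L := Nat.le_ceil _
  have h9 : (1 : ℝ) ≤ (9 : ℝ) ^ c := Real.one_le_rpow (by norm_num) hc0.le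
  set r : ℝ := Y / L with hr
  have hr0 : 0 < r := by positivity
  set ρ : ℝ := (X : ℝ) ^ (-κ) with hρ
  have hρ0 : 0 < ρ := Real.rpow_pos_of_pos hX0 _
  have hρ2 : ρ ≤ 1 / 2 := by
    rw [hρ, Real.rpow_neg hX0.le, ← one_div]
    exact one_div_le_one_div_of_le (by norm_num) h2κ
  set P := PG κ S i m with hP
  have hPsub : P ⊆ Ioc X (2 * X) := PG_sub κ S i m
  set N := NN c Y X with hN
  set K := Ico N (64 * N) with hK
  obtain ⟨hN1, hN2⟩ := NN_facts hR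
  set R : ℝ := ((X : ℝ) / Y) ^ (1 / c) with hRdef
  have hR0 : 0 < R := by linarith
  have hRc : R ^ c = X / Y := by
    rw [hRdef, ← Real.rpow_mul (by positivity), one_div_mul_cancel hc0.ne', Real.rpow_one]
  set D : ℝ := (X : ℝ) ^ (1 / c - κ / 2) with hD
  have hD0 : 0 < D := Real.rpow_pos_of_pos hX0 _
  set MB : ℝ := 2 * Y ^ (-(1 / c)) * (X : ℝ) ^ (1 / c) with hMB
  have hYc : 0 < Y ^ (-(1 / c)) := Real.rpow_pos_of_pos hY _
  have hMB0 : 0 < MB := by rw [hMB]; positivity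
  have hMTle : ∀ α ∈ Set.Icc Y (2 * Y), MT c P α ≤ MB := by
    intro α hα
    have hα0 : 0 < α := hY.trans_le hα.1
    have h1 : P ⊆ PS S X (2 * X) := PS_mono (min_le_right _ _)
    refine (MT_mono hc hα0 h1).trans ?_
    refine (MT_cell hc hY hα (S := S) hX1 le_rfl le_rfl (G := X) (by omega)).trans (le_of_eq ?_)
    rw [hMB]; field_simp
  have hrY : r / Y ≤ ρ := by
    have e1 : r / Y = 1 / L := by rw [hr]; field_simp
    rw [e1, hρ, Real.rpow_neg hX0.le, ← one_div]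
    apply one_div_le_one_div_of_le (by positivity)
    refine le_trans ?_ hLge
    calc (X : ℝ) ^ κ ≤ (X : ℝ) ^ (1 + κ) := Real.rpow_le_rpow_of_exponent_le hXr (by linarith)
      _ = 1 * (X : ℝ) ^ (1 + κ) := (one_mul _).symm
      _ ≤ (9 : ℝ) ^ c * (X : ℝ) ^ (1 + κ) := by gcongr
  have hsmall : (r / Y + 2 * ρ) * MB ≤ D / 2 := by
    have h1 : (r / Y + 2 * ρ) * MB ≤ (3 * ρ) * MB := by gcongr; linarith
    refine h1.trans ?_
    have e1 : D = (X : ℝ) ^ (κ / 2) * (ρ * (X : ℝ) ^ (1 / c)) := by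
      rw [hD, hρ, ← Real.rpow_add hX0, ← Real.rpow_add hX0]; congr 1; ring
    rw [e1, hMB]
    have h2 : 0 < ρ * (X : ℝ) ^ (1 / c) := by positivity
    nlinarith
  have hk : ∀ α α' : ℝ, |α - α'| ≤ r → ∀ k ∈ K, |((k : ℝ) + β) ^ c * α - ((k : ℝ) + β) ^ c * α'| ≤ ρ := by
    intro α α' h k hkK
    rw [hK, mem_Ico] at hkK
    have hk1 : (k : ℝ) + 1 ≤ 64 * N := by exact_mod_cast hkK.2
    have hkβ : (k : ℝ) + β ≤ 9 * R := by linarith
    have hkβ0 : 0 ≤ (k : ℝ) + β := by positivity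
    rw [← mul_sub, abs_mul, abs_of_nonneg (by positivity)]
    have h1 : ((k : ℝ) + β) ^ c ≤ 9 ^ c * (X / Y) := by
      calc ((k : ℝ) + β) ^ c ≤ (9 * R) ^ c := Real.rpow_le_rpow hkβ0 hkβ hc0.le
        _ = _ := by rw [Real.mul_rpow (by norm_num) hR0.le, hRc]
    calc ((k : ℝ) + β) ^ c * |α - α'| ≤ (9 ^ c * (X / Y)) * r := by gcongr
      _ = (9 ^ c * X) / L := by rw [hr]; field_simp
      _ ≤ (9 ^ c * X) / ((9 : ℝ) ^ c * (X : ℝ) ^ (1 + κ)) := by gcongr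
      _ = ρ := by
        rw [hρ, Real.rpow_add hX0, Real.rpow_one, Real.rpow_neg hX0.le]
        field_simp
  have hX4 : (X : ℝ) ^ (-(4 * κ)) ≤ ρ := Real.rpow_le_rpow_of_exponent_le hXr (by linarith)
  set I : ℝ := 2 * (X : ℝ) ^ (1 / c - 4 * κ) with hI
  have hXp : 0 < (X : ℝ) ^ (1 / c - 4 * κ) := Real.rpow_pos_of_pos hX0 _
  have hint : ∀ H σ : ℝ, (X : ℝ) ^ (-(4 * κ)) ≤ H → H ≤ 2 → (σ = 0 ∨ σ = 1) →
      (volume.restrict (Set.Icc Y (2 * Y))) {y | D / 4 ≤ dv c P K β σ H y} ≤ ENNReal.ofReal (I / (D / 4)) := by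
    intro H σ h1 h2 h3
    apply markov' hc0 hY P K β σ H (by positivity)
    refine (hX₀ X hXX P hPsub H β σ h1 h2 hβ0 hβ1 h3).trans ?_
    rw [hI]
    gcongr
  have hID : I / (D / 4) = 8 * (X : ℝ) ^ (κ / 2 - 4 * κ) := by
    rw [hI, hD]
    have e1 : (X : ℝ) ^ (1 / c - 4 * κ) = (X : ℝ) ^ (κ / 2 - 4 * κ) * (X : ℝ) ^ (1 / c - κ / 2) := by
      rw [← Real.rpow_add hX0]; congr 1; ring
    rw [e1]
    field_simp
    norm_num
  set B : Set ℝ := {y | D / 4 ≤ dv c P K β 1 (1 + ρ) y} ∪ ({y | D / 4 ≤ dv c P K β 0 ρ y} ∪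
    ({y | D / 4 ≤ dv c P K β 1 (1 - ρ) y} ∪ {y | D / 4 ≤ dv c P K β 1 ρ y})) with hB
  have hBm : (volume.restrict (Set.Icc Y (2 * Y))) B ≤ ENNReal.ofReal (32 * (X : ℝ) ^ (κ / 2 - 4 * κ)) := by
    have b1 := hint (1 + ρ) 1 (by linarith) (by linarith) (Or.inr rfl)
    have b2 := hint ρ 0 hX4 (by linarith) (Or.inl rfl)
    have b3 := hint (1 - ρ) 1 (by linarith) (by linarith) (Or.inr rfl)
    have b4 := hint ρ 1 hX4 (by linarith) (Or.inr rfl)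
    rw [hID] at b1 b2 b3 b4
    have hp : 0 ≤ 8 * (X : ℝ) ^ (κ / 2 - 4 * κ) := by positivity
    have e1 : 32 * (X : ℝ) ^ (κ / 2 - 4 * κ) = 8 * (X : ℝ) ^ (κ / 2 - 4 * κ) + (8 * (X : ℝ) ^ (κ / 2 - 4 * κ) +
        (8 * (X : ℝ) ^ (κ / 2 - 4 * κ) + 8 * (X : ℝ) ^ (κ / 2 - 4 * κ))) := by ring
    rw [e1, ENNReal.ofReal_add hp (by positivity), ENNReal.ofReal_add hp (by positivity),
      ENNReal.ofReal_add hp hp]
    refine (measure_union_le _ _).trans (add_le_add b1 ?_)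
    refine (measure_union_le _ _).trans (add_le_add b2 ?_)
    exact (measure_union_le _ _).trans (add_le_add b3 b4)
  refine cells hY hL0 hr T (fun q hq => (hT q hq).1) B ?_ (by positivity) hBm
  intro q hq α' hα'
  obtain ⟨hqL, α, hα, hαY, hbad⟩ := hT q hq
  rw [Set.mem_Ico] at hα'
  rw [Set.mem_Icc] at hα
  have hqL' : (q : ℝ) + 1 ≤ L := by exact_mod_cast hqL
  have h3 : ((q : ℝ) + 1) * r ≤ L * r := by gcongr
  have h4 : (L : ℝ) * r = Y := by rw [hr]; field_simp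
  have h5 : 0 ≤ (q : ℝ) * r := by positivity
  have hα'Y : α' ∈ Set.Icc Y (2 * Y) := ⟨by linarith [hα'.1], by linarith [hα'.2]⟩
  have hdist : |α - α'| ≤ r := by
    have e5 : ((q : ℝ) + 1) * r = (q : ℝ) * r + r := by ring
    rw [abs_le]
    constructor <;> linarith [hα.1, hα.2, hα'.1, hα'.2]
  have := four hc hY hr0.le hρ0.le hαY.1 hα'Y.1 hdist (hk α α' hdist) (hMTle α hαY) (hMTle α' hα'Y) hsmall hbad
  rw [hB]
  simpa [Set.mem_union, Set.mem_setOf_eq] using this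

end Pool.Agent.H717R2.MQ
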