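import Pool.Agent.H717R2.MQ.Dim2

open Finset MeasureTheory Filter Topology
open scoped ENNReal NNReal

namespace Pool.Agent.H717R2.MQ

lemma cell_exists {Y : ℝ} {L : ℕ} (hY : 0 < Y) (hL : 0 < L) {α : ℝ} (hα : α ∈ Set.Icc Y (2 * Y)) :
    ∃ q : ℕ, q < L ∧ α ∈ Set.Icc (Y + (q : ℝ) * (Y / L)) (Y + ((q : ℝ) + 1) * (Y / L)) := by
  have hL' : (0 : ℝ) < L := by exact_mod_cast hL
  have hr : 0 < Y / L := by positivity
  have h0 : 0 ≤ (α - Y) / (Y / L) := by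
    have := hα.1
    apply div_nonneg _ hr.le
    linarith
  have he : (α - Y) / (Y / L) * (Y / L) = α - Y := div_mul_cancel₀ _ hr.ne'
  rcases lt_or_ge ((α - Y) / (Y / L)) L with h | h
  · refine ⟨⌊(α - Y) / (Y / L)⌋₊, ?_, ?_⟩
    · rw [Nat.floor_lt h0]; exact h
    · have h1 := Nat.floor_le h0
      have h2 := Nat.lt_floor_add_one ((α - Y) / (Y / L))
      have h3 : ((⌊(α - Y) / (Y / L)⌋₊ : ℕ) : ℝ) * (Y / L) ≤ (α - Y) / (Y / L) * (Y / L) := by gcongr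
      have h4 : (α - Y) / (Y / L) * (Y / L) ≤ (((⌊(α - Y) / (Y / L)⌋₊ : ℕ) : ℝ) + 1) * (Y / L) := by gcongr
      constructor <;> linarith
  · refine ⟨L - 1, by omega, ?_⟩
    have h1 : (L : ℝ) * (Y / L) ≤ (α - Y) / (Y / L) * (Y / L) := by gcongr
    have h2 : (L : ℝ) * (Y / L) = Y := by field_simp
    have h3 : α = 2 * Y := by
      have := hα.2
      linarith
    have h4 : (((L - 1 : ℕ) : ℕ) : ℝ) = (L : ℝ) - 1 := by
      rw [Nat.cast_sub (by omega)]; simp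
    rw [h4, h3]
    constructor
    · nlinarith
    · have e : ((L : ℝ) - 1 + 1) * (Y / L) = L * (Y / L) := by ring
      rw [e, h2]; linarith

/-- the exceptional set in `[Y, 2 Y]` -/
def EY (c κ β Y : ℝ) (S : Set ℕ) : Set ℝ := {α | α ∈ Set.Icc Y (2 * Y) ∧ ¬ ∀ᶠ i : ℕ in atTop, ∀ m < gM κ i,
      |cS c β α (↑(PG κ S i m) : Set ℕ) - MT c (PG κ S i m) α| ≤ (((2 : ℕ) ^ i : ℕ) : ℝ) ^ (1 / c - κ / 2)}

lemma dim_EY {c κ β Y : ℝ} (hc : 1 ≤ c) (hκ : 0 < κ) (hκ1 : κ ≤ 1 / 4) (hY : 0 < Y) (hβ0 : 0 ≤ β)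
    (hβ1 : β ≤ 1) (hG : G2F c (4 * κ)) (S : Set ℕ) :
    dimH (EY c κ β Y S) ≤ ENNReal.ofReal (1 - 2 * κ) := by
  classical
  have hc0 : 0 < c := by linarith
  obtain ⟨i0, hi0⟩ := badcell_count hc hκ hκ1 hY hβ0 hβ1 hG
  set r : ℕ → ℝ := fun i => Y / LL c κ i with hr
  have hLpos : ∀ i, (0 : ℝ) < LL c κ i := fun i => by exact_mod_cast LL_pos c κ i
  have hr0 : ∀ i, 0 < r i := fun i => by have := hLpos i; simp only [hr]; positivity
  have hXmono : ∀ {i j : ℕ}, i ≤ j → (((2 : ℕ) ^ i : ℕ) : ℝ) ≤ (((2 : ℕ) ^ j : ℕ) : ℝ) := by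
    intro i j hij
    have : 2 ^ i ≤ 2 ^ j := Nat.pow_le_pow_right (by norm_num) hij
    exact_mod_cast this
  have hLmono : ∀ {i j : ℕ}, i ≤ j → LL c κ i ≤ LL c κ j := by
    intro i j hij
    unfold LL
    apply Nat.ceil_le_ceil
    have := hXmono hij
    gcongr
  have hanti : Antitone r := by
    intro i j hij
    simp only [hr]
    have h1 : (LL c κ i : ℝ) ≤ LL c κ j := by exact_mod_cast hLmono hij
    exact div_le_div_of_nonneg_left hY.le (hLpos i) h1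
  have t1 : Tendsto (fun i : ℕ => (((2 : ℕ) ^ i : ℕ) : ℝ)) atTop atTop :=
    tendsto_natCast_atTop_atTop.comp (tendsto_pow_atTop_atTop_of_one_lt (by norm_num))
  have hX1 : ∀ i : ℕ, (1 : ℝ) ≤ (((2 : ℕ) ^ i : ℕ) : ℝ) := fun i => by exact_mod_cast Nat.one_le_two_pow
  have h9 : (1 : ℝ) ≤ (9 : ℝ) ^ c := Real.one_le_rpow (by norm_num) hc0.le
  have hLX : ∀ i : ℕ, (((2 : ℕ) ^ i : ℕ) : ℝ) ≤ LL c κ i := by
    intro i
    refine le_trans ?_ (Nat.le_ceil _)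
    have h1 : (((2 : ℕ) ^ i : ℕ) : ℝ) ≤ (((2 : ℕ) ^ i : ℕ) : ℝ) ^ (1 + κ) := by
      apply Real.self_le_rpow_of_one_le (hX1 i); linarith
    have h2 : 0 ≤ (((2 : ℕ) ^ i : ℕ) : ℝ) ^ (1 + κ) := by positivity
    nlinarith
  have htend : Tendsto r atTop (𝓝 0) := by
    simp only [hr]
    apply Tendsto.const_div_atTop
    exact tendsto_atTop_mono hLX t1
  have hs0 : 0 < 1 - 2 * κ := by linarith
  obtain ⟨sn, hsn⟩ : ∃ sn : ℝ≥0, sn = Real.toNNReal (1 - 2 * κ) := ⟨_, rfl⟩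
  have hsn' : (sn : ℝ) = 1 - 2 * κ := by rw [hsn]; exact Real.coe_toNNReal _ hs0.le
  have hs0' : (0 : ℝ≥0) < sn := by
    rw [hsn]; exact Real.toNNReal_pos.mpr hs0
  set Tm : ℕ → ℕ → Finset ℕ := fun i m => (range (LL c κ i)).filter (fun q => badcell c κ β Y S i m q) with hTm
  set T : ℕ → Finset ℝ := fun i => if i < i0 then ∅ else
    (range (gM κ i)).biUnion (fun m => (Tm i m).image (fun q : ℕ => Y + (q : ℝ) * r i)) with hT
  have hcard : ∀ i, i0 ≤ i → ((T i).card : ℝ) * r i ≤ 96 * (((2 : ℕ) ^ i : ℕ) : ℝ) ^ (-(13 * κ / 4)) := by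
    intro i hi
    have hX0 : (0 : ℝ) < (((2 : ℕ) ^ i : ℕ) : ℝ) := by linarith [hX1 i]
    have e1 : T i = (range (gM κ i)).biUnion (fun m => (Tm i m).image (fun q : ℕ => Y + (q : ℝ) * r i)) := by
      simp only [hT]; rw [if_neg (by omega)]
    have h1 : (T i).card ≤ ∑ m ∈ range (gM κ i), (Tm i m).card := by
      rw [e1]
      refine card_biUnion_le.trans ?_
      exact sum_le_sum fun m _ => card_image_le
    have h1' : ((T i).card : ℝ) ≤ ∑ m ∈ range (gM κ i), ((Tm i m).card : ℝ) := by exact_mod_cast h1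
    have h2 : ∀ m ∈ range (gM κ i), ((Tm i m).card : ℝ) * r i ≤
        32 * (((2 : ℕ) ^ i : ℕ) : ℝ) ^ (κ / 2 - 4 * κ) := by
      intro m _
      apply (hi0 i hi).2 S m (Tm i m)
      intro q hq
      simp only [hTm, mem_filter, mem_range] at hq
      exact hq
    calc ((T i).card : ℝ) * r i ≤ (∑ m ∈ range (gM κ i), ((Tm i m).card : ℝ)) * r i := by
          have := (hr0 i).le
          gcongr
      _ = ∑ m ∈ range (gM κ i), ((Tm i m).card : ℝ) * r i := by rw [sum_mul]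
      _ ≤ ∑ m ∈ range (gM κ i), 32 * (((2 : ℕ) ^ i : ℕ) : ℝ) ^ (κ / 2 - 4 * κ) := sum_le_sum h2
      _ = (gM κ i : ℝ) * (32 * (((2 : ℕ) ^ i : ℕ) : ℝ) ^ (κ / 2 - 4 * κ)) := by
          rw [sum_const, card_range, nsmul_eq_mul]
      _ ≤ (3 * (((2 : ℕ) ^ i : ℕ) : ℝ) ^ (κ / 4)) * (32 * (((2 : ℕ) ^ i : ℕ) : ℝ) ^ (κ / 2 - 4 * κ)) := by
          have := gM_le hκ.le i
          gcongr
      _ = 96 * ((((2 : ℕ) ^ i : ℕ) : ℝ) ^ (κ / 4) * (((2 : ℕ) ^ i : ℕ) : ℝ) ^ (κ / 2 - 4 * κ)) := by ring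
      _ = _ := by
          rw [← Real.rpow_add hX0]; congr 2; ring
  set A : ℝ := (2 * (9 : ℝ) ^ c / Y) ^ (2 * κ) with hA
  have hA0 : 0 ≤ A := by positivity
  have hinv : ∀ i, (r i)⁻¹ ^ (2 * κ) ≤ A * (((2 : ℕ) ^ i : ℕ) : ℝ) ^ (3 * κ) := by
    intro i
    have hX0 : (0 : ℝ) < (((2 : ℕ) ^ i : ℕ) : ℝ) := by linarith [hX1 i]
    have h1 : (r i)⁻¹ = LL c κ i / Y := by simp only [hr]; rw [inv_div]
    have h2 : (LL c κ i : ℝ) ≤ 2 * ((9 : ℝ) ^ c * (((2 : ℕ) ^ i : ℕ) : ℝ) ^ (1 + κ)) := by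
      have h3 : (1 : ℝ) ≤ (9 : ℝ) ^ c * (((2 : ℕ) ^ i : ℕ) : ℝ) ^ (1 + κ) := by
        have := Real.one_le_rpow (hX1 i) (by linarith : 0 ≤ 1 + κ)
        nlinarith
      have h4 := (Nat.ceil_lt_add_one (a := (9 : ℝ) ^ c * (((2 : ℕ) ^ i : ℕ) : ℝ) ^ (1 + κ)) (by positivity)).le
      have h5 : ((⌈(9 : ℝ) ^ c * (((2 : ℕ) ^ i : ℕ) : ℝ) ^ (1 + κ)⌉₊ : ℕ) : ℝ) = LL c κ i := rfl
      rw [h5] at h4
      linarith
    have h6 : (r i)⁻¹ ≤ (2 * (9 : ℝ) ^ c / Y) * (((2 : ℕ) ^ i : ℕ) : ℝ) ^ (1 + κ) := by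
      rw [h1]
      calc (LL c κ i : ℝ) / Y ≤ (2 * ((9 : ℝ) ^ c * (((2 : ℕ) ^ i : ℕ) : ℝ) ^ (1 + κ))) / Y := by gcongr
        _ = _ := by ring
    have h7 : 0 < (r i)⁻¹ := inv_pos.mpr (hr0 i)
    calc (r i)⁻¹ ^ (2 * κ) ≤ ((2 * (9 : ℝ) ^ c / Y) * (((2 : ℕ) ^ i : ℕ) : ℝ) ^ (1 + κ)) ^ (2 * κ) :=
          Real.rpow_le_rpow h7.le h6 (by positivity)
      _ = A * (((2 : ℕ) ^ i : ℕ) : ℝ) ^ ((1 + κ) * (2 * κ)) := by
          rw [Real.mul_rpow (by positivity) (by positivity), ← Real.rpow_mul hX0.le]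
      _ ≤ A * (((2 : ℕ) ^ i : ℕ) : ℝ) ^ (3 * κ) := by
          apply mul_le_mul_of_nonneg_left _ hA0
          apply Real.rpow_le_rpow_of_exponent_le (hX1 i)
          nlinarith
  have hterm : ∀ i, ((T i).card : ℝ) * (r i) ^ (1 - 2 * κ) ≤ (96 * A) * ((2 : ℝ) ^ (-(κ / 4))) ^ i := by
    intro i
    have hX0 : (0 : ℝ) < (((2 : ℕ) ^ i : ℕ) : ℝ) := by linarith [hX1 i]
    rcases lt_or_ge i i0 with h | h
    · have e1 : T i = ∅ := by simp only [hT]; rw [if_pos h]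
      rw [e1]
      simp only [card_empty, Nat.cast_zero, zero_mul]
      positivity
    · have e2 : (r i) ^ (1 - 2 * κ) = r i * (r i)⁻¹ ^ (2 * κ) := by
        rw [Real.inv_rpow (hr0 i).le, ← Real.rpow_neg (hr0 i).le]
        conv_rhs => rw [← Real.rpow_one (r i), Real.rpow_one (r i)]
        rw [sub_eq_add_neg, Real.rpow_add (hr0 i), Real.rpow_one]
      have e3 : ((2 : ℝ) ^ (-(κ / 4))) ^ i = (((2 : ℕ) ^ i : ℕ) : ℝ) ^ (-(κ / 4)) := by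
        rw [← Real.rpow_natCast, ← Real.rpow_mul (by norm_num)]
        push_cast
        rw [← Real.rpow_natCast, ← Real.rpow_mul (by norm_num)]
        congr 1; ring
      rw [e2, e3, ← mul_assoc]
      have h1 := hcard i h
      have h2 := hinv i
      have h3 : 0 ≤ (r i)⁻¹ ^ (2 * κ) := by
        have := (inv_pos.mpr (hr0 i)).le
        positivity
      calc ((T i).card : ℝ) * r i * (r i)⁻¹ ^ (2 * κ) ≤
            (96 * (((2 : ℕ) ^ i : ℕ) : ℝ) ^ (-(13 * κ / 4))) * (A * (((2 : ℕ) ^ i : ℕ) : ℝ) ^ (3 * κ)) := by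
            gcongr
        _ = (96 * A) * ((((2 : ℕ) ^ i : ℕ) : ℝ) ^ (-(13 * κ / 4)) * (((2 : ℕ) ^ i : ℕ) : ℝ) ^ (3 * κ)) := by ring
        _ = _ := by
          rw [← Real.rpow_add hX0]; congr 2; ring
  have hq1 : (2 : ℝ) ^ (-(κ / 4)) < 1 := Real.rpow_lt_one_of_one_lt_of_neg (by norm_num) (by linarith)
  have hq0 : (0 : ℝ) ≤ (2 : ℝ) ^ (-(κ / 4)) := by positivity
  have hsum : Summable (fun i => ((T i).card : ℝ) * (r i) ^ (sn : ℝ)) := by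
    rw [hsn']
    refine Summable.of_nonneg_of_le ?_ hterm ((summable_geometric_of_lt_one hq0 hq1).mul_left _)
    intro i
    have := (hr0 i).le
    positivity
  have hmain : ∀ α ∈ EY c κ β Y S, ∃ᶠ i in atTop, ∃ q ∈ T i, α ∈ Set.Icc q (q + r i) := by
    rintro α ⟨hαY, hα⟩
    rw [not_eventually] at hα
    refine (hα.and_eventually (eventually_ge_atTop i0)).mono ?_
    rintro i ⟨hi, hii⟩
    push Not at hi
    obtain ⟨m, hm, hbad⟩ := hi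
    obtain ⟨q, hqL, hq⟩ := cell_exists hY (LL_pos c κ i) hαY
    have hb : badcell c κ β Y S i m q := by
      refine ⟨α, hq, hαY, ?_⟩
      unfold dv
      rw [one_mul, cnt_eq hc hY Nat.one_le_two_pow (hi0 i hii).1 (PG_sub κ S i m) hβ0 hβ1 hαY]
      exact hbad
    refine ⟨Y + (q : ℝ) * r i, ?_, ?_⟩
    · simp only [hT]
      rw [if_neg (by omega), mem_biUnion]
      refine ⟨m, mem_range.mpr hm, mem_image.mpr ⟨q, ?_, rfl⟩⟩
      simp only [hTm, mem_filter, mem_range]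
      exact ⟨hqL, hb⟩
    · have e : Y + (q : ℝ) * r i + r i = Y + ((q : ℝ) + 1) * (Y / LL c κ i) := by
        simp only [hr]; ring
      rw [e]
      exact hq
  have := dimH_limsup_le hs0' (fun i => (hr0 i).le) hanti htend T hsum hmain
  rw [hsn] at this
  exact this

/-- **Metric theorem for `⌊α (n + β) ^ c⌋`**, arbitrary sets, power saving, exceptional set of Hausdorff
dimension less than one. -/
theorem dim_asymp (c : ℝ) (hc : 1 ≤ c) : ∃ κ : ℝ, 0 < κ ∧ κ < 1 ∧ ∀ β : ℝ, 0 ≤ β → β ≤ 1 → ∀ S : Set ℕ,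
    ∃ E : Set ℝ, dimH E ≤ ENNReal.ofReal (1 - κ) ∧ ∀ α : ℝ, 0 < α → α ∉ E → ∃ C : ℝ, ∀ Z : ℕ, 1 ≤ Z →
      |cS c β α (↑(PS S 0 Z) : Set ℕ) - MT c (PS S 0 Z) α| ≤ C * (Z : ℝ) ^ (1 / c - κ) := by
  obtain ⟨κ₁, hκ₁, hκ₁1, hG₁⟩ := G2 c hc
  have hc0 : 0 < c := by linarith
  have h64 : 1 / (64 * c) ≤ 1 / 64 := by
    apply one_div_le_one_div_of_le (by norm_num); linarith
  obtain ⟨κ, hκd⟩ : ∃ κ : ℝ, κ = κ₁ / 4 := ⟨_, rfl⟩
  have hκ : 0 < κ := by rw [hκd]; positivity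
  have hκ1 : κ ≤ 1 / (64 * c) := by linarith
  have hκ4 : κ ≤ 1 / 4 := by linarith
  have hG : G2F c (4 * κ) := by
    have e : 4 * κ = κ₁ := by rw [hκd]; ring
    rw [e]
    exact hG₁
  refine ⟨κ / 4, by positivity, by linarith, ?_⟩
  intro β hβ0 hβ1 S
  have hθ : 0 < 1 / c - κ / 4 := by
    have : 1 / (64 * c) < 1 / c := by
      apply one_div_lt_one_div_of_lt hc0; linarith
    linarith
  refine ⟨⋃ j : ℤ, EY c κ β ((2 : ℝ) ^ j) S, ?_, ?_⟩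
  · rw [dimH_iUnion]
    apply iSup_le
    intro j
    refine (dim_EY hc hκ hκ4 (by positivity) hβ0 hβ1 hG S).trans ?_
    apply ENNReal.ofReal_le_ofReal
    linarith
  · intro α hα0 hαE
    obtain ⟨j, hj⟩ := exists_mem_Ico_zpow (x := α) (y := (2 : ℝ)) hα0 (by norm_num)
    have hmem : α ∈ Set.Icc ((2 : ℝ) ^ j) (2 * (2 : ℝ) ^ j) := by
      refine ⟨hj.1, ?_⟩
      have := hj.2.le
      rwa [zpow_add₀ (by norm_num), zpow_one, mul_comm] at this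
    have hev : ∀ᶠ i : ℕ in atTop, ∀ m < gM κ i, |cS c β α (↑(PG κ S i m) : Set ℕ) - MT c (PG κ S i m) α| ≤
        (((2 : ℕ) ^ i : ℕ) : ℝ) ^ (1 / c - κ / 2) := by
      by_contra hcon
      exact hαE (Set.mem_iUnion.mpr ⟨j, hmem, hcon⟩)
    obtain ⟨i0, hi0⟩ := hev.exists_forall_of_atTop
    refine final_det (f := fun Z => |cS c β α (↑(PS S 0 Z) : Set ℕ) - MT c (PS S 0 Z) α|) hθ
      (C1 := 1 + 4 * ((2 : ℝ) ^ j) ^ (-(1 / c))) (by positivity) i0 ?_ (fun Z => abs_nonneg _)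
    intro i hi Z hZ1 hZ2
    have h2 := dyadic_all hc hκ hκ1 (by positivity) hβ0 hmem (hi0 i hi) hZ1 hZ2
    have e1 : PS S 0 Z = PS S 0 (2 ^ i) ∪ PS S (2 ^ i) Z := PS_union (Nat.zero_le _) hZ1.le
    rw [e1, cS_union hc hβ0 hα0 PS_disj, MT_union PS_disj]
    have e2 : cS c β α (↑(PS S 0 (2 ^ i)) : Set ℕ) + cS c β α (↑(PS S (2 ^ i) Z) : Set ℕ) -
        (MT c (PS S 0 (2 ^ i)) α + MT c (PS S (2 ^ i) Z) α) =
        (cS c β α (↑(PS S 0 (2 ^ i)) : Set ℕ) - MT c (PS S 0 (2 ^ i)) α) +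
        (cS c β α (↑(PS S (2 ^ i) Z) : Set ℕ) - MT c (PS S (2 ^ i) Z) α) := by ring
    rw [e2]
    exact (abs_add_le _ _).trans (by linarith)

end Pool.Agent.H717R2.MQ
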