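import Pool.Agent.H717R2.MQ.Dim2

open Finset MeasureTheory Filter Topology
open scoped ENNReal NNReal

namespace Pool.Agent.H717R2.MQ

/-- finite-level version, uniform in the target set -/
theorem finite_level (c : ℝ) (hc : 1 ≤ c) : ∃ κ : ℝ, 0 < κ ∧ ∀ Y : ℝ, 0 < Y → ∃ X₀ : ℕ, ∀ X : ℕ, X₀ ≤ X →
    ∀ P : Finset ℕ, P ⊆ Ioc X (2 * X) → ∀ β : ℝ, 0 ≤ β → β ≤ 1 →
      volume {α : ℝ | α ∈ Set.Icc Y (2 * Y) ∧
        (X : ℝ) ^ (1 / c - κ) < |cS c β α (↑P : Set ℕ) - MT c P α|} ≤ ENNReal.ofReal ((X : ℝ) ^ (-κ)) := by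
  obtain ⟨κ, hκ, hκ1, hG⟩ := G2 c hc
  have hc0 : 0 < c := by linarith
  refine ⟨κ / 2, by positivity, ?_⟩
  intro Y hY
  obtain ⟨X₀, hX₀3, hX₀⟩ := hG Y hY
  have evR : ∀ᶠ X : ℕ in atTop, 32 ≤ ((X : ℝ) / Y) ^ (1 / c) := by
    have t2 : Tendsto (fun X : ℕ => (X : ℝ) / Y) atTop atTop := tendsto_natCast_atTop_atTop.atTop_div_const hY
    exact ((tendsto_rpow_atTop (by positivity : 0 < 1 / c)).comp t2).eventually_ge_atTop 32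
  obtain ⟨X₁, hX₁⟩ := evR.exists_forall_of_atTop
  refine ⟨max X₀ X₁, ?_⟩
  intro X hX P hP β hβ0 hβ1
  have hXX₀ : X₀ ≤ X := (le_max_left _ _).trans hX
  have hXX₁ : X₁ ≤ X := (le_max_right _ _).trans hX
  have hX1 : 1 ≤ X := by omega
  have hXr : (1 : ℝ) ≤ X := by exact_mod_cast hX1
  have hX0 : (0 : ℝ) < X := by linarith
  have h1 := hX₀ X hXX₀ P hP 1 β 1 (Real.rpow_le_one_of_one_le_of_nonpos hXr (by linarith)) (by norm_num) hβ0 hβ1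
    (Or.inr rfl)
  rw [one_mul] at h1
  have hD : 0 < (X : ℝ) ^ (1 / c - κ / 2) := Real.rpow_pos_of_pos hX0 _
  have h2 := markov' hc0 hY P (Ico (NN c Y X) (64 * NN c Y X)) β 1 1 hD h1
  have e1 : (X : ℝ) ^ (1 / c - κ) / (X : ℝ) ^ (1 / c - κ / 2) = (X : ℝ) ^ (-(κ / 2)) := by
    rw [← Real.rpow_sub hX0]; congr 1; ring
  rw [e1] at h2
  have hsub : {α : ℝ | α ∈ Set.Icc Y (2 * Y) ∧
        (X : ℝ) ^ (1 / c - κ / 2) < |cS c β α (↑P : Set ℕ) - MT c P α|} ⊆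
      {y | (X : ℝ) ^ (1 / c - κ / 2) ≤ dv c P (Ico (NN c Y X) (64 * NN c Y X)) β 1 1 y} ∩ Set.Icc Y (2 * Y) := by
    rintro α ⟨hα, hbad⟩
    refine ⟨?_, hα⟩
    show (X : ℝ) ^ (1 / c - κ / 2) ≤ dv c P (Ico (NN c Y X) (64 * NN c Y X)) β 1 1 α
    unfold dv
    rw [one_mul, cnt_eq hc hY hX1 (hX₁ X hXX₁) hP hβ0 hβ1 hα]
    exact hbad.le
  exact (measure_mono hsub).trans ((Measure.le_restrict_apply _ _).trans h2)

end Pool.Agent.H717R2.MQ
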