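import Pool.Agent.H717R2.MQ.Stubs

open Finset MeasureTheory Filter Topology

namespace Pool.Agent.H717R2.MQ

lemma MT_lower {c α z : ℝ} (hc : 1 ≤ c) (hα : 0 < α) {S : Set ℕ} {Z : ℕ} (hz : 0 < z) (hZ : (Z : ℝ) ≤ z) :
    ((PS S 0 Z).card : ℝ) * ((1 / c) * α ^ (-(1 / c)) * z ^ (1 / c - 1)) ≤ MT c (PS S 0 Z) α := by
  classical
  have hc0 : 0 < c := by linarith
  have h1c : 1 / c - 1 ≤ 0 := by
    have : 1 / c ≤ 1 := by rw [div_le_one hc0]; exact hc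
    linarith
  unfold MT
  rw [← nsmul_eq_mul, ← sum_const]
  apply sum_le_sum
  intro m hm
  unfold PS at hm
  rw [mem_filter, mem_Ioc] at hm
  have hm1 : (1 : ℝ) ≤ m := by
    have : 1 ≤ m := by omega
    exact_mod_cast this
  have hmz : (m : ℝ) ≤ z := by
    have : (m : ℝ) ≤ Z := by exact_mod_cast hm.1.2
    linarith
  have hm0 : (0 : ℝ) < m := by linarith
  have e1 : (1 / (c * (m : ℝ))) * ((m : ℝ) / α) ^ (1 / c) = (1 / c) * α ^ (-(1 / c)) * (m : ℝ) ^ (1 / c - 1) := by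
    rw [Real.div_rpow hm0.le hα.le, Real.rpow_neg hα.le, Real.rpow_sub hm0, Real.rpow_one]
    field_simp
  rw [e1]
  have h2 : z ^ (1 / c - 1) ≤ (m : ℝ) ^ (1 / c - 1) := Real.rpow_le_rpow_of_nonpos hm0 hmz h1c
  gcongr

theorem count_lower {c α κ : ℝ} (hc : 1 ≤ c) (hα : 0 < α) (hκ : 0 < κ) {S : Set ℕ}
    (hA : Asym c 0 α S (1 / c - κ))
    (hS : ∀ ε : ℝ, 0 < ε → ∀ᶠ x : ℝ in atTop, x ^ (1 - ε) ≤ ((PS S 0 ⌊x⌋₊).card : ℝ)) (ε : ℝ) (hε : 0 < ε) :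
    ∀ᶠ N : ℕ in atTop, (N : ℝ) ^ (1 - ε) ≤
      ({n : ℕ | 1 ≤ n ∧ n ≤ N ∧ ⌊α * (n : ℝ) ^ c⌋₊ ∈ S}.ncard : ℝ) := by
  classical
  have hc0 : 0 < c := by linarith
  obtain ⟨κ', hκ'd⟩ : ∃ κ' : ℝ, κ' = min κ (1 / c) := ⟨_, rfl⟩
  have hκ' : 0 < κ' := by rw [hκ'd]; exact lt_min hκ (by positivity)
  have hκ'1 : κ' ≤ κ := by rw [hκ'd]; exact min_le_left _ _
  have hκ'2 : κ' ≤ 1 / c := by rw [hκ'd]; exact min_le_right _ _
  obtain ⟨η, hηd⟩ : ∃ η : ℝ, η = min (κ' / 2) (ε / (2 * c)) := ⟨_, rfl⟩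
  have hη : 0 < η := by rw [hηd]; exact lt_min (by positivity) (by positivity)
  have hη1 : η ≤ κ' / 2 := by rw [hηd]; exact min_le_left _ _
  have hη2 : c * η ≤ ε / 2 := by
    have h1 : η ≤ ε / (2 * c) := by rw [hηd]; exact min_le_right _ _
    calc c * η ≤ c * (ε / (2 * c)) := by gcongr
      _ = ε / 2 := by field_simp
  obtain ⟨C, hC⟩ := hA
  set z : ℕ → ℝ := fun N => α * (N : ℝ) ^ c / 2 with hz
  have tz : Tendsto z atTop atTop := by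
    simp only [hz]
    have h1 : Tendsto (fun N : ℕ => (N : ℝ) ^ c) atTop atTop :=
      (tendsto_rpow_atTop hc0).comp tendsto_natCast_atTop_atTop
    exact (h1.const_mul_atTop hα).atTop_div_const (by norm_num)
  set c1 : ℝ := (1 / c) * α ^ (-(1 / c)) with hc1
  have hc10 : 0 < c1 := by
    have := Real.rpow_pos_of_pos hα (-(1 / c))
    rw [hc1]; positivity
  set A : ℝ := (α / 2) ^ (1 / c - η) with hAd
  have hA0 : 0 < A := Real.rpow_pos_of_pos (by positivity) _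
  have ev1 : ∀ᶠ N : ℕ in atTop, (z N) ^ (1 - η) ≤ ((PS S 0 ⌊z N⌋₊).card : ℝ) := tz.eventually (hS η hη)
  have ev2 : ∀ᶠ N : ℕ in atTop, 1 ≤ z N := tz.eventually_ge_atTop 1
  have ev3 : ∀ᶠ N : ℕ in atTop, 2 * |C| / c1 ≤ (z N) ^ (κ' - η) :=
    ((tendsto_rpow_atTop (by linarith : 0 < κ' - η)).comp tz).eventually_ge_atTop _
  have ev4 : ∀ᶠ N : ℕ in atTop, 2 / (c1 * A) ≤ (N : ℝ) ^ (ε - c * η) :=
    ((tendsto_rpow_atTop (by linarith : 0 < ε - c * η)).comp tendsto_natCast_atTop_atTop).eventually_ge_atTop _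
  filter_upwards [ev1, ev2, ev3, ev4, eventually_ge_atTop 1] with N h1 h2 h3 h4 hN1
  have hN0 : (0 : ℝ) < N := by exact_mod_cast hN1
  have hz0 : 0 < z N := by linarith
  have hZ1 : 1 ≤ ⌊z N⌋₊ := by rw [Nat.one_le_floor_iff]; exact h2
  have hZz : ((⌊z N⌋₊ : ℕ) : ℝ) ≤ z N := Nat.floor_le hz0.le
  have hZr : (1 : ℝ) ≤ ((⌊z N⌋₊ : ℕ) : ℝ) := by exact_mod_cast hZ1
  have h5 := MT_lower hc hα (S := S) hz0 hZz
  have h6 : c1 * (z N) ^ (1 / c - η) ≤ MT c (PS S 0 ⌊z N⌋₊) α := by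
    refine le_trans ?_ h5
    have e1 : c1 * (z N) ^ (1 / c - η) = (z N) ^ (1 - η) * (c1 * (z N) ^ (1 / c - 1)) := by
      have e2 : (z N) ^ (1 / c - η) = (z N) ^ (1 - η) * (z N) ^ (1 / c - 1) := by
        rw [← Real.rpow_add hz0]; congr 1; ring
      rw [e2]; ring
    rw [e1]
    have : 0 ≤ (z N) ^ (1 / c - 1) := by positivity
    gcongr
  have h7 := hC _ hZ1
  have h8 : C * ((⌊z N⌋₊ : ℕ) : ℝ) ^ (1 / c - κ) ≤ |C| * (z N) ^ (1 / c - κ') := by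
    have a1 : ((⌊z N⌋₊ : ℕ) : ℝ) ^ (1 / c - κ) ≤ ((⌊z N⌋₊ : ℕ) : ℝ) ^ (1 / c - κ') :=
      Real.rpow_le_rpow_of_exponent_le hZr (by linarith)
    have a2 : ((⌊z N⌋₊ : ℕ) : ℝ) ^ (1 / c - κ') ≤ (z N) ^ (1 / c - κ') :=
      Real.rpow_le_rpow (by positivity) hZz (by linarith)
    have a3 : 0 ≤ ((⌊z N⌋₊ : ℕ) : ℝ) ^ (1 / c - κ) := by positivity
    calc C * ((⌊z N⌋₊ : ℕ) : ℝ) ^ (1 / c - κ) ≤ |C| * ((⌊z N⌋₊ : ℕ) : ℝ) ^ (1 / c - κ) := by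
          gcongr; exact le_abs_self C
      _ ≤ |C| * (z N) ^ (1 / c - κ') := by
          have := abs_nonneg C
          gcongr
          exact a1.trans a2
  have h9 : |C| * (z N) ^ (1 / c - κ') ≤ (c1 / 2) * (z N) ^ (1 / c - η) := by
    have e1 : (z N) ^ (1 / c - η) = (z N) ^ (κ' - η) * (z N) ^ (1 / c - κ') := by
      rw [← Real.rpow_add hz0]; congr 1; ring
    rw [e1]
    have b1 : |C| ≤ (c1 / 2) * (z N) ^ (κ' - η) := by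
      rw [div_le_iff₀ hc10] at h3
      linarith
    have b2 : 0 ≤ (z N) ^ (1 / c - κ') := by positivity
    calc |C| * (z N) ^ (1 / c - κ') ≤ ((c1 / 2) * (z N) ^ (κ' - η)) * (z N) ^ (1 / c - κ') := by gcongr
      _ = _ := by ring
  have h10 : (N : ℝ) ^ (1 - ε) ≤ (c1 / 2) * (z N) ^ (1 / c - η) := by
    have e1 : (z N) ^ (1 / c - η) = A * (N : ℝ) ^ (1 - c * η) := by
      have e2 : z N = (α / 2) * (N : ℝ) ^ c := by simp only [hz]; ring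
      rw [e2, Real.mul_rpow (by positivity) (by positivity), ← Real.rpow_mul hN0.le]
      congr 2
      field_simp
    have e3 : (N : ℝ) ^ (1 - c * η) = (N : ℝ) ^ (ε - c * η) * (N : ℝ) ^ (1 - ε) := by
      rw [← Real.rpow_add hN0]; congr 1; ring
    rw [e1, e3]
    have b1 : 1 ≤ (c1 / 2) * A * (N : ℝ) ^ (ε - c * η) := by
      rw [div_le_iff₀ (by positivity)] at h4
      linarith
    have b2 : 0 ≤ (N : ℝ) ^ (1 - ε) := by positivity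
    calc (N : ℝ) ^ (1 - ε) = 1 * (N : ℝ) ^ (1 - ε) := (one_mul _).symm
      _ ≤ ((c1 / 2) * A * (N : ℝ) ^ (ε - c * η)) * (N : ℝ) ^ (1 - ε) := by gcongr
      _ = _ := by ring
  have h11 : (N : ℝ) ^ (1 - ε) ≤ cS c 0 α (↑(PS S 0 ⌊z N⌋₊) : Set ℕ) := by
    rw [abs_le] at h7
    linarith [h7.1]
  refine h11.trans ?_
  unfold cS
  have hfin : {n : ℕ | 1 ≤ n ∧ n ≤ N ∧ ⌊α * (n : ℝ) ^ c⌋₊ ∈ S}.Finite :=
    (Set.finite_Iic N).subset fun n hn => hn.2.1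
  have hsub : {n : ℕ | 1 ≤ n ∧ fl c 0 α n ∈ (↑(PS S 0 ⌊z N⌋₊) : Set ℕ)} ⊆
      {n : ℕ | 1 ≤ n ∧ n ≤ N ∧ ⌊α * (n : ℝ) ^ c⌋₊ ∈ S} := by
    rintro n ⟨hn1, hn⟩
    have efl : fl c 0 α n = ⌊α * (n : ℝ) ^ c⌋₊ := by unfold fl; rw [add_zero]
    rw [efl] at hn
    unfold PS at hn
    rw [mem_coe, mem_filter, mem_Ioc] at hn
    refine ⟨hn1, ?_, hn.2⟩
    by_contra hcon
    push Not at hcon
    have b1 : (N : ℝ) ^ c ≤ (n : ℝ) ^ c := by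
      apply Real.rpow_le_rpow hN0.le _ hc0.le
      exact_mod_cast hcon.le
    have b2 := Nat.lt_floor_add_one (α * (n : ℝ) ^ c)
    have b3 : ((⌊α * (n : ℝ) ^ c⌋₊ : ℕ) : ℝ) ≤ ((⌊z N⌋₊ : ℕ) : ℝ) := by exact_mod_cast hn.1.2
    have b4 : α * (N : ℝ) ^ c ≤ α * (n : ℝ) ^ c := by gcongr
    have b5 : z N = α * (N : ℝ) ^ c / 2 := rfl
    linarith
  have := Set.ncard_le_ncard hsub hfin
  exact_mod_cast this

end Pool.Agent.H717R2.MQ
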