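import Pool.Agent.H717R2.MQ.Piece

open Finset MeasureTheory Filter

namespace Pool.Agent.H717R2.MQ

open Pool.Agent.H469R2.NK (e norm_e)
open Pool.Agent.H438R2.DL (Fw AD core W_bound change AD_measurable AD_bounded AD_L2 triv_L2 Pk jf jf_spec'
  card_split' card_P_le)

lemma cnt_split' (c : ℝ) {P : Finset ℕ} {X J : ℕ} (hX : 0 < X) (hJ : 0 < J) (hP : P ⊆ Ioc X (2 * X))
    (K : Finset ℕ) (β σ H y : ℝ) :
    cnt c P K β σ H y = ∑ j ∈ range J, cnt c (Pk P X J j) K β σ H y := by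
  unfold cnt
  rw [sum_comm]
  refine sum_congr rfl fun k _ => ?_
  rw [card_eq_sum_card_fiberwise (f := jf X J) (t := range J) (fun p hp => by
    rw [mem_coe, mem_filter] at hp
    exact mem_coe.mpr (mem_range.mpr (jf_spec' hX hJ (hP hp.1)).1))]
  push_cast
  refine sum_congr rfl fun j _ => ?_
  congr 2
  unfold Pk
  rw [filter_filter, filter_filter]
  apply filter_congr
  intro p _
  tauto

lemma MT_split' (c : ℝ) {P : Finset ℕ} {X J : ℕ} (hX : 0 < X) (hJ : 0 < J) (hP : P ⊆ Ioc X (2 * X)) (y : ℝ) :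
    MT c P y = ∑ j ∈ range J, MT c (Pk P X J j) y := by
  unfold MT Pk
  rw [sum_fiberwise_of_maps_to]
  intro p hp
  exact mem_range.mpr (jf_spec' hX hJ (hP hp)).1

lemma cnt_measurable (c : ℝ) (P K : Finset ℕ) (β σ H : ℝ) : Measurable (cnt c P K β σ H) := by
  unfold cnt
  refine Finset.measurable_sum _ fun k _ => ?_
  simp only [card_filter]
  push_cast
  refine Finset.measurable_sum _ fun p _ => ?_
  have h1 : Measurable (fun y : ℝ => ((k : ℝ) + β) ^ c * y - σ * H) := by fun_prop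
  have h2 : Measurable (fun y : ℝ => ((k : ℝ) + β) ^ c * y + (1 - σ) * H) := by fun_prop
  exact Measurable.ite ((measurableSet_lt h1 measurable_const).inter (measurableSet_le measurable_const h2))
    measurable_const measurable_const

lemma cnt_nonneg (c : ℝ) (P K : Finset ℕ) (β σ H y : ℝ) : 0 ≤ cnt c P K β σ H y := by
  unfold cnt; positivity

lemma cnt_le (c : ℝ) (P K : Finset ℕ) (β σ H y : ℝ) : cnt c P K β σ H y ≤ K.card * P.card := by
  unfold cnt
  rw [← nsmul_eq_mul, ← sum_const]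
  refine sum_le_sum fun k _ => ?_
  exact_mod_cast card_filter_le _ _

/-- the deviation for an arbitrary set -/
noncomputable def dv (c : ℝ) (P K : Finset ℕ) (β σ H y : ℝ) : ℝ :=
  |cnt c P K β σ H y - H * MT c P y|

lemma MT_measurable (c : ℝ) (P : Finset ℕ) : Measurable (MT c P) := by
  unfold MT
  refine Finset.measurable_sum _ fun p _ => ?_
  fun_prop

lemma dv_measurable (c : ℝ) (P K : Finset ℕ) (β σ H : ℝ) : Measurable (dv c P K β σ H) := by
  unfold dv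
  exact measurable_abs.comp ((cnt_measurable _ _ _ _ _ _).sub ((MT_measurable c P).const_mul _))

lemma dv_nonneg (c : ℝ) (P K : Finset ℕ) (β σ H y : ℝ) : 0 ≤ dv c P K β σ H y := abs_nonneg _

lemma dv_int {c : ℝ} (hc : 0 < c) (P K : Finset ℕ) (β σ H : ℝ) {Y : ℝ} (hY : 0 < Y) :
    IntegrableOn (dv c P K β σ H) (Set.Icc Y (2 * Y)) := by
  refine Measure.integrableOn_of_bounded (M := K.card * P.card + |H| *
    ∑ p ∈ P, |1 / (c * (p : ℝ))| * ((p : ℝ) / Y) ^ (1 / c)) (by simp)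
    (dv_measurable c P K β σ H).aestronglyMeasurable ?_
  rw [ae_restrict_iff' measurableSet_Icc]
  refine Filter.Eventually.of_forall fun y hy => ?_
  have hy0 : 0 < y := hY.trans_le hy.1
  unfold dv
  rw [Real.norm_eq_abs, abs_abs]
  refine (abs_sub _ _).trans ?_
  rw [abs_of_nonneg (cnt_nonneg _ _ _ _ _ _ _), abs_mul]
  have h1 := cnt_le c P K β σ H y
  have h2 : |MT c P y| ≤ ∑ p ∈ P, |1 / (c * (p : ℝ))| * ((p : ℝ) / Y) ^ (1 / c) := by
    unfold MT
    refine (abs_sum_le_sum_abs _ _).trans (sum_le_sum fun p _ => ?_)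
    rw [abs_mul]
    apply mul_le_mul_of_nonneg_left _ (abs_nonneg _)
    rw [abs_of_nonneg (by positivity)]
    apply Real.rpow_le_rpow (by positivity) _ (by positivity)
    apply div_le_div_of_nonneg_left (by positivity) hY hy.1
  gcongr

/-- `L²` bound for the averaged difference over one piece (power saving version) -/
lemma AD_piece2 {c : ℝ} {P : Finset ℕ} {X : ℕ} {N : ℕ} {β σ s ω Ξ0 T CW B η : ℝ}
    (hX : (1 : ℝ) ≤ X) (hT : 16 ≤ T) (hTX : T ^ 8 ≤ X)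
    (hP : (P.card : ℝ) ≤ X) (hσ : σ = 0 ∨ σ = 1)
    (hs1 : 1 / (3 * T * X) ≤ s) (hsω : s ≤ ω) (hω : ω = 1 / T ^ 6) (hΞ0 : Ξ0 = T ^ 3)
    (hη : η = CW / Ξ0) (hCW : 0 < CW) (hB : 0 ≤ B)
    (hK : ((Ico N (64 * N)).card : ℝ) ≤ B)
    (hM1 : ∫ u, (Fw P (fun p : ℕ => Real.log p) s u) ^ 2 ≤ 4 * (X : ℝ) ^ 2 * T)
    (hM2 : ∫ u, (Fw P (fun p : ℕ => Real.log p) ω u) ^ 2 ≤ 4 * (X : ℝ) ^ 2 * T)
    (hW : ∀ ξ : ℝ, Ξ0 ≤ |ξ| → |ξ| ≤ (X : ℝ) ^ 6 →
      ‖∑ k ∈ Ico N (64 * N), e ((c * Real.log ((k : ℝ) + β)) * ξ)‖ ≤ η * (Ico N (64 * N)).card) :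
    ∫ u, (ADl c P (Ico N (64 * N)) β σ s ω u) ^ 2 ≤
      (B * (√(4 * (4 * (6 * Real.pi) ^ 2 + 4 * CW ^ 2) + 18 * Real.pi) * (X / T ^ 2))) ^ 2 := by
  have hT0 : 0 < T := by linarith
  have hT1 : 1 ≤ T := by linarith
  have hX0 : (0 : ℝ) < X := by linarith
  have hs0 : 0 < s := lt_of_lt_of_le (by positivity) hs1
  have hpi := Real.pi_pos
  have hω0 : 0 < ω := by rw [hω]; positivity
  have hΞ00 : 0 < Ξ0 := by rw [hΞ0]; positivity
  have hωΞ : ω * Ξ0 = 1 / T ^ 3 := by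
    rw [hω, hΞ0]
    field_simp
  have h256 : (256 : ℝ) ≤ T ^ 3 := by
    calc (256 : ℝ) ≤ 16 ^ 3 := by norm_num
      _ ≤ T ^ 3 := by gcongr
  have hη0 : 0 ≤ η := by rw [hη]; positivity
  have ho : |-(σ * s)| ≤ ω := by
    rw [abs_neg]
    rcases hσ with rfl | rfl
    · simp; exact hω0.le
    · rw [one_mul, abs_of_pos hs0]; exact hsω
  have hcore := core P (fun p : ℕ => Real.log p) (Ico N (64 * N)) (fun k : ℕ => c * Real.log ((k : ℝ) + β))
    (o := -(σ * s)) (τ := s) (ω := ω) (Ξ0 := Ξ0) (Ξ1 := (X : ℝ) ^ 6) (η := η) (M := 4 * (X : ℝ) ^ 2 * T)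
    hs0 hsω ho hΞ00.le (by
      rw [mul_assoc, hωΞ, mul_one_div, div_le_div_iff₀ (by positivity) (by norm_num)]
      have := Real.pi_lt_four
      linarith) (by positivity) hη0 hM1 hM2 hW
  change ∫ u, (ADl c P (Ico N (64 * N)) β σ s ω u) ^ 2 ≤ _ at hcore
  refine hcore.trans ?_
  set Cc : ℝ := 4 * (4 * (6 * Real.pi) ^ 2 + 4 * CW ^ 2) + 18 * Real.pi with hCc
  have hCc0 : 0 ≤ Cc := by rw [hCc]; positivity
  have erhs : (B * (√Cc * (X / T ^ 2))) ^ 2 =
      B ^ 2 * (Cc * (X / T ^ 2) ^ 2) := by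
    rw [mul_pow, mul_pow, Real.sq_sqrt hCc0]
  rw [erhs]
  have hstuff : (4 * (6 * Real.pi * ω * Ξ0) ^ 2 + 4 * η ^ 2) * (4 * (X : ℝ) ^ 2 * T) +
      2 * Real.pi * (P.card : ℝ) ^ 2 / (s ^ 2 * (X : ℝ) ^ 6) ≤ Cc * (X / T ^ 2) ^ 2 := by
    have h1 : (6 * Real.pi * ω * Ξ0) ^ 2 = (6 * Real.pi) ^ 2 * (1 / T ^ 6) := by
      rw [mul_assoc (6 * Real.pi), hωΞ]; field_simp
    have h2 : η ^ 2 = CW ^ 2 * (1 / T ^ 6) := by
      rw [hη, hΞ0]; field_simp
    have h4 : (4 * (6 * Real.pi * ω * Ξ0) ^ 2 + 4 * η ^ 2) * (4 * (X : ℝ) ^ 2 * T) ≤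
        4 * (4 * (6 * Real.pi) ^ 2 + 4 * CW ^ 2) * (X / T ^ 2) ^ 2 := by
      rw [h1, h2]
      have e1 : (4 * ((6 * Real.pi) ^ 2 * (1 / T ^ 6)) + 4 * (CW ^ 2 * (1 / T ^ 6))) * (4 * (X : ℝ) ^ 2 * T) =
          4 * (4 * (6 * Real.pi) ^ 2 + 4 * CW ^ 2) * ((X : ℝ) ^ 2 * (1 / T ^ 5)) := by
        field_simp
      rw [e1]
      apply mul_le_mul_of_nonneg_left _ (by positivity)
      rw [div_pow, div_eq_mul_one_div ((X : ℝ) ^ 2), ← pow_mul]
      apply mul_le_mul_of_nonneg_left _ (by positivity)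
      apply one_div_le_one_div_of_le (by positivity)
      exact pow_le_pow_right₀ hT1 (by norm_num)
    have h5 : 2 * Real.pi * (P.card : ℝ) ^ 2 / (s ^ 2 * (X : ℝ) ^ 6) ≤
        18 * Real.pi * (X / T ^ 2) ^ 2 := by
      have h6 : 2 * Real.pi * (P.card : ℝ) ^ 2 / (s ^ 2 * (X : ℝ) ^ 6) ≤
          2 * Real.pi * (X : ℝ) ^ 2 / ((1 / (3 * T * X)) ^ 2 * (X : ℝ) ^ 6) := by gcongr
      refine h6.trans ?_
      have e2 : 2 * Real.pi * (X : ℝ) ^ 2 / ((1 / (3 * T * X)) ^ 2 * (X : ℝ) ^ 6) =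
          18 * Real.pi * (T ^ 2 / (X : ℝ) ^ 2) := by
        field_simp
        ring
      rw [e2]
      apply mul_le_mul_of_nonneg_left _ (by positivity)
      rw [div_pow, ← pow_mul, div_le_div_iff₀ (by positivity) (by positivity)]
      calc T ^ 2 * T ^ (2 * 2) = T ^ 6 := by ring
        _ ≤ T ^ 8 := pow_le_pow_right₀ hT1 (by norm_num)
        _ ≤ X := hTX
        _ ≤ (X : ℝ) ^ 2 * (X : ℝ) ^ 2 := by
          have : (1 : ℝ) ≤ (X : ℝ) ^ 3 := one_le_pow₀ hX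
          nlinarith
    calc _ ≤ 4 * (4 * (6 * Real.pi) ^ 2 + 4 * CW ^ 2) * (X / T ^ 2) ^ 2 +
          18 * Real.pi * (X / T ^ 2) ^ 2 := add_le_add h4 h5
      _ = _ := by rw [hCc]; ring
  apply mul_le_mul _ hstuff (by positivity) (by positivity)
  gcongr

/-- the range of `k` -/
noncomputable def NN (c Y : ℝ) (X : ℕ) : ℕ := ⌊((X : ℝ) / Y) ^ (1 / c) / 8⌋₊

theorem G2 (c : ℝ) (hc : 1 ≤ c) :
    ∃ κ : ℝ, 0 < κ ∧ κ ≤ 1 / (64 * c) ∧ ∀ Y : ℝ, 0 < Y → ∃ X₀ : ℕ, 3 ≤ X₀ ∧ ∀ X : ℕ, X₀ ≤ X →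
      ∀ P : Finset ℕ, P ⊆ Ioc X (2 * X) →
      ∀ (H β σ : ℝ), (X : ℝ) ^ (-κ) ≤ H → H ≤ 2 → 0 ≤ β → β ≤ 1 → (σ = 0 ∨ σ = 1) →
      ∫ y in Set.Icc Y (2 * Y), dv c P (Ico (NN c Y X) (64 * NN c Y X)) β σ H y ≤
        H * (X : ℝ) ^ (1 / c - κ) := by
  have hc0' : 0 < c := by linarith
  set Q : ℕ := ⌈14 * c⌉₊ + 1 with hQ
  obtain ⟨η', hη'0, hη'1, CW, hCW, hW⟩ := W_bound Q (by omega)
  set c0 : ℝ := η' / (32 * c) with hc0
  have hc00 : 0 < c0 := by rw [hc0]; positivity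
  have hc0δ : c0 ≤ 1 / (32 * c) := by rw [hc0]; gcongr
  have hc032 : c0 ≤ 1 / 32 := hc0δ.trans (by
    apply one_div_le_one_div_of_le (by norm_num); linarith)
  set Cc : ℝ := 4 * (4 * (6 * Real.pi) ^ 2 + 4 * CW ^ 2) + 18 * Real.pi with hCc
  have hpi := Real.pi_pos
  have hCc0 : 0 < Cc := by rw [hCc]; positivity
  refine ⟨c0 / 2, by positivity, by
    have : 1 / (64 * c) = 1 / (32 * c) / 2 := by field_simp; norm_num
    rw [this]; linarith, ?_⟩
  intro Y hY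
  set CY : ℝ := Y ^ (-(1 / c)) with hCY
  have hCY0 : 0 < CY := Real.rpow_pos_of_pos hY _
  set C0 : ℝ := (128 * √Cc + 32) * Y * CY with hC0
  have hC00 : 0 < C0 := by rw [hC0]; positivity
  have ev1 : ∀ᶠ X : ℕ in atTop, 16 ≤ (X : ℝ) ^ c0 :=
    ((tendsto_rpow_atTop hc00).comp tendsto_natCast_atTop_atTop).eventually_ge_atTop 16
  have ev2 : ∀ᶠ X : ℕ in atTop, C0 ≤ (X : ℝ) ^ (c0 / 2) :=
    ((tendsto_rpow_atTop (by positivity)).comp tendsto_natCast_atTop_atTop).eventually_ge_atTop C0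
  have ev3 : ∀ᶠ X : ℕ in atTop, 16 / CY ≤ (X : ℝ) ^ (1 / (2 * c)) :=
    ((tendsto_rpow_atTop (by positivity)).comp tendsto_natCast_atTop_atTop).eventually_ge_atTop _
  have ev4 : ∀ᶠ X : ℕ in atTop, max c 16 ≤ (X : ℝ) :=
    tendsto_natCast_atTop_atTop.eventually_ge_atTop _
  obtain ⟨X₀, hX₀⟩ := (ev1.and (ev2.and (ev3.and ev4))).exists_forall_of_atTop
  refine ⟨max 3 X₀, le_max_left _ _, ?_⟩
  intro X hX P hP H β σ hHl hH2' hβ0 hβ1 hσ
  obtain ⟨hT16, hXC0, hXCY, hXc⟩ := hX₀ X ((le_max_right _ _).trans hX)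
  have hX3 : 3 ≤ X := (le_max_left _ _).trans hX
  have hXc1 : c ≤ X := (le_max_left _ _).trans hXc
  have hX16 : (16 : ℝ) ≤ X := (le_max_right _ _).trans hXc
  have hX0 : (0 : ℝ) < X := by linarith
  have hX1r : (1 : ℝ) ≤ X := by linarith
  set T : ℝ := (X : ℝ) ^ c0 with hTdef
  have hT0 : 0 < T := by linarith
  have hT1 : 1 ≤ T := by linarith
  set R : ℝ := ((X : ℝ) / Y) ^ (1 / c) with hR
  have hR0 : 0 < R := Real.rpow_pos_of_pos (by positivity) _
  have hRX : R = CY * (X : ℝ) ^ (1 / c) := by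
    rw [hR, Real.div_rpow hX0.le hY.le, hCY, Real.rpow_neg hY.le]
    field_simp
  have hXhalf : (X : ℝ) ^ (1 / (2 * c)) * (X : ℝ) ^ (1 / (2 * c)) = (X : ℝ) ^ (1 / c) := by
    rw [← Real.rpow_add hX0]; congr 1; field_simp; norm_num
  set Xh : ℝ := (X : ℝ) ^ (1 / (2 * c)) with hXh
  have hXh0 : 0 < Xh := Real.rpow_pos_of_pos hX0 _
  have hXh1 : 1 ≤ Xh := Real.one_le_rpow hX1r (by positivity)
  have hRbig : 16 * Xh ≤ R := by
    rw [hRX, ← hXhalf]
    rw [div_le_iff₀ hCY0] at hXCY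
    nlinarith
  have hTXh : T ^ 16 ≤ Xh := by
    rw [hTdef, ← Real.rpow_natCast, ← Real.rpow_mul hX0.le, hXh]
    apply Real.rpow_le_rpow_of_exponent_le hX1r
    have : c0 * 16 ≤ 1 / (32 * c) * 16 := by gcongr
    refine (le_of_eq (by norm_num)).trans (this.trans (le_of_eq ?_))
    field_simp; norm_num
  have hXhX : Xh * Xh ≤ X := by
    rw [hXhalf]
    calc (X : ℝ) ^ (1 / c) ≤ (X : ℝ) ^ (1 : ℝ) := Real.rpow_le_rpow_of_exponent_le hX1r (by
          rw [div_le_one hc0']; exact hc)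
      _ = X := Real.rpow_one _
  have hT8X : T ^ 8 ≤ X := (pow_le_pow_right₀ hT1 (by norm_num)).trans (hTXh.trans (by nlinarith))
  have hHT : 1 / T ≤ H := by
    refine le_trans ?_ hHl
    rw [hTdef, one_div, ← Real.rpow_neg hX0.le]
    apply Real.rpow_le_rpow_of_exponent_le hX1r
    linarith
  have hH0 : 0 < H := lt_of_lt_of_le (by positivity) hHT
  have hT16' : (16 : ℝ) ≤ T ^ 16 := by
    calc (16 : ℝ) ≤ T := hT16
      _ = T ^ 1 := (pow_one T).symm
      _ ≤ T ^ 16 := pow_le_pow_right₀ hT1 (by norm_num)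
  have hHX' : H / X ≤ 1 / T ^ 16 := by
    rw [div_le_div_iff₀ hX0 (by positivity)]
    have : T ^ 16 * T ^ 16 ≤ Xh * Xh := by gcongr
    nlinarith
  have hH2 : H ≤ X / 2 := by linarith
  -- N
  set N : ℕ := NN c Y X with hN
  have hNle : (N : ℝ) ≤ R / 8 := Nat.floor_le (by positivity)
  have hNge : R / 16 ≤ N := by
    have h1 := Nat.lt_floor_add_one (R / 8)
    have h2 : ((⌊R / 8⌋₊ : ℕ) : ℝ) = N := rfl
    rw [h2] at h1
    linarith
  have hN1r : (1 : ℝ) ≤ N := by linarith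
  have hN1 : 1 ≤ N := by exact_mod_cast hN1r
  have hN0 : (0 : ℝ) < N := by linarith
  have hNδ : Xh ≤ N := by linarith
  set K := Ico N (64 * N) with hKdef
  have hKcard : (K.card : ℝ) = 63 * N := by
    rw [hKdef, Nat.card_Ico]
    rw [show 64 * N - N = 63 * N by omega]; push_cast; ring
  have hK8 : (K.card : ℝ) ≤ 8 * R := by
    rw [hKcard]; linarith
  -- parameters
  set Ξ0 : ℝ := T ^ 3 with hΞ0
  set ω : ℝ := 1 / T ^ 6 with hω
  set η : ℝ := CW / Ξ0 with hη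
  have hΞ01 : 1 ≤ Ξ0 := one_le_pow₀ hT1
  have hΞ00 : 0 < Ξ0 := by linarith
  have hω0 : 0 < ω := by rw [hω]; positivity
  have hωA : ω ≤ 1 / T := by
    rw [hω]
    apply one_div_le_one_div_of_le hT0
    calc T = T ^ 1 := (pow_one T).symm
      _ ≤ T ^ 6 := pow_le_pow_right₀ hT1 (by norm_num)
  have hω1 : ω ≤ 1 / 16 := hωA.trans (one_div_le_one_div_of_le (by norm_num) hT16)
  have hWb : ∀ ξ : ℝ, Ξ0 ≤ |ξ| → |ξ| ≤ (X : ℝ) ^ 6 →
      ‖∑ k ∈ Ico N (64 * N), e ((c * Real.log ((k : ℝ) + β)) * ξ)‖ ≤ η * (Ico N (64 * N)).card := by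
    intro ξ h1 h2
    have hXQ : (X : ℝ) ^ 7 ≤ (N : ℝ) ^ Q := by
      calc (X : ℝ) ^ 7 = (X : ℝ) ^ (7 : ℝ) := by rw [← Real.rpow_natCast]; norm_num
        _ ≤ (X : ℝ) ^ (1 / (2 * c) * Q) := by
          apply Real.rpow_le_rpow_of_exponent_le hX1r
          have h3 : 14 * c ≤ Q := by
            rw [hQ]; push_cast
            have := Nat.le_ceil (14 * c)
            linarith
          rw [one_div_mul_eq_div, le_div_iff₀ (by positivity)]
          linarith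
        _ = Xh ^ Q := by rw [Real.rpow_mul hX0.le, Real.rpow_natCast]
        _ ≤ (N : ℝ) ^ Q := by gcongr
    have hcξ : |c * ξ| = c * |ξ| := by rw [abs_mul, abs_of_pos hc0']
    have hcξ1 : |ξ| ≤ |c * ξ| := by
      rw [hcξ]; nlinarith [abs_nonneg ξ]
    have hcξ2 : |c * ξ| ≤ (X : ℝ) ^ 7 := by
      rw [hcξ, pow_succ, mul_comm]
      gcongr
    have h3 := hW N β (c * ξ) hN1 hβ0 hβ1 ((hΞ01.trans h1).trans hcξ1) (hcξ2.trans hXQ)
    have e3 : ∑ k ∈ Ico N (64 * N), e ((c * Real.log ((k : ℝ) + β)) * ξ) =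
        ∑ k ∈ Ico N (64 * N), e (Real.log ((k : ℝ) + β) * (c * ξ)) := by
      refine sum_congr rfl fun k _ => ?_
      congr 1; ring
    rw [e3]
    refine h3.trans ?_
    have h4 : 1 / |c * ξ| ≤ 1 / Ξ0 := one_div_le_one_div_of_le hΞ00 (h1.trans hcξ1)
    have h5 : (N : ℝ) ^ (-η') ≤ 1 / Ξ0 := by
      rw [Real.rpow_neg hN0.le, ← one_div]
      apply one_div_le_one_div_of_le hΞ00
      calc Ξ0 = T ^ 3 := hΞ0
        _ ≤ T ^ 16 := pow_le_pow_right₀ hT1 (by norm_num)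
        _ = Xh ^ η' := by
          rw [hTdef, hXh, ← Real.rpow_natCast, ← Real.rpow_mul hX0.le, ← Real.rpow_mul hX0.le]
          congr 1
          rw [hc0]; push_cast; field_simp; norm_num
        _ ≤ (N : ℝ) ^ η' := by gcongr
    have h6 : ((Ico N (64 * N)).card : ℝ) = 63 * N := hKcard
    rw [h6]
    calc CW * N * (1 / |c * ξ| + (N : ℝ) ^ (-η')) ≤ CW * N * (1 / Ξ0 + 1 / Ξ0) := by gcongr
      _ = 2 * (CW / Ξ0) * N := by ring
      _ ≤ 63 * (CW / Ξ0) * N := by gcongr; norm_num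
      _ = η * (63 * N) := by rw [hη]; ring
  -- J
  set J : ℕ := ⌈T⌉₊ with hJ
  have hJge : T ≤ J := Nat.le_ceil _
  have hJle : (J : ℝ) ≤ 2 * T := by
    have := (Nat.ceil_lt_add_one (a := T) (by positivity)).le
    rw [← hJ] at this
    linarith
  have hJ0r : (0 : ℝ) < J := by linarith
  have hJ0 : 0 < J := by exact_mod_cast hJ0r
  have hXpos : 0 < X := by omega
  -- small quantities
  have h2HX : 2 * H / X ≤ ω := by
    rw [hω, mul_div_assoc]
    calc 2 * (H / X) ≤ 2 * (1 / T ^ 16) := by gcongr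
      _ ≤ 1 / T ^ 6 := by
        rw [mul_one_div, div_le_div_iff₀ (by positivity) (by positivity)]
        calc 2 * T ^ 6 ≤ T * T ^ 6 := by gcongr; linarith
          _ = T ^ 7 := by ring
          _ ≤ 1 * T ^ 16 := by rw [one_mul]; exact pow_le_pow_right₀ hT1 (by norm_num)
  have hs_lower : ∀ D : ℝ, 0 < D → D ≤ 3 * X → 1 / (3 * T * X) ≤ H / D := by
    intro D hD hDX
    calc 1 / (3 * T * X) = (1 / T) / (3 * X) := by field_simp
      _ ≤ H / (3 * X) := by gcongr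
      _ ≤ H / D := by gcongr
  have hMb : ∀ s : ℝ, 1 / (3 * T * X) ≤ s → ∀ P' : Finset ℕ, P' ⊆ P →
      ∫ u, (Fw P' (fun p : ℕ => Real.log p) s u) ^ 2 ≤ 4 * (X : ℝ) ^ 2 * T := by
    intro s hs1 P' hP'
    have hs0 : 0 < s := lt_of_lt_of_le (by positivity) hs1
    refine (triv_L2 hXpos (hP'.trans hP) hs0).trans ?_
    have h1 : (P'.card : ℝ) ≤ X := card_P_le (hP'.trans hP)
    have h2 : 1 / s ≤ 3 * T * X := by
      rw [div_le_iff₀ hs0]
      rw [div_le_iff₀ (by positivity)] at hs1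
      linarith
    calc (P'.card : ℝ) * (4 * X + 1 / s) ≤ X * (4 * X + 3 * T * X) := by gcongr
      _ = (X : ℝ) ^ 2 * (4 + 3 * T) := by ring
      _ ≤ (X : ℝ) ^ 2 * (4 * T) := by gcongr; linarith
      _ = _ := by ring
  have hωlow : 1 / (3 * T * X) ≤ ω := by
    rw [hω]
    apply one_div_le_one_div_of_le (by positivity)
    calc T ^ 6 ≤ T ^ 8 := pow_le_pow_right₀ hT1 (by norm_num)
      _ ≤ X := hT8X
      _ ≤ 3 * T * X := by nlinarith
  set S : ℝ := √Cc * (X / T ^ 2) with hS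
  have hS0 : 0 < S := by rw [hS]; positivity
  -- the L1 bound for each piece and admissible s
  have hL1b : ∀ P' : Finset ℕ, P' ⊆ P → ∀ s : ℝ, 1 / (3 * T * X) ≤ s → s ≤ ω →
      IntegrableOn (fun y => |ADl c P' K β σ s ω (Real.log y)|) (Set.Icc Y (2 * Y)) ∧
      ∫ y in Set.Icc Y (2 * Y), |ADl c P' K β σ s ω (Real.log y)| ≤ 16 * Y * R * S := by
    intro P' hP' s hs1 hs2
    have hs0 : 0 < s := lt_of_lt_of_le (by positivity) hs1
    have hPX : (P'.card : ℝ) ≤ X := card_P_le (hP'.trans hP)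
    have h1 := AD_piece2 (c := c) (P := P') (X := X) (N := N) (β := β) (σ := σ) (s := s) (ω := ω) (Ξ0 := Ξ0)
      (T := T) (CW := CW) (B := 8 * R) (η := η) hX1r hT16 hT8X hPX hσ hs1 hs2 hω hΞ0 hη hCW
      (by positivity) hK8 (hMb s hs1 P' hP') (hMb ω hωlow P' hP') hWb
    rw [← hCc, ← hS] at h1
    have h2 : Integrable (fun u => ADl c P' K β σ s ω u ^ 2) := by
      have h3 := (AD_L2 P' (fun p : ℕ => Real.log p) K (fun k : ℕ => c * Real.log ((k : ℝ) + β)) (-(σ * s)) s ω)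
      have h4 := h3.integrable_norm_pow (by norm_num)
      have e0 : ∀ r : ℝ, ‖(r : ℂ)‖ ^ 2 = r ^ 2 := by
        intro r
        rw [Complex.norm_real, Real.norm_eq_abs, sq_abs]
      simpa [e0, ADl] using h4
    have h5 := change (g := ADl c P' K β σ s ω)
      (AD_measurable _ _ _ _ _ _ _) (fun u => AD_bounded P' (fun p : ℕ => Real.log p) K
        (fun k : ℕ => c * Real.log ((k : ℝ) + β))
        (o := -(σ * s)) hs0 hω0 u) h2 hY (E := (8 * R * S) ^ 2) (by positivity) h1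
    refine ⟨h5.1, h5.2.trans (le_of_eq ?_)⟩
    rw [Real.sqrt_sq (by positivity)]
    ring
  -- pieces
  set N1 : ℕ → ℝ := fun j => X + j * (X / J) with hN1def
  set N2 : ℕ → ℝ := fun j => X + ((j : ℝ) + 1) * (X / J) with hN2def
  have hXJ : 0 < (X : ℝ) / J := by positivity
  have hN1X : ∀ j, (X : ℝ) ≤ N1 j := fun j => by simp only [hN1def]; nlinarith [Nat.cast_nonneg (α := ℝ) j]
  have hN12 : ∀ j, N2 j - N1 j = X / J := fun j => by simp only [hN1def, hN2def]; ring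
  have hN2X : ∀ j ∈ range J, N2 j ≤ 2 * X := by
    intro j hj
    have h1 : (j : ℝ) + 1 ≤ J := by exact_mod_cast mem_range.mp hj
    simp only [hN2def]
    have h2 : ((j : ℝ) + 1) * (X / J) ≤ J * (X / J) := by gcongr
    have h3 : (J : ℝ) * (X / J) = X := by field_simp
    linarith
  have hPjsub : ∀ j, Pk P X J j ⊆ P := fun j => filter_subset _ _
  have h1c : 1 / c ≤ 1 := by rw [div_le_one hc0']; exact hc
  have h1c0 : 0 < 1 / c := by positivity
  -- the size of `(p / y) ^ (1 / c)`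
  have hsize : ∀ y ∈ Set.Icc Y (2 * Y), ∀ p ∈ P, R / 2 ≤ ((p : ℝ) / y) ^ (1 / c) ∧
      ((p : ℝ) / y) ^ (1 / c) ≤ 2 * R := by
    intro y hy p hp
    have hy0 : 0 < y := hY.trans_le hy.1
    have hp1 := hP hp
    rw [mem_Ioc] at hp1
    have hp2 : (X : ℝ) < p := by exact_mod_cast hp1.1
    have hp3 : (p : ℝ) ≤ 2 * X := by exact_mod_cast hp1.2
    constructor
    · have h1 : (X : ℝ) / Y * (1 / 2) ≤ p / y := by
        have : (X : ℝ) / Y * (1 / 2) = X / (2 * Y) := by field_simp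
        rw [this]
        exact div_le_div₀ (by linarith) hp2.le hy0 hy.2
      calc R / 2 = R * (1 / 2) ^ (1 : ℝ) := by rw [Real.rpow_one]; ring
        _ ≤ R * (1 / 2) ^ (1 / c) := by
          apply mul_le_mul_of_nonneg_left _ hR0.le
          exact Real.rpow_le_rpow_of_exponent_ge (by norm_num) (by norm_num) h1c
        _ = ((X : ℝ) / Y * (1 / 2)) ^ (1 / c) := by
          rw [Real.mul_rpow (by positivity) (by norm_num)]
        _ ≤ _ := Real.rpow_le_rpow (by positivity) h1 h1c0.le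
    · have h1 : (p : ℝ) / y ≤ (X : ℝ) / Y * 2 := by
        have : (X : ℝ) / Y * 2 = 2 * X / Y := by ring
        rw [this]
        exact div_le_div₀ (by positivity) hp3 hY hy.1
      calc ((p : ℝ) / y) ^ (1 / c) ≤ ((X : ℝ) / Y * 2) ^ (1 / c) :=
            Real.rpow_le_rpow (by positivity) h1 h1c0.le
        _ = R * 2 ^ (1 / c) := by rw [Real.mul_rpow (by positivity) (by norm_num)]
        _ ≤ R * 2 ^ (1 : ℝ) := by
          apply mul_le_mul_of_nonneg_left _ hR0.le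
          exact Real.rpow_le_rpow_of_exponent_le (by norm_num) h1c
        _ = 2 * R := by rw [Real.rpow_one]; ring
  set κ : ℝ := (2 / X) * (2 * R * ω / c ^ 2 + 1 / ω) + (2 * (X / J + H) / X) * (2 * R / (c * X)) with hκ
  have hpt : ∀ y ∈ Set.Icc Y (2 * Y), dv c P K β σ H y ≤
      (∑ j ∈ range J, ((2 * H / X) * |ADl c (Pk P X J j) K β σ (H / (N1 j - H)) ω (Real.log y)| +
        (2 * H / X) * |ADl c (Pk P X J j) K β σ (H / (N2 j + H)) ω (Real.log y)|)) + X * (H * κ) := by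
    intro y hy
    have hy0 : 0 < y := hY.trans_le hy.1
    unfold dv
    rw [cnt_split' c hXpos hJ0 hP, MT_split' c hXpos hJ0 hP, mul_sum, ← sum_sub_distrib]
    refine (abs_sum_le_sum_abs _ _).trans ?_
    have hj : ∀ j ∈ range J, |cnt c (Pk P X J j) K β σ H y - H * MT c (Pk P X J j) y| ≤
        ((2 * H / X) * |ADl c (Pk P X J j) K β σ (H / (N1 j - H)) ω (Real.log y)| +
        (2 * H / X) * |ADl c (Pk P X J j) K β σ (H / (N2 j + H)) ω (Real.log y)|) +
        ((Pk P X J j).card : ℝ) * (H * κ) := by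
      intro j hj
      have hp := piece_est hc0' (Pk P X J j) N (β := β) (σ := σ) (H := H) (N1 := N1 j) (N2 := N2 j) (X := X) (ω := ω)
        (y := y) (R' := 2 * R) hσ hω0 hy0 hX0 hβ0 hN1 hH0 hH2 (hN1X j) (by have := hN12 j; linarith) (hN2X j hj)
        (fun p hp => by
          rw [Pk, mem_filter] at hp
          obtain ⟨hp1, hp2⟩ := hp
          obtain ⟨-, h1, h2⟩ := jf_spec' hXpos hJ0 (hP hp1)
          rw [hp2] at h1 h2
          exact ⟨h1, h2⟩)
        (fun p hp => by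
          obtain ⟨s1, s2⟩ := hsize y hy p (hPjsub j hp)
          have he : 1 / 2 ≤ Real.exp (-(ω / c)) := by
            have h1 := Real.add_one_le_exp (-(ω / c))
            have h2 : ω / c ≤ ω := div_le_self hω0.le hc
            linarith
          refine ⟨s2, ?_, by linarith⟩
          have : 1 / 2 * (R / 2) ≤ Real.exp (-(ω / c)) * ((p : ℝ) / y) ^ (1 / c) := by gcongr
          linarith)
      refine hp.trans (le_of_eq ?_)
      rw [hN12 j, hκ]
      congr 1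
      congr 1
      ring
    refine (sum_le_sum hj).trans ?_
    rw [sum_add_distrib, ← sum_mul, ← card_split' hXpos hJ0 hP]
    have := card_P_le hP
    have hκ0 : 0 ≤ κ := by rw [hκ]; positivity
    gcongr
  -- integrate
  have hadm1 : ∀ j ∈ range J, 1 / (3 * T * X) ≤ H / (N1 j - H) ∧ H / (N1 j - H) ≤ ω := by
    intro j hj
    have h1 := hN1X j
    have h2 := hN2X j hj
    have h3 := hN12 j
    constructor
    · apply hs_lower _ (by linarith) (by linarith)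
    · refine le_trans ?_ h2HX
      rw [div_le_div_iff₀ (by linarith) hX0]
      nlinarith
  have hadm2 : ∀ j ∈ range J, 1 / (3 * T * X) ≤ H / (N2 j + H) ∧ H / (N2 j + H) ≤ ω := by
    intro j hj
    have h1 := hN1X j
    have h2 := hN2X j hj
    have h3 := hN12 j
    constructor
    · apply hs_lower _ (by linarith) (by linarith)
    · refine le_trans ?_ h2HX
      rw [div_le_div_iff₀ (by linarith) hX0]
      nlinarith
  have hI1 : ∀ j ∈ range J, IntegrableOn (fun y => (2 * H / X) * |ADl c (Pk P X J j) K β σ (H / (N1 j - H)) ω (Real.log y)| +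
        (2 * H / X) * |ADl c (Pk P X J j) K β σ (H / (N2 j + H)) ω (Real.log y)|) (Set.Icc Y (2 * Y)) := by
    intro j hj
    exact ((hL1b _ (hPjsub j) _ (hadm1 j hj).1 (hadm1 j hj).2).1.const_mul _).add
      ((hL1b _ (hPjsub j) _ (hadm2 j hj).1 (hadm2 j hj).2).1.const_mul _)
  have hIc : IntegrableOn (fun _ : ℝ => (X : ℝ) * (H * κ)) (Set.Icc Y (2 * Y)) :=
    continuous_const.integrableOn_Icc
  have hIs : IntegrableOn (fun y => ∑ j ∈ range J,
      ((2 * H / X) * |ADl c (Pk P X J j) K β σ (H / (N1 j - H)) ω (Real.log y)| +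
        (2 * H / X) * |ADl c (Pk P X J j) K β σ (H / (N2 j + H)) ω (Real.log y)|)) (Set.Icc Y (2 * Y)) :=
    integrable_finsetSum _ hI1
  have hfin := setIntegral_mono_on (dv_int hc0' P K β σ H hY) (hIs.add hIc) measurableSet_Icc hpt
  have e0 : ∫ y in Set.Icc Y (2 * Y), ((fun y => ∑ j ∈ range J,
      ((2 * H / X) * |ADl c (Pk P X J j) K β σ (H / (N1 j - H)) ω (Real.log y)| +
        (2 * H / X) * |ADl c (Pk P X J j) K β σ (H / (N2 j + H)) ω (Real.log y)|)) +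
        (fun _ : ℝ => (X : ℝ) * (H * κ))) y = _ := integral_add' hIs hIc
  refine (hfin.trans (le_of_eq e0)).trans ?_
  rw [integral_finsetSum _ hI1]
  have hconst : ∫ y in Set.Icc Y (2 * Y), (X : ℝ) * (H * κ) = Y * (X * (H * κ)) := by
    rw [setIntegral_const, smul_eq_mul]
    unfold Measure.real
    rw [Real.volume_Icc, ENNReal.toReal_ofReal (by linarith)]
    ring
  rw [hconst]
  have hsum : ∑ j ∈ range J, ∫ y in Set.Icc Y (2 * Y), ((2 * H / X) * |ADl c (Pk P X J j) K β σ (H / (N1 j - H)) ω (Real.log y)| +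
        (2 * H / X) * |ADl c (Pk P X J j) K β σ (H / (N2 j + H)) ω (Real.log y)|) ≤ J * (64 * H * Y * R * (S / X)) := by
    have : ∀ j ∈ range J, ∫ y in Set.Icc Y (2 * Y), ((2 * H / X) * |ADl c (Pk P X J j) K β σ (H / (N1 j - H)) ω (Real.log y)| +
        (2 * H / X) * |ADl c (Pk P X J j) K β σ (H / (N2 j + H)) ω (Real.log y)|) ≤ 64 * H * Y * R * (S / X) := by
      intro j hj
      obtain ⟨i1, b1⟩ := hL1b _ (hPjsub j) _ (hadm1 j hj).1 (hadm1 j hj).2
      obtain ⟨i2, b2⟩ := hL1b _ (hPjsub j) _ (hadm2 j hj).1 (hadm2 j hj).2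
      rw [integral_add (i1.const_mul _) (i2.const_mul _), integral_const_mul, integral_const_mul]
      have c1 := mul_le_mul_of_nonneg_left b1 (by positivity : 0 ≤ 2 * H / X)
      have c2 := mul_le_mul_of_nonneg_left b2 (by positivity : 0 ≤ 2 * H / X)
      have e1 : 2 * H / X * (16 * Y * R * S) = 32 * H * Y * R * (S / X) := by field_simp; ring
      rw [e1] at c1 c2
      linarith
    refine (sum_le_sum this).trans ?_
    rw [sum_const, card_range, nsmul_eq_mul]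
  have hTT : ∀ n : ℕ, 1 ≤ n → 1 / T ^ n ≤ 1 / T := by
    intro n hn
    apply one_div_le_one_div_of_le hT0
    calc T = T ^ 1 := (pow_one T).symm
      _ ≤ T ^ n := pow_le_pow_right₀ hT1 hn
  have hc2 : 1 / c ^ 2 ≤ 1 := by
    rw [div_le_one (by positivity)]; exact one_le_pow₀ hc
  have hκb : X * κ ≤ 32 * (R / T) := by
    have a1 : 1 / ω ≤ R / T := by
      have : 1 / ω = T ^ 6 := by rw [hω]; field_simp
      rw [this, le_div_iff₀ hT0]
      calc T ^ 6 * T = T ^ 7 := by ring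
        _ ≤ T ^ 16 := pow_le_pow_right₀ hT1 (by norm_num)
        _ ≤ Xh := hTXh
        _ ≤ R := by linarith
    have a2 : 2 * R * ω / c ^ 2 ≤ 2 * (R / T) := by
      calc 2 * R * ω / c ^ 2 = 2 * R * ω * (1 / c ^ 2) := by ring
        _ ≤ 2 * R * (1 / T) * 1 := by gcongr
        _ = _ := by ring
    have a3 : (X / J + H) / X ≤ 2 / T := by
      have e1 : (X / J + H) / X = 1 / J + H / X := by field_simp
      rw [e1]
      have b1 : 1 / (J : ℝ) ≤ 1 / T := one_div_le_one_div_of_le hT0 hJge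
      have b2 : H / X ≤ 1 / T := hHX'.trans (hTT 16 (by norm_num))
      have e2 : 2 / T = (1 / T) + (1 / T) := by ring
      rw [e2]; linarith
    have e3 : X * κ = 2 * (2 * R * ω / c ^ 2 + 1 / ω) + 4 * ((X / J + H) / X) * R * (1 / c) := by
      rw [hκ]; field_simp; ring
    rw [e3]
    have a4 : 4 * ((X / J + H) / X) * R * (1 / c) ≤ 4 * (2 / T) * R * 1 := by gcongr
    have e4 : 4 * (2 / T) * R * 1 = 8 * (R / T) := by ring
    have h0 : 0 ≤ R / T := by positivity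
    linarith
  have hJS : J * (64 * H * Y * R * (S / X)) ≤ 128 * √Cc * (H * Y * (R / T)) := by
    rw [hS]
    calc (J : ℝ) * (64 * H * Y * R * (√Cc * (X / T ^ 2) / X)) ≤ (2 * T) * (64 * H * Y * R * (√Cc * (X / T ^ 2) / X)) := by
          gcongr
      _ = _ := by field_simp; ring
  have hκ2 : Y * (X * (H * κ)) ≤ 32 * (H * Y * (R / T)) := by
    calc Y * (X * (H * κ)) = Y * H * (X * κ) := by ring
      _ ≤ Y * H * (32 * (R / T)) := by gcongr
      _ = _ := by ring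
  have htot : (∑ j ∈ range J, ∫ y in Set.Icc Y (2 * Y), ((2 * H / X) * |ADl c (Pk P X J j) K β σ (H / (N1 j - H)) ω (Real.log y)| +
        (2 * H / X) * |ADl c (Pk P X J j) K β σ (H / (N2 j + H)) ω (Real.log y)|)) + Y * (X * (H * κ)) ≤
        (128 * √Cc + 32) * (H * Y * (R / T)) := by
    have := hsum.trans hJS
    linarith
  refine htot.trans ?_
  have hTsplit : T = (X : ℝ) ^ (c0 / 2) * (X : ℝ) ^ (c0 / 2) := by
    rw [hTdef, ← Real.rpow_add hX0]; congr 1; ring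
  have hXc' : (X : ℝ) ^ (1 / c - c0 / 2) = (X : ℝ) ^ (1 / c) / (X : ℝ) ^ (c0 / 2) := by
    rw [Real.rpow_sub hX0]
  rw [hXc']
  have hq : 0 < (X : ℝ) ^ (c0 / 2) := by positivity
  calc (128 * √Cc + 32) * (H * Y * (R / T)) = C0 * (H * ((X : ℝ) ^ (1 / c) / T)) := by
        rw [hRX, hC0]; ring
    _ ≤ (X : ℝ) ^ (c0 / 2) * (H * ((X : ℝ) ^ (1 / c) / T)) := by gcongr
    _ = H * ((X : ℝ) ^ (1 / c) / (X : ℝ) ^ (c0 / 2)) := by
      rw [hTsplit]; field_simp

end Pool.Agent.H717R2.MQ
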