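import Pool.Agent.H717R2.MQ.Stubs
import Pool.Agent.Helper923.PNT

/-!
# Task PRM: partial summation from the prime number theorem (helper336)
-/

open Finset MeasureTheory Filter Topology

namespace Pool.Agent.H717R2.MQ

namespace PRMaux

/-- one-sided Abel inequality -/
lemma abel (u g : ℕ → ℝ) (C : ℝ) (hU : ∀ n, -C ≤ ∑ m ∈ range n, u m) (hg : Antitone g) (n : ℕ) :
    (∑ m ∈ range n, u m) * g n - C * (g 0 - g n) ≤ ∑ m ∈ range n, u m * g m := by
  induction n with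
  | zero => simp
  | succ n ih =>
    rw [sum_range_succ (fun m => u m * g m)]
    have h1 := hU (n + 1)
    have h2 : g (n + 1) ≤ g n := hg (Nat.le_succ n)
    rw [sum_range_succ] at h1 ⊢
    set U := ∑ m ∈ range n, u m
    nlinarith [mul_nonneg (by linarith : 0 ≤ U + u n + C) (by linarith : 0 ≤ g n - g (n + 1))]

lemma abel' (u g : ℕ → ℝ) (C : ℝ) (hU : ∀ n, -C ≤ ∑ m ∈ range n, u m) (hg : Antitone g)
    (hg0 : ∀ n, 0 ≤ g n) (n : ℕ) : -(C * g 0) ≤ ∑ m ∈ range n, u m * g m := by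
  have h1 := abel u g C hU hg n
  have h2 := mul_nonneg (by linarith [hU n] : 0 ≤ (∑ m ∈ range n, u m) + C) (hg0 n)
  nlinarith

/-- indicator of shifted primes -/
noncomputable def aa (h : ℤ) (m : ℕ) : ℝ := by
  classical exact if ((m : ℤ) + h).toNat.Prime then 1 else 0

/-- logarithmic weight -/
noncomputable def bb (m : ℕ) : ℝ := if 2 ≤ m then (Real.log m)⁻¹ else 0

lemma bb_nonneg (m : ℕ) : 0 ≤ bb m := by
  unfold bb
  split_ifs
  · exact inv_nonneg.2 (Real.log_natCast_nonneg m)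
  · exact le_rfl

/-- weighted sums -/
noncomputable def GG (s : ℝ) (Z : ℕ) : ℝ := ∑ m ∈ range Z, bb (m + 1) * (((m + 1 : ℕ)) : ℝ) ^ (s - 1)

lemma pow_diff_le {s : ℝ} (hs : 0 < s) (hs1 : s ≤ 1) (m : ℕ) (hm : 1 ≤ m) :
    ((m : ℝ) + 1) ^ s - (m : ℝ) ^ s ≤ s * (m : ℝ) ^ (s - 1) := by
  have hm0 : (0 : ℝ) < m := by exact_mod_cast hm
  have h1 : ((m : ℝ) + 1) = m * (1 + 1 / m) := by field_simp
  have h0 : (0 : ℝ) < 1 / m := by positivity
  have h2 : (1 + 1 / (m : ℝ)) ^ s ≤ 1 + s * (1 / m) :=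
    rpow_one_add_le_one_add_mul_self (by linarith) hs.le hs1
  rw [h1, Real.mul_rpow hm0.le (by positivity), Real.rpow_sub hm0, Real.rpow_one]
  have h3 : (0 : ℝ) < (m : ℝ) ^ s := by positivity
  have h4 := mul_le_mul_of_nonneg_left h2 h3.le
  have h5 : (m : ℝ) ^ s * (1 + s * (1 / m)) = (m : ℝ) ^ s + s * ((m : ℝ) ^ s / m) := by ring
  linarith

lemma pow_diff_ge {s : ℝ} (hs : 0 < s) (hs1 : s ≤ 1) (m : ℕ) :
    s * (((m + 1 : ℕ)) : ℝ) ^ (s - 1) ≤ (((m + 1 : ℕ)) : ℝ) ^ s - (m : ℝ) ^ s := by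
  have hm0 : (0 : ℝ) < ((m + 1 : ℕ) : ℝ) := by positivity
  set M : ℝ := ((m + 1 : ℕ) : ℝ) with hM
  have hmM : (m : ℝ) = M * (1 + -(1 / M)) := by
    rw [hM]; push_cast; field_simp; ring
  have hM1 : 1 ≤ M := by rw [hM]; push_cast; linarith [(Nat.cast_nonneg m : (0 : ℝ) ≤ m)]
  have h6 : 1 / M ≤ 1 := by rw [div_le_one hm0]; exact hM1
  have h2 : (1 + -(1 / M)) ^ s ≤ 1 + s * (-(1 / M)) :=
    rpow_one_add_le_one_add_mul_self (by linarith) hs.le hs1
  rw [hmM, Real.mul_rpow hm0.le (by linarith), Real.rpow_sub hm0, Real.rpow_one]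
  have h3 : (0 : ℝ) < M ^ s := by positivity
  have h4 := mul_le_mul_of_nonneg_left h2 h3.le
  have h5 : M ^ s * (1 + s * (-(1 / M))) = M ^ s - s * (M ^ s / M) := by ring
  linarith

lemma sum_pow_le {s : ℝ} (hs : 0 < s) (hs1 : s ≤ 1) (Z : ℕ) :
    ∑ m ∈ range Z, (((m + 1 : ℕ)) : ℝ) ^ (s - 1) ≤ (Z : ℝ) ^ s / s := by
  rw [le_div_iff₀ hs, mul_comm, mul_sum]
  calc _ ≤ ∑ m ∈ range Z, ((((m + 1 : ℕ)) : ℝ) ^ s - (m : ℝ) ^ s) :=
        sum_le_sum fun m _ => pow_diff_ge hs hs1 m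
    _ = _ := by
        rw [sum_range_sub (fun m : ℕ => (m : ℝ) ^ s)]
        simp [Real.zero_rpow hs.ne']

lemma sum_pow_ge {s : ℝ} (hs : 0 < s) (hs1 : s ≤ 1) (Z : ℕ) :
    (Z : ℝ) ^ s / s - 1 / s ≤ ∑ m ∈ range Z, (((m + 1 : ℕ)) : ℝ) ^ (s - 1) := by
  have h1 : (Z : ℝ) ^ s - 1 ≤ s * ∑ m ∈ range Z, (((m + 1 : ℕ)) : ℝ) ^ (s - 1) := by
    rw [mul_sum]
    calc (Z : ℝ) ^ s - 1 ≤ ((Z : ℝ) + 1) ^ s - 1 := by gcongr; linarith
      _ = ∑ m ∈ range Z, ((((m + 1 : ℕ) : ℝ) + 1) ^ s - ((m : ℝ) + 1) ^ s) := by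
          have := sum_range_sub (fun m : ℕ => ((m : ℝ) + 1) ^ s) Z
          rw [this]
          simp
      _ ≤ _ := sum_le_sum fun m _ => by
          have := pow_diff_le hs hs1 (m + 1) (by omega)
          push_cast at this ⊢
          exact this
  rw [← sub_div, div_le_iff₀ hs, mul_comm]
  exact h1

/-- the term `m = 1` is missing in `GG` -/
lemma GG_ge {s : ℝ} (hs : 0 < s) (hs1 : s ≤ 1) {Z : ℕ} (hZ : 2 ≤ Z) :
    ((Z : ℝ) ^ s / s - 1 / s - 1) / Real.log Z ≤ GG s Z := by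
  have hlZ : 0 < Real.log Z := Real.log_pos (by exact_mod_cast (by omega : 1 < Z))
  rw [div_le_iff₀ hlZ]
  obtain ⟨Y, rfl⟩ : ∃ Y, Z = Y + 1 := ⟨Z - 1, by omega⟩
  have h1 := sum_pow_ge hs hs1 (Y + 1)
  rw [sum_range_succ'] at h1
  unfold GG
  rw [sum_range_succ']
  have hb1 : bb (0 + 1) = 0 := by simp [bb]
  rw [hb1, zero_mul, add_zero, sum_mul]
  have h2 : ∑ m ∈ range Y, (((m + 1 + 1 : ℕ)) : ℝ) ^ (s - 1) ≤
      ∑ m ∈ range Y, bb (m + 1 + 1) * (((m + 1 + 1 : ℕ)) : ℝ) ^ (s - 1) * Real.log ((Y + 1 : ℕ) : ℝ) := by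
    refine sum_le_sum fun m hm => ?_
    rw [mem_range] at hm
    have hm2 : (1 : ℝ) < ((m + 1 + 1 : ℕ) : ℝ) := by push_cast; linarith [(Nat.cast_nonneg m : (0 : ℝ) ≤ m)]
    have hlm : 0 < Real.log ((m + 1 + 1 : ℕ) : ℝ) := Real.log_pos hm2
    have hle : Real.log ((m + 1 + 1 : ℕ) : ℝ) ≤ Real.log ((Y + 1 : ℕ) : ℝ) :=
      Real.log_le_log (by linarith) (by exact_mod_cast (by omega : m + 1 + 1 ≤ Y + 1))
    unfold bb
    rw [if_pos (by omega)]
    have hp : 0 < (((m + 1 + 1 : ℕ)) : ℝ) ^ (s - 1) := by positivity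
    have h3 : 1 ≤ (Real.log ((m + 1 + 1 : ℕ) : ℝ))⁻¹ * Real.log ((Y + 1 : ℕ) : ℝ) := by
      rw [inv_mul_eq_div, one_le_div hlm]
      exact hle
    calc (((m + 1 + 1 : ℕ)) : ℝ) ^ (s - 1) = 1 * (((m + 1 + 1 : ℕ)) : ℝ) ^ (s - 1) := by ring
      _ ≤ ((Real.log ((m + 1 + 1 : ℕ) : ℝ))⁻¹ * Real.log ((Y + 1 : ℕ) : ℝ)) * (((m + 1 + 1 : ℕ)) : ℝ) ^ (s - 1) := by
          gcongr
      _ = _ := by ring
  have h4 : (((0 + 1 : ℕ)) : ℝ) ^ (s - 1) = 1 := by simp
  rw [h4] at h1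
  linarith

lemma GG_le {s : ℝ} (hs : 0 < s) (hs1 : s ≤ 1) {δ : ℝ} (hδ : 0 < δ) (hδ1 : δ < 1) {Z : ℕ} (hZ : 2 ≤ Z) :
    GG s Z ≤ (Real.log 2)⁻¹ * (((Z : ℝ) ^ (1 - δ) + 1) ^ s / s) + ((1 - δ) * Real.log Z)⁻¹ * ((Z : ℝ) ^ s / s) := by
  have hZ1 : (1 : ℝ) < Z := by exact_mod_cast (by omega : 1 < Z)
  have hlZ : 0 < Real.log Z := Real.log_pos hZ1
  have hl2 : 0 < Real.log 2 := Real.log_pos (by norm_num)
  set Y : ℕ := ⌈(Z : ℝ) ^ (1 - δ)⌉₊ with hY
  have hterm : ∀ m ∈ range Z, bb (m + 1) * (((m + 1 : ℕ)) : ℝ) ^ (s - 1) ≤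
      (if m < Y then (Real.log 2)⁻¹ * (((m + 1 : ℕ)) : ℝ) ^ (s - 1) else 0) +
        ((1 - δ) * Real.log Z)⁻¹ * (((m + 1 : ℕ)) : ℝ) ^ (s - 1) := by
    intro m _
    have hp : 0 < (((m + 1 : ℕ)) : ℝ) ^ (s - 1) := by positivity
    have hc : 0 < ((1 - δ) * Real.log Z)⁻¹ := inv_pos.2 (mul_pos (by linarith) hlZ)
    split_ifs with h
    · have hb : bb (m + 1) ≤ (Real.log 2)⁻¹ := by
        unfold bb
        split_ifs with h2
        · apply inv_anti₀ hl2
          exact Real.log_le_log (by norm_num) (by exact_mod_cast h2)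
        · exact inv_nonneg.2 hl2.le
      have := mul_le_mul_of_nonneg_right hb hp.le
      have h3 := mul_pos hc hp
      linarith
    · rw [zero_add]
      apply mul_le_mul_of_nonneg_right _ hp.le
      unfold bb
      split_ifs with h2
      · apply inv_anti₀ (mul_pos (by linarith) hlZ)
        push Not at h
        have h5 : (Z : ℝ) ^ (1 - δ) ≤ ((m + 1 : ℕ) : ℝ) := by
          refine (Nat.le_ceil _).trans ?_
          exact_mod_cast (by omega : Y ≤ m + 1)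
        have h6 := Real.log_le_log (by positivity) h5
        rw [Real.log_rpow (by linarith)] at h6
        exact h6
      · exact hc.le
  unfold GG
  refine (sum_le_sum hterm).trans ?_
  rw [sum_add_distrib]
  apply add_le_add
  · rw [← sum_filter]
    have hsub : (range Z).filter (fun m => m < Y) ⊆ range Y := by
      intro m hm
      rw [mem_filter] at hm
      exact mem_range.2 hm.2
    refine (sum_le_sum_of_subset_of_nonneg hsub fun m _ _ => by positivity).trans ?_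
    rw [← mul_sum]
    apply mul_le_mul_of_nonneg_left _ (inv_nonneg.2 hl2.le)
    refine (sum_pow_le hs hs1 Y).trans ?_
    have h7 : (Y : ℝ) ≤ (Z : ℝ) ^ (1 - δ) + 1 := (Nat.ceil_lt_add_one (by positivity)).le
    gcongr
  · rw [← mul_sum]
    exact mul_le_mul_of_nonneg_left (sum_pow_le hs hs1 Z)
      (inv_nonneg.2 (mul_nonneg (by linarith) hlZ.le))

lemma GG_tendsto {s : ℝ} (hs : 0 < s) (hs1 : s ≤ 1) :
    Tendsto (fun Z : ℕ => GG s Z * (s * Real.log Z) / (Z : ℝ) ^ s) atTop (𝓝 1) := by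
  have hinv : ∀ e : ℝ, 0 < e → Tendsto (fun Z : ℕ => ((Z : ℝ) ^ e)⁻¹) atTop (𝓝 0) := fun e he =>
    (tendsto_inv_atTop_zero.comp (tendsto_rpow_atTop he)).comp tendsto_natCast_atTop_atTop
  rw [tendsto_order]
  constructor
  · intro a ha
    have h1 : Tendsto (fun Z : ℕ => 1 - (1 + s) * ((Z : ℝ) ^ s)⁻¹) atTop (𝓝 (1 - (1 + s) * 0)) :=
      ((hinv s hs).const_mul _).const_sub _
    rw [mul_zero, sub_zero] at h1
    filter_upwards [h1.eventually (lt_mem_nhds ha), eventually_ge_atTop 2] with Z h2 hZ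
    refine h2.trans_le ?_
    have hZ1 : (1 : ℝ) < Z := by exact_mod_cast (by omega : 1 < Z)
    have hlZ : 0 < Real.log Z := Real.log_pos hZ1
    have hZs : 0 < (Z : ℝ) ^ s := by positivity
    have h3 := GG_ge hs hs1 hZ
    rw [le_div_iff₀ hZs]
    have h4 : ((Z : ℝ) ^ s / s - 1 / s - 1) / Real.log Z * (s * Real.log Z) ≤ GG s Z * (s * Real.log Z) :=
      mul_le_mul_of_nonneg_right h3 (by positivity)
    have h5 : ((Z : ℝ) ^ s / s - 1 / s - 1) / Real.log Z * (s * Real.log Z) = (Z : ℝ) ^ s - 1 - s := by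
      field_simp
    have h6 : (1 - (1 + s) * ((Z : ℝ) ^ s)⁻¹) * (Z : ℝ) ^ s = (Z : ℝ) ^ s - 1 - s := by
      field_simp
      ring
    linarith
  · intro b hb
    set δ : ℝ := (1 - 1 / b) / 2 with hδ
    have hb0 : 0 < b := by linarith
    have h1b : 1 / b < 1 := by rw [div_lt_one hb0]; exact hb
    have h1b0 : 0 < 1 / b := by positivity
    have hδ0 : 0 < δ := by rw [hδ]; linarith
    have hδ1 : δ < 1 := by rw [hδ]; linarith
    have hlim : (1 - δ)⁻¹ < b := by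
      rw [inv_lt_comm₀ (by linarith) hb0, ← one_div]
      rw [hδ]; linarith
    have hl2 : 0 < Real.log 2 := Real.log_pos (by norm_num)
    -- log Z * Z^(-δ s) → 0
    have h7 : Tendsto (fun Z : ℕ => Real.log Z / (Z : ℝ) ^ (δ * s)) atTop (𝓝 0) := by
      have := (isLittleO_log_rpow_atTop (by positivity : 0 < δ * s)).tendsto_div_nhds_zero
      exact this.comp tendsto_natCast_atTop_atTop
    have h8 : Tendsto (fun Z : ℕ => (Real.log 2)⁻¹ * 2 * (Real.log Z / (Z : ℝ) ^ (δ * s)) + (1 - δ)⁻¹)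
        atTop (𝓝 ((Real.log 2)⁻¹ * 2 * 0 + (1 - δ)⁻¹)) := (h7.const_mul _).add_const _
    rw [mul_zero, zero_add] at h8
    filter_upwards [h8.eventually (gt_mem_nhds hlim), eventually_ge_atTop 2] with Z h2 hZ
    refine lt_of_le_of_lt ?_ h2
    have hZ1 : (1 : ℝ) < Z := by exact_mod_cast (by omega : 1 < Z)
    have hZ0 : (0 : ℝ) < Z := by linarith
    have hlZ : 0 < Real.log Z := Real.log_pos hZ1
    have hZs : 0 < (Z : ℝ) ^ s := by positivity
    have h3 := mul_le_mul_of_nonneg_right (GG_le hs hs1 hδ0 hδ1 hZ) (by positivity : 0 ≤ s * Real.log Z)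
    rw [div_le_iff₀ hZs]
    refine h3.trans ?_
    have h9 : ((Z : ℝ) ^ (1 - δ) + 1) ^ s ≤ 2 * ((Z : ℝ) ^ s / (Z : ℝ) ^ (δ * s)) := by
      have h10 : (1 : ℝ) ≤ (Z : ℝ) ^ (1 - δ) := Real.one_le_rpow hZ1.le (by linarith)
      calc ((Z : ℝ) ^ (1 - δ) + 1) ^ s ≤ (2 * (Z : ℝ) ^ (1 - δ)) ^ s :=
            Real.rpow_le_rpow (by positivity) (by linarith) hs.le
        _ = 2 ^ s * ((Z : ℝ) ^ (1 - δ)) ^ s := Real.mul_rpow (by norm_num) (by positivity)
        _ ≤ 2 * ((Z : ℝ) ^ (1 - δ)) ^ s := by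
            apply mul_le_mul_of_nonneg_right _ (by positivity)
            calc (2 : ℝ) ^ s ≤ 2 ^ (1 : ℝ) := Real.rpow_le_rpow_of_exponent_le (by norm_num) hs1
              _ = 2 := Real.rpow_one 2
        _ = _ := by
            rw [← Real.rpow_mul hZ0.le, ← Real.rpow_sub hZ0]
            congr 2
            ring
    have h11 : (Real.log 2)⁻¹ * (((Z : ℝ) ^ (1 - δ) + 1) ^ s / s) * (s * Real.log Z) ≤
        (Real.log 2)⁻¹ * 2 * (Real.log Z / (Z : ℝ) ^ (δ * s)) * (Z : ℝ) ^ s := by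
      calc _ = (Real.log 2)⁻¹ * Real.log Z * ((Z : ℝ) ^ (1 - δ) + 1) ^ s := by field_simp
        _ ≤ (Real.log 2)⁻¹ * Real.log Z * (2 * ((Z : ℝ) ^ s / (Z : ℝ) ^ (δ * s))) :=
            mul_le_mul_of_nonneg_left h9 (by positivity)
        _ = _ := by ring
    have h12 : ((1 - δ) * Real.log Z)⁻¹ * ((Z : ℝ) ^ s / s) * (s * Real.log Z) = (1 - δ)⁻¹ * (Z : ℝ) ^ s := by
      have : (1 - δ) ≠ 0 := by linarith
      field_simp
    rw [add_mul, h12, add_mul]
    linarith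

/-- counting function of shifted primes -/
noncomputable def AA (h : ℤ) (Z : ℕ) : ℝ := ∑ m ∈ range Z, aa h (m + 1)

lemma aa_nonneg (h : ℤ) (m : ℕ) : 0 ≤ aa h m := by unfold aa; split_ifs <;> norm_num

lemma aa_le (h : ℤ) (m : ℕ) : aa h m ≤ 1 := by unfold aa; split_ifs <;> norm_num

lemma AA_zero (Z : ℕ) : AA 0 Z = (Nat.primeCounting Z : ℝ) := by
  have h1 : (Nat.primeCounting Z : ℝ) = ∑ m ∈ range (Z + 1), (if m.Prime then (1 : ℝ) else 0) := by
    unfold Nat.primeCounting Nat.primeCounting'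
    rw [Nat.count_eq_card_filter_range, sum_boole]
  rw [h1, sum_range_succ']
  unfold AA
  rw [if_neg Nat.not_prime_zero, add_zero]
  refine sum_congr rfl fun m _ => ?_
  unfold aa
  have : (((m + 1 : ℕ) : ℤ) + 0).toNat = m + 1 := by simp
  rw [this]

lemma AA_succ (h : ℤ) (Z : ℕ) : |AA (h + 1) Z - AA h Z| ≤ 1 := by
  have h1 : AA (h + 1) Z + aa h 1 = AA h Z + aa h (Z + 1) := by
    have h2 : AA (h + 1) Z = ∑ m ∈ range Z, aa h (m + 1 + 1) := by
      unfold AA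
      refine sum_congr rfl fun m _ => ?_
      unfold aa
      have : (((m + 1 : ℕ) : ℤ) + (h + 1)) = (((m + 1 + 1 : ℕ) : ℤ) + h) := by push_cast; ring
      rw [this]
    rw [h2]
    unfold AA
    have h3 := sum_range_succ' (fun m => aa h (m + 1)) Z
    have h4 := sum_range_succ (fun m => aa h (m + 1)) Z
    rw [h3] at h4
    simpa using h4
  rw [abs_le]
  constructor <;> linarith [aa_nonneg h 1, aa_le h 1, aa_nonneg h (Z + 1), aa_le h (Z + 1)]

lemma AA_diff (h : ℤ) (Z : ℕ) : |AA h Z - AA 0 Z| ≤ |(h : ℝ)| := by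
  induction h using Int.induction_on with
  | zero => simp
  | succ n ih =>
    have h1 := AA_succ n Z
    have h2 : |(((n : ℤ) + 1 : ℤ) : ℝ)| = |((n : ℤ) : ℝ)| + 1 := by
      push_cast
      rw [abs_of_nonneg (by positivity), abs_of_nonneg (by positivity)]
    rw [h2]
    have h3 := abs_sub_le (AA ((n : ℤ) + 1) Z) (AA n Z) (AA 0 Z)
    linarith
  | pred n ih =>
    have h1 := AA_succ (-(n : ℤ) - 1) Z
    rw [sub_add_cancel] at h1
    have h2 : |((-(n : ℤ) - 1 : ℤ) : ℝ)| = |((-(n : ℤ) : ℤ) : ℝ)| + 1 := by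
      push_cast
      rw [abs_neg, abs_of_nonneg (by positivity : (0 : ℝ) ≤ n),
        show (-(n : ℝ) - 1) = -((n : ℝ) + 1) by ring, abs_neg, abs_of_nonneg (by positivity)]
    rw [h2]
    have h3 := abs_sub_le (AA (-(n : ℤ) - 1) Z) (AA (-(n : ℤ)) Z) (AA 0 Z)
    rw [abs_sub_comm] at h1
    linarith

lemma AA_tendsto (h : ℤ) : Tendsto (fun Z : ℕ => AA h Z * Real.log Z / Z) atTop (𝓝 1) := by
  have h1 : Tendsto (fun Z : ℕ => AA 0 Z * Real.log Z / Z) atTop (𝓝 1) := by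
    have := Pool.Agent.Helper923.PNT.pi_tendsto.comp tendsto_natCast_atTop_atTop
    refine this.congr fun Z => ?_
    simp only [Function.comp, Nat.floor_natCast]
    rw [AA_zero]
  have h2 : Tendsto (fun Z : ℕ => |(h : ℝ)| * (Real.log Z / (Z : ℝ))) atTop (𝓝 (|(h : ℝ)| * 0)) := by
    refine Tendsto.const_mul _ ?_
    exact (Real.isLittleO_log_id_atTop.tendsto_div_nhds_zero).comp tendsto_natCast_atTop_atTop
  rw [mul_zero] at h2
  have h3 : Tendsto (fun Z : ℕ => AA h Z * Real.log Z / Z - AA 0 Z * Real.log Z / Z) atTop (𝓝 0) := by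
    refine squeeze_zero_norm' ?_ h2
    filter_upwards [eventually_ge_atTop 1] with Z hZ
    have hZ0 : (0 : ℝ) < Z := by exact_mod_cast hZ
    have hl : 0 ≤ Real.log Z / Z := div_nonneg (Real.log_natCast_nonneg Z) hZ0.le
    rw [Real.norm_eq_abs]
    have h4 : AA h Z * Real.log Z / Z - AA 0 Z * Real.log Z / Z = (AA h Z - AA 0 Z) * (Real.log Z / Z) := by ring
    rw [h4, abs_mul, abs_of_nonneg hl]
    exact mul_le_mul_of_nonneg_right (AA_diff h Z) hl
  have := h3.add h1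
  simpa using this

lemma GG_one (Z : ℕ) : GG 1 Z = ∑ m ∈ range Z, bb (m + 1) := by
  unfold GG
  refine sum_congr rfl fun m _ => ?_
  rw [sub_self, Real.rpow_zero, mul_one]

lemma compare (h : ℤ) {ε : ℝ} (hε : 0 < ε) : ∃ C : ℝ, 0 ≤ C ∧ ∀ n : ℕ,
    |AA h n - GG 1 n| ≤ ε * GG 1 n + C := by
  have h1 := AA_tendsto h
  have h2 := GG_tendsto (s := 1) one_pos le_rfl
  have h3 : ∀ᶠ n : ℕ in atTop, |AA h n - GG 1 n| ≤ ε * GG 1 n := by
    -- choose η with 2η ≤ ε(1-η)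
    set η : ℝ := ε / (2 + ε) with hη
    have hη0 : 0 < η := by positivity
    have hη1 : 2 * η = ε * (1 - η) := by rw [hη]; field_simp; ring
    filter_upwards [h1.eventually (Metric.ball_mem_nhds _ hη0), h2.eventually (Metric.ball_mem_nhds _ hη0),
      eventually_ge_atTop 2] with n h4 h5 hn
    rw [Real.dist_eq, abs_lt] at h4 h5
    have hn1 : (1 : ℝ) < n := by exact_mod_cast (by omega : 1 < n)
    have hn0 : (0 : ℝ) < n := by linarith
    have hl : 0 < Real.log n := Real.log_pos hn1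
    have hL : 0 < Real.log n / n := div_pos hl hn0
    have e1 : AA h n * Real.log n / n = AA h n * (Real.log n / n) := by ring
    have e2 : GG 1 n * (1 * Real.log n) / (n : ℝ) ^ (1 : ℝ) = GG 1 n * (Real.log n / n) := by
      rw [Real.rpow_one]; ring
    rw [e1] at h4
    rw [e2] at h5
    set L := Real.log n / n
    have h6 : |AA h n - GG 1 n| * L ≤ ε * GG 1 n * L := by
      rw [← abs_of_pos hL, ← abs_mul, abs_of_pos hL, sub_mul, abs_le]
      constructor <;> nlinarith [h4.1, h4.2, h5.1, h5.2]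
    exact le_of_mul_le_mul_right h6 hL
  rw [eventually_atTop] at h3
  obtain ⟨N, hN⟩ := h3
  have hGm : Monotone (GG 1) := monotone_nat_of_le_succ fun n => by
    rw [GG_one, GG_one, sum_range_succ]; linarith [bb_nonneg (n + 1)]
  have hAm : Monotone (AA h) := monotone_nat_of_le_succ fun n => by
    unfold AA; rw [sum_range_succ]; linarith [aa_nonneg h (n + 1)]
  have hG0 : ∀ n, 0 ≤ GG 1 n := fun n => by rw [GG_one]; exact sum_nonneg fun m _ => bb_nonneg _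
  have hA0 : ∀ n, 0 ≤ AA h n := fun n => sum_nonneg fun m _ => aa_nonneg h _
  refine ⟨AA h N + GG 1 N, add_nonneg (hA0 N) (hG0 N), fun n => ?_⟩
  by_cases hn : N ≤ n
  · have := hN n hn
    linarith [hA0 N, hG0 N]
  · push Not at hn
    have h7 := hGm hn.le
    have h8 := hAm hn.le
    have h9 : 0 ≤ ε * GG 1 n := mul_nonneg hε.le (hG0 n)
    rw [abs_le]
    constructor <;> linarith [hA0 n, hG0 n]

lemma main_compare (h : ℤ) {s : ℝ} (hs1 : s ≤ 1) {ε : ℝ} (hε : 0 < ε) : ∃ C : ℝ, 0 ≤ C ∧ ∀ n : ℕ,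
    |(∑ m ∈ range n, aa h (m + 1) * (((m + 1 : ℕ)) : ℝ) ^ (s - 1)) - GG s n| ≤ ε * GG s n + C := by
  obtain ⟨C, hC, hcmp⟩ := compare h hε
  refine ⟨C, hC, fun n => ?_⟩
  have hg : Antitone fun m : ℕ => (((m + 1 : ℕ)) : ℝ) ^ (s - 1) := by
    refine antitone_nat_of_succ_le fun m => ?_
    exact Real.rpow_le_rpow_of_nonpos (by positivity) (by push_cast; linarith) (by linarith)
  have hg0 : ∀ m : ℕ, 0 ≤ (((m + 1 : ℕ)) : ℝ) ^ (s - 1) := fun m => by positivity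
  have hone : (((0 + 1 : ℕ)) : ℝ) ^ (s - 1) = 1 := by simp
  have k1 := abel' (fun m => ε * bb (m + 1) + (bb (m + 1) - aa h (m + 1))) _ C (fun n => by
    rw [sum_add_distrib, ← mul_sum, sum_sub_distrib, ← GG_one]
    have := (abs_le.1 (hcmp n)).2
    unfold AA at this
    linarith) hg hg0 n
  have k2 := abel' (fun m => ε * bb (m + 1) + (aa h (m + 1) - bb (m + 1))) _ C (fun n => by
    rw [sum_add_distrib, ← mul_sum, sum_sub_distrib, ← GG_one]
    have := (abs_le.1 (hcmp n)).1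
    unfold AA at this
    linarith) hg hg0 n
  simp only [add_mul, sub_mul, sum_add_distrib, sum_sub_distrib, mul_assoc, ← mul_sum, hone, mul_one] at k1 k2
  unfold GG
  rw [abs_le]
  constructor <;> linarith

end PRMaux

open PRMaux in
theorem prm : PRM := by
  intro s hs hs1 h
  classical
  have hsum : ∀ Z : ℕ, ∑ m ∈ PS (Sh h) 0 Z, (m : ℝ) ^ (s - 1) =
      ∑ m ∈ range Z, aa h (m + 1) * (((m + 1 : ℕ)) : ℝ) ^ (s - 1) := by
    intro Z
    unfold PS
    rw [sum_filter]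
    have e0 : Ioc 0 Z = Ico 1 (Z + 1) := by ext m; simp only [mem_Ioc, mem_Ico]; omega
    rw [e0, sum_Ico_eq_sum_range, Nat.add_sub_cancel]
    refine sum_congr rfl fun m _ => ?_
    rw [add_comm 1 m]
    unfold aa Sh
    simp only [Set.mem_ofPred_eq]
    split_ifs <;> simp
  have hG := GG_tendsto hs hs1
  have hinv : Tendsto (fun Z : ℕ => (Real.log Z) / (Z : ℝ) ^ s) atTop (𝓝 0) :=
    ((isLittleO_log_rpow_atTop hs).tendsto_div_nhds_zero).comp tendsto_natCast_atTop_atTop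
  rw [Metric.tendsto_atTop]
  intro e he
  obtain ⟨C, hC, hcmp⟩ := main_compare h hs1 (ε := e / 4) (by positivity)
  have h1 : ∀ᶠ Z : ℕ in atTop, |GG s Z * (s * Real.log Z) / (Z : ℝ) ^ s - 1| < min 1 (e / 4) := by
    have := hG.eventually (Metric.ball_mem_nhds _ (by positivity : 0 < min 1 (e / 4)))
    filter_upwards [this] with Z hZ
    rwa [Real.dist_eq] at hZ
  have h2 : ∀ᶠ Z : ℕ in atTop, C * s * ((Real.log Z) / (Z : ℝ) ^ s) < e / 8 := by
    have := hinv.const_mul (C * s)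
    rw [mul_zero] at this
    exact this.eventually (gt_mem_nhds (by positivity))
  have h3 := (h1.and h2).and (eventually_ge_atTop 2)
  rw [eventually_atTop] at h3
  obtain ⟨N, hN⟩ := h3
  refine ⟨N, fun Z hZ => ?_⟩
  obtain ⟨⟨ha, hb⟩, hZ2⟩ := hN Z hZ
  rw [Real.dist_eq, hsum Z]
  have hZ1 : (1 : ℝ) < Z := by exact_mod_cast (by omega : 1 < Z)
  have hl : 0 < Real.log Z := Real.log_pos hZ1
  have hZs : 0 < (Z : ℝ) ^ s := by positivity
  have hL : 0 < s * Real.log Z / (Z : ℝ) ^ s := by positivity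
  have hc := hcmp Z
  set S := ∑ m ∈ range Z, aa h (m + 1) * (((m + 1 : ℕ)) : ℝ) ^ (s - 1)
  set G := GG s Z
  have e1 : S * (s * Real.log Z) / (Z : ℝ) ^ s = S * (s * Real.log Z / (Z : ℝ) ^ s) := by ring
  have e2 : G * (s * Real.log Z) / (Z : ℝ) ^ s = G * (s * Real.log Z / (Z : ℝ) ^ s) := by ring
  have e3 : C * s * ((Real.log Z) / (Z : ℝ) ^ s) = C * (s * Real.log Z / (Z : ℝ) ^ s) := by ring
  rw [e1]
  rw [e2] at ha
  rw [e3] at hb
  set L := s * Real.log Z / (Z : ℝ) ^ s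
  have h4 : |S * L - G * L| ≤ e / 4 * (G * L) + C * L := by
    rw [← sub_mul, abs_mul, abs_of_pos hL]
    have := mul_le_mul_of_nonneg_right hc hL.le
    linarith
  have h5 : |G * L - 1| < 1 := ha.trans_le (min_le_left _ _)
  have h6 : |G * L - 1| < e / 4 := ha.trans_le (min_le_right _ _)
  have h7 : G * L < 2 := by linarith [(abs_lt.1 h5).2]
  have h8 := abs_sub_le (S * L) (G * L) 1
  have h9 : e / 4 * (G * L) ≤ e / 4 * 2 := mul_le_mul_of_nonneg_left h7.le (by positivity)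
  linarith

end Pool.Agent.H717R2.MQ
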