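import Pool.Agent.H717R2.MQ.Dim3
import Pool.Agent.H717R2.MQ.Low

open Finset MeasureTheory Filter Topology

namespace Pool.Agent.H717R2.MQ

/-- many consecutive primes at distance at most 240 -/
def GAPS : Prop := ∀ ε : ℝ, 0 < ε → ∀ᶠ x : ℝ in Filter.atTop,
      x ^ (1 - ε) ≤ (Set.ncard {n : ℕ | (Nat.nth Nat.Prime n : ℝ) ≤ x ∧
        Nat.nth Nat.Prime (n + 1) - Nat.nth Nat.Prime n ≤ 240} : ℝ)

/-- DHL[49,2] with consecutive primes and a count -/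
def DHL : Prop := ∀ a : Fin 49 → ℤ, Function.Injective a →
      (∀ p : ℕ, p.Prime → ∃ r : ℤ, ∀ i, ¬ (p : ℤ) ∣ r + a i) →
      ∀ ε : ℝ, 0 < ε → ∀ᶠ x : ℝ in Filter.atTop,
        x ^ (1 - ε) ≤ (Set.ncard {n : ℕ | 1 ≤ n ∧ (n : ℝ) ≤ x ∧
          (∃ i j, i ≠ j ∧ ∃ p q : ℕ, p.Prime ∧ q.Prime ∧ (p : ℤ) = n + a i ∧ (q : ℤ) = n + a j) ∧
          ∀ p : ℕ, p.Prime → (∃ i j, (n : ℤ) + a i ≤ p ∧ (p : ℤ) ≤ n + a j) → ∃ i, (p : ℤ) = n + a i} : ℝ)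

/-- `m + h` is a prime followed by another one within 240 -/
def SG (h : ℤ) : Set ℕ := {m : ℕ | ∃ i : ℕ, (Nat.nth Nat.Prime i : ℤ) = m + h ∧
  Nat.nth Nat.Prime (i + 1) - Nat.nth Nat.Prime i ≤ 240}

/-- two of the `m + a i` are prime, no other prime in between -/
def SD (a : Fin 49 → ℤ) : Set ℕ := {m : ℕ |
  (∃ i j, i ≠ j ∧ ∃ p q : ℕ, p.Prime ∧ q.Prime ∧ (p : ℤ) = m + a i ∧ (q : ℤ) = m + a j) ∧
          ∀ p : ℕ, p.Prime → (∃ i j, (m : ℤ) + a i ≤ p ∧ (p : ℤ) ≤ m + a j) → ∃ i, (p : ℤ) = m + a i}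

lemma SD_count (HD : DHL) (a : Fin 49 → ℤ) (ha : Function.Injective a)
    (hadm : ∀ p : ℕ, p.Prime → ∃ r : ℤ, ∀ i, ¬ (p : ℤ) ∣ r + a i) (ε : ℝ) (hε : 0 < ε) :
    ∀ᶠ x : ℝ in atTop, x ^ (1 - ε) ≤ ((PS (SD a) 0 ⌊x⌋₊).card : ℝ) := by
  classical
  filter_upwards [HD a ha hadm ε hε, eventually_ge_atTop (0 : ℝ)] with x h hx
  refine h.trans (le_of_eq ?_)
  rw [← Set.ncard_coe_finset]
  congr 2
  ext n
  unfold PS SD
  simp only [Set.mem_setOf_eq, coe_filter, mem_Ioc, Nat.le_floor_iff hx]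
  constructor
  · rintro ⟨h1, h2, h3⟩
    exact ⟨⟨by omega, h2⟩, h3⟩
  · rintro ⟨⟨h1, h2⟩, h3⟩
    exact ⟨by omega, h2, h3⟩

lemma SG_count (HG : GAPS) (h : ℤ) (ε : ℝ) (hε : 0 < ε) :
    ∀ᶠ x : ℝ in atTop, x ^ (1 - ε) ≤ ((PS (SG h) 0 ⌊x⌋₊).card : ℝ) := by
  classical
  obtain ⟨e, hed⟩ : ∃ e : ℝ, e = min ε 1 := ⟨_, rfl⟩
  have he0 : 0 < e := by rw [hed]; exact lt_min hε one_pos
  have he1 : e ≤ 1 := by rw [hed]; exact min_le_right _ _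
  have heε : e ≤ ε := by rw [hed]; exact min_le_left _ _
  set H : ℕ := h.natAbs with hH
  have hHh : h ≤ H ∧ -h ≤ H := by omega
  have t2 : Tendsto (fun x : ℝ => x / 2) atTop atTop := tendsto_id.atTop_div_const (by norm_num)
  have ev1 := t2.eventually (HG (e / 2) (by positivity))
  have ev2 : ∀ᶠ x : ℝ in atTop, 2 * ((H : ℝ) + 2) ≤ x ^ (e / 2) :=
    (tendsto_rpow_atTop (by positivity)).eventually_ge_atTop _
  filter_upwards [ev1, ev2, eventually_ge_atTop (1 : ℝ), eventually_ge_atTop (2 * (H : ℝ))] with x h1 h2 hx1 hxH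
  have hx0 : 0 < x := by linarith
  set F : Set ℕ := {n : ℕ | (Nat.nth Nat.Prime n : ℝ) ≤ x / 2 ∧
        Nat.nth Nat.Prime (n + 1) - Nat.nth Nat.Prime n ≤ 240} with hF
  set F' : Set ℕ := {n : ℕ | n ∈ F ∧ H < n} with hF'
  have hle : ∀ n : ℕ, n ≤ Nat.nth Nat.Prime n := fun n => (Nat.nth_strictMono Nat.infinite_setOf_prime).le_apply
  have hfinF : F.Finite := by
    apply (Set.finite_Iic ⌊x⌋₊).subset
    rintro n ⟨hn, -⟩
    rw [Set.mem_Iic, Nat.le_floor_iff hx0.le]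
    have : (n : ℝ) ≤ (Nat.nth Nat.Prime n : ℝ) := by exact_mod_cast hle n
    linarith
  have hfinF' : F'.Finite := hfinF.subset fun n hn => hn.1
  have hsub : F ⊆ ↑(range (H + 1)) ∪ F' := by
    intro n hn
    by_cases hc : H < n
    · exact Or.inr ⟨hn, hc⟩
    · left
      rw [mem_coe, mem_range]; omega
  have hc1 : F.ncard ≤ (H + 1) + F'.ncard := by
    refine (Set.ncard_le_ncard hsub ((finite_toSet _).union hfinF')).trans ?_
    refine (Set.ncard_union_le _ _).trans ?_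
    rw [Set.ncard_coe_finset, card_range]
  have hc2 : F'.ncard ≤ (PS (SG h) 0 ⌊x⌋₊).card := by
    rw [← Set.ncard_coe_finset]
    refine Set.ncard_le_ncard_of_injOn (fun n => ((Nat.nth Nat.Prime n : ℤ) - h).toNat) ?_ ?_ (finite_toSet _)
    · rintro n ⟨⟨hn1, hn2⟩, hn3⟩
      have h3 := hle n
      have h4 : 1 ≤ (Nat.nth Nat.Prime n : ℤ) - h := by omega
      have h5 : ((((Nat.nth Nat.Prime n : ℤ) - h).toNat : ℕ) : ℤ) = (Nat.nth Nat.Prime n : ℤ) - h :=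
        Int.toNat_of_nonneg (by omega)
      unfold PS
      rw [mem_coe, mem_filter, mem_Ioc]
      refine ⟨⟨by omega, ?_⟩, ?_⟩
      · rw [Nat.le_floor_iff hx0.le]
        have h6 : ((((Nat.nth Nat.Prime n : ℤ) - h).toNat : ℕ) : ℝ) = (Nat.nth Nat.Prime n : ℝ) - (h : ℝ) := by
          have := congrArg (fun z : ℤ => (z : ℝ)) h5
          push_cast at this
          exact this
        rw [h6]
        have h7 : -(h : ℝ) ≤ H := by exact_mod_cast hHh.2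
        linarith
      · exact ⟨n, by rw [h5]; ring, hn2⟩
    · rintro n ⟨-, hn3⟩ m ⟨-, hm3⟩ hnm
      have h3 := hle n
      have h3' := hle m
      have h5 : ((((Nat.nth Nat.Prime n : ℤ) - h).toNat : ℕ) : ℤ) = (Nat.nth Nat.Prime n : ℤ) - h :=
        Int.toNat_of_nonneg (by omega)
      have h6 : ((((Nat.nth Nat.Prime m : ℤ) - h).toNat : ℕ) : ℤ) = (Nat.nth Nat.Prime m : ℤ) - h :=
        Int.toNat_of_nonneg (by omega)
      have h7 : Nat.nth Nat.Prime n = Nat.nth Nat.Prime m := by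
        have : ((Nat.nth Nat.Prime n : ℤ) - h).toNat = ((Nat.nth Nat.Prime m : ℤ) - h).toNat := hnm
        omega
      exact (Nat.nth_strictMono Nat.infinite_setOf_prime).injective h7
  have hc3 : (F.ncard : ℝ) ≤ ((H : ℝ) + 1) + ((PS (SG h) 0 ⌊x⌋₊).card : ℝ) := by
    have : F.ncard ≤ (H + 1) + (PS (SG h) 0 ⌊x⌋₊).card := by omega
    exact_mod_cast this
  have h8 : x ^ (1 - e / 2) / 2 ≤ (x / 2) ^ (1 - e / 2) := by
    rw [Real.div_rpow hx0.le (by norm_num)]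
    apply div_le_div_of_nonneg_left (by positivity) (by positivity)
    calc (2 : ℝ) ^ (1 - e / 2) ≤ 2 ^ (1 : ℝ) := Real.rpow_le_rpow_of_exponent_le (by norm_num) (by linarith)
      _ = 2 := Real.rpow_one 2
  have h9 : x ^ (1 - e / 2) = x ^ (e / 2) * x ^ (1 - e) := by
    rw [← Real.rpow_add hx0]; congr 1; ring
  have h10 : 1 ≤ x ^ (1 - e) := Real.one_le_rpow hx1 (by linarith)
  have h11 : ((H : ℝ) + 2) * x ^ (1 - e) ≤ (x / 2) ^ (1 - e / 2) := by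
    refine le_trans ?_ h8
    rw [h9]
    nlinarith
  have h12 : x ^ (1 - ε) ≤ x ^ (1 - e) := Real.rpow_le_rpow_of_exponent_le hx1 (by linarith)
  have h13 : 0 ≤ ((H : ℝ) + 1) * (x ^ (1 - e) - 1) := mul_nonneg (by positivity) (by linarith)
  nlinarith

/-- prime pairs along `⌊α n ^ c⌋` -/
theorem pairs (HG : GAPS) (HD : DHL) (c : ℝ) (hc : 1 ≤ c) : ∃ E : Set ℝ, dimH E < 1 ∧
    ∀ α : ℝ, 0 < α → α ∉ E →
    (∀ h : ℤ, ∀ ε : ℝ, 0 < ε → ∀ᶠ N : ℕ in atTop, (N : ℝ) ^ (1 - ε) ≤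
      ({n : ℕ | 1 ≤ n ∧ n ≤ N ∧ ⌊α * (n : ℝ) ^ c⌋₊ ∈ SG h}.ncard : ℝ)) ∧
    (∀ a : Fin 49 → ℤ, Function.Injective a →
      (∀ p : ℕ, p.Prime → ∃ r : ℤ, ∀ i, ¬ (p : ℤ) ∣ r + a i) →
      ∀ ε : ℝ, 0 < ε → ∀ᶠ N : ℕ in atTop, (N : ℝ) ^ (1 - ε) ≤
        ({n : ℕ | 1 ≤ n ∧ n ≤ N ∧ ⌊α * (n : ℝ) ^ c⌋₊ ∈ SD a}.ncard : ℝ)) := by
  obtain ⟨κ, hκ, hκ1, h⟩ := dim_asymp c hc
  choose E hE hEα using fun S : Set ℕ => h 0 le_rfl zero_le_one S
  have hlt : ENNReal.ofReal (1 - κ) < 1 := by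
    rw [← ENNReal.ofReal_one]
    exact (ENNReal.ofReal_lt_ofReal_iff zero_lt_one).mpr (by linarith)
  refine ⟨(⋃ h' : ℤ, E (SG h')) ∪ (⋃ a : Fin 49 → ℤ, E (SD a)), ?_, ?_⟩
  · rw [dimH_union, dimH_iUnion, dimH_iUnion]
    exact max_lt ((iSup_le fun _ => hE _).trans_lt hlt) ((iSup_le fun _ => hE _).trans_lt hlt)
  · intro α hα0 hα
    refine ⟨?_, ?_⟩
    · intro h' ε hε
      have hα' : α ∉ E (SG h') := fun hh => hα (Or.inl (Set.mem_iUnion.mpr ⟨h', hh⟩))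
      exact count_lower hc hα0 hκ (hEα _ α hα0 hα') (fun e he => SG_count HG h' e he) ε hε
    · intro a ha hadm ε hε
      have hα' : α ∉ E (SD a) := fun hh => hα (Or.inr (Set.mem_iUnion.mpr ⟨a, hh⟩))
      exact count_lower hc hα0 hκ (hEα _ α hα0 hα') (fun e he => SD_count HD a ha hadm e he) ε hε

end Pool.Agent.H717R2.MQ
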