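import Pool.Agent.H438R2.DL.Main2

open Finset MeasureTheory

namespace Pool.Agent.H717R2.MQ

open Pool.Agent.H438R2.DL (Fw AD sand_lower sand_upper card_Ico_real)

/-- pairs `(k, p)`, `k ∈ K`, `p ∈ P`, with `p` in the window of length `H` at `(k + β) ^ c y` -/
noncomputable def cnt (c : ℝ) (P K : Finset ℕ) (β σ H y : ℝ) : ℝ :=
  ∑ k ∈ K, ((P.filter (fun p : ℕ => ((k : ℝ) + β) ^ c * y - σ * H < p ∧
    (p : ℝ) ≤ ((k : ℝ) + β) ^ c * y + (1 - σ) * H)).card : ℝ)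

/-- the averaged difference with logarithmic points -/
noncomputable def ADl (c : ℝ) (P K : Finset ℕ) (β σ s ω u : ℝ) : ℝ :=
  AD P (fun p : ℕ => Real.log p) K (fun k : ℕ => c * Real.log ((k : ℝ) + β)) (-(σ * s)) s ω u

/-- main term for windows of length one -/
noncomputable def MT (c : ℝ) (P : Finset ℕ) (y : ℝ) : ℝ :=
  ∑ p ∈ P, (1 / (c * (p : ℝ))) * ((p : ℝ) / y) ^ (1 / c)

lemma log_pt {c β y : ℝ} {k : ℕ} (hk : (0 : ℝ) < (k : ℝ) + β) (hy : 0 < y) :
    Real.log y + c * Real.log ((k : ℝ) + β) = Real.log (((k : ℝ) + β) ^ c * y) := by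
  rw [Real.log_mul (Real.rpow_pos_of_pos hk c).ne' hy.ne', Real.log_rpow hk, add_comm]

/-- rewriting the log-window count in terms of `Fw` -/
lemma sum_Fw {c : ℝ} {P K : Finset ℕ} {β σ t y : ℝ} (ht : 0 < t) :
    t * ∑ k ∈ K, Fw P (fun p => Real.log p) t (Real.log y + -(σ * t) + c * Real.log ((k : ℝ) + β)) =
      ∑ k ∈ K, ((P.filter (fun p : ℕ => (Real.log y + c * Real.log ((k : ℝ) + β)) - σ * t < Real.log p ∧
        Real.log p ≤ (Real.log y + c * Real.log ((k : ℝ) + β)) + (1 - σ) * t)).card : ℝ) := by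
  rw [mul_sum]
  refine sum_congr rfl fun k _ => ?_
  unfold Fw
  rw [← mul_assoc, mul_one_div_cancel ht.ne', one_mul]
  congr 2
  apply filter_congr
  intro p _
  constructor <;> rintro ⟨h1, h2⟩ <;> constructor <;> linarith

lemma cnt_lower {c : ℝ} {P K : Finset ℕ} {β σ H N1 N2 y : ℝ} (hσ : σ = 0 ∨ σ = 1) (hy : 0 < y) (hβ : 0 ≤ β)
    (hK : ∀ k ∈ K, 1 ≤ k) (hH : 0 < H) (hN1 : 0 < N1) (hN12 : N1 ≤ N2) (hP : ∀ p ∈ P, N1 < (p : ℝ) ∧ (p : ℝ) ≤ N2) :
    (H / (N2 + H)) * ∑ k ∈ K, Fw P (fun p => Real.log p) (H / (N2 + H))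
      (Real.log y + -(σ * (H / (N2 + H))) + c * Real.log ((k : ℝ) + β)) ≤ cnt c P K β σ H y := by
  have hN2 : 0 < N2 := by linarith
  rw [sum_Fw (by positivity)]
  unfold cnt
  refine sum_le_sum fun k hk => ?_
  have hk1 : (1 : ℝ) ≤ k := by exact_mod_cast hK k hk
  have hkβ : (0 : ℝ) < (k : ℝ) + β := by linarith
  have hz : 0 < ((k : ℝ) + β) ^ c * y := mul_pos (Real.rpow_pos_of_pos hkβ c) hy
  rw [log_pt hkβ hy]
  have hsub := card_le_card (monotone_filter_right P (p := fun p : ℕ => Real.log (((k : ℝ) + β) ^ c * y) - σ * (H / (N2 + H)) < Real.log p ∧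
        Real.log p ≤ Real.log (((k : ℝ) + β) ^ c * y) + (1 - σ) * (H / (N2 + H)))
        (q := fun p : ℕ => ((k : ℝ) + β) ^ c * y - σ * H < p ∧ (p : ℝ) ≤ ((k : ℝ) + β) ^ c * y + (1 - σ) * H) (by
      intro p hp h
      exact sand_lower hσ hz hH hN1 (hP p hp).1 (hP p hp).2 h))
  exact_mod_cast hsub

lemma cnt_upper {c : ℝ} {P K : Finset ℕ} {β σ H N1 N2 y : ℝ} (hσ : σ = 0 ∨ σ = 1) (hy : 0 < y) (hβ : 0 ≤ β)
    (hK : ∀ k ∈ K, 1 ≤ k) (hH : 0 < H) (hN1 : H < N1) (hP : ∀ p ∈ P, N1 < (p : ℝ) ∧ (p : ℝ) ≤ N2) :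
    cnt c P K β σ H y ≤ (H / (N1 - H)) * ∑ k ∈ K, Fw P (fun p => Real.log p) (H / (N1 - H))
      (Real.log y + -(σ * (H / (N1 - H))) + c * Real.log ((k : ℝ) + β)) := by
  have hNH : 0 < N1 - H := by linarith
  rw [sum_Fw (by positivity)]
  unfold cnt
  refine sum_le_sum fun k hk => ?_
  have hk1 : (1 : ℝ) ≤ k := by exact_mod_cast hK k hk
  have hkβ : (0 : ℝ) < (k : ℝ) + β := by linarith
  have hz : 0 < ((k : ℝ) + β) ^ c * y := mul_pos (Real.rpow_pos_of_pos hkβ c) hy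
  rw [log_pt hkβ hy]
  have hsub := card_le_card (monotone_filter_right P
        (p := fun p : ℕ => ((k : ℝ) + β) ^ c * y - σ * H < p ∧ (p : ℝ) ≤ ((k : ℝ) + β) ^ c * y + (1 - σ) * H)
        (q := fun p : ℕ => Real.log (((k : ℝ) + β) ^ c * y) - σ * (H / (N1 - H)) < Real.log p ∧
        Real.log p ≤ Real.log (((k : ℝ) + β) ^ c * y) + (1 - σ) * (H / (N1 - H))) (by
      intro p hp h
      exact sand_upper hσ hz hH hN1 (hP p hp).1 (hP p hp).2 h))
  exact_mod_cast hsub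

lemma exp_est {x : ℝ} (hx : 0 < x) : |(1 - Real.exp (-x)) / x - 1| ≤ x := by
  have hA1 : 1 - Real.exp (-x) ≤ x := by
    have := Real.add_one_le_exp (-x); linarith
  have hA2 : x - x ^ 2 ≤ 1 - Real.exp (-x) := by
    have h2 : Real.exp (-x) ≤ 1 / (1 + x) := by
      rw [Real.exp_neg, ← one_div]
      apply one_div_le_one_div_of_le (by linarith)
      linarith [Real.add_one_le_exp x]
    have h3 : 1 / (1 + x) ≤ 1 - x + x ^ 2 := by
      rw [div_le_iff₀ (by linarith)]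
      nlinarith [pow_pos hx 3]
    linarith
  have e5 : (1 - Real.exp (-x)) / x - 1 = (1 - Real.exp (-x) - x) / x := by field_simp
  rw [e5, abs_div, abs_of_pos hx, div_le_iff₀ hx, abs_le]
  constructor <;> nlinarith

lemma main_term {c : ℝ} (hc : 0 < c) (P : Finset ℕ) (N : ℕ) {β ω y R' : ℝ} (hω : 0 < ω)
    (hy : 0 < y) (hβ0 : 0 ≤ β) (hN : 1 ≤ N)
    (hP : ∀ p ∈ P, 0 < (p : ℝ) ∧ ((p : ℝ) / y) ^ (1 / c) ≤ R' ∧
      N + β ≤ Real.exp (-(ω / c)) * ((p : ℝ) / y) ^ (1 / c) ∧ ((p : ℝ) / y) ^ (1 / c) ≤ 64 * N + β) :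
    |(∑ k ∈ Ico N (64 * N), Fw P (fun p => Real.log p) ω (Real.log y + c * Real.log ((k : ℝ) + β))) -
      ∑ p ∈ P, (1 / c) * ((p : ℝ) / y) ^ (1 / c)| ≤ P.card * (R' * ω / c ^ 2 + 1 / ω) := by
  have h1 : (∑ k ∈ Ico N (64 * N), Fw P (fun p => Real.log p) ω (Real.log y + c * Real.log ((k : ℝ) + β))) =
      ∑ p ∈ P, (1 / ω) * (((Ico N (64 * N)).filter (fun k : ℕ =>
        Real.exp (-(ω / c)) * ((p : ℝ) / y) ^ (1 / c) - β ≤ (k : ℝ) ∧ (k : ℝ) < ((p : ℝ) / y) ^ (1 / c) - β)).card : ℝ) := by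
    unfold Fw
    rw [← mul_sum, ← mul_sum]
    congr 1
    simp only [card_filter]
    push_cast
    rw [sum_comm]
    refine sum_congr rfl fun p hp => sum_congr rfl fun k hk => ?_
    obtain ⟨hp0, -, -, -⟩ := hP p hp
    have hk1 : (1 : ℝ) ≤ k := by exact_mod_cast hN.trans (mem_Ico.mp hk).1
    have hkβ : (0 : ℝ) < (k : ℝ) + β := by linarith
    have hlp : Real.log (((p : ℝ) / y) ^ (1 / c)) = (1 / c) * (Real.log p - Real.log y) := by
      rw [Real.log_rpow (by positivity), Real.log_div hp0.ne' hy.ne']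
    have hR0 : 0 < ((p : ℝ) / y) ^ (1 / c) := Real.rpow_pos_of_pos (by positivity) _
    have hiff : (Real.log y + c * Real.log ((k : ℝ) + β) < Real.log p ∧
          Real.log p ≤ Real.log y + c * Real.log ((k : ℝ) + β) + ω) ↔
        (Real.exp (-(ω / c)) * ((p : ℝ) / y) ^ (1 / c) - β ≤ (k : ℝ) ∧ (k : ℝ) < ((p : ℝ) / y) ^ (1 / c) - β) := by
      rw [lt_sub_iff_add_lt, sub_le_iff_le_add, ← Real.log_lt_log_iff hkβ hR0,
        ← Real.log_le_log_iff (mul_pos (Real.exp_pos _) hR0) hkβ,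
        Real.log_mul (Real.exp_ne_zero _) hR0.ne', Real.log_exp, hlp]
      have e1 : Real.log ((k : ℝ) + β) < 1 / c * (Real.log p - Real.log y) ↔
          Real.log y + c * Real.log ((k : ℝ) + β) < Real.log p := by
        rw [one_div_mul_eq_div, lt_div_iff₀ hc]
        constructor <;> intro h <;> linarith
      have e2 : -(ω / c) + 1 / c * (Real.log p - Real.log y) ≤ Real.log ((k : ℝ) + β) ↔
          Real.log p ≤ Real.log y + c * Real.log ((k : ℝ) + β) + ω := by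
        have e3 : -(ω / c) + 1 / c * (Real.log p - Real.log y) = (Real.log p - Real.log y - ω) / c := by
          field_simp; ring
        rw [e3, div_le_iff₀ hc]
        constructor <;> intro h <;> linarith
      rw [e1, e2]
      tauto
    simp only [hiff]
  rw [h1, ← sum_sub_distrib]
  refine (abs_sum_le_sum_abs _ _).trans ?_
  rw [← nsmul_eq_mul, ← sum_const]
  refine sum_le_sum fun p hp => ?_
  obtain ⟨hp0, hpR, hlow, hup⟩ := hP p hp
  set r : ℝ := ((p : ℝ) / y) ^ (1 / c) with hr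
  have hr0 : 0 < r := Real.rpow_pos_of_pos (by positivity) _
  have hx : 0 < ω / c := by positivity
  have hexp1 : Real.exp (-(ω / c)) ≤ 1 := Real.exp_le_one_iff.mpr (by linarith)
  have hAB : Real.exp (-(ω / c)) * r - β ≤ r - β := by nlinarith
  have hN' : (1 : ℝ) ≤ N := by exact_mod_cast hN
  have hcc := card_Ico_real N (64 * N) (Real.exp (-(ω / c)) * r - β) (r - β) (by linarith) hAB (by linarith)
    (by push_cast; linarith)
  set q : ℝ := (((Ico N (64 * N)).filter (fun k : ℕ =>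
        Real.exp (-(ω / c)) * r - β ≤ (k : ℝ) ∧ (k : ℝ) < r - β)).card : ℝ) with hq
  have e3 : (r - β) - (Real.exp (-(ω / c)) * r - β) = r * (1 - Real.exp (-(ω / c))) := by ring
  rw [e3] at hcc
  have e4 : 1 / ω * q - 1 / c * r = (1 / ω) * (q - r * (1 - Real.exp (-(ω / c)))) +
      (r / c) * ((1 - Real.exp (-(ω / c))) / (ω / c) - 1) := by
    field_simp
    ring
  rw [e4]
  refine (abs_add_le _ _).trans ?_
  rw [abs_mul, abs_mul, abs_of_pos (by positivity : (0 : ℝ) < r / c), abs_of_pos (by positivity : (0 : ℝ) < 1 / ω)]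
  have h5 := exp_est hx
  have hR'0 : 0 ≤ R' := hr0.le.trans hpR
  have hR'c : 0 ≤ R' / c := by positivity
  have h6 : r / c * |(1 - Real.exp (-(ω / c))) / (ω / c) - 1| ≤ R' / c * (ω / c) := by gcongr
  have h7 : 1 / ω * |q - r * (1 - Real.exp (-(ω / c)))| ≤ 1 / ω * 1 := by gcongr
  have h8 : R' * ω / c ^ 2 = R' / c * (ω / c) := by field_simp
  rw [h8]
  linarith

lemma piece_est {c : ℝ} (hc : 0 < c) (P : Finset ℕ) (N : ℕ) {β σ H N1 N2 X ω y R' : ℝ} (hσ : σ = 0 ∨ σ = 1) (hω : 0 < ω)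
    (hy : 0 < y) (hX : 0 < X) (hβ0 : 0 ≤ β) (hN : 1 ≤ N) (hH : 0 < H) (hHX : H ≤ X / 2)
    (hN1 : X ≤ N1) (hN12 : N1 ≤ N2) (hN2 : N2 ≤ 2 * X)
    (hP : ∀ p ∈ P, N1 < (p : ℝ) ∧ (p : ℝ) ≤ N2)
    (hP2 : ∀ p ∈ P, ((p : ℝ) / y) ^ (1 / c) ≤ R' ∧ N + β ≤ Real.exp (-(ω / c)) * ((p : ℝ) / y) ^ (1 / c) ∧
      ((p : ℝ) / y) ^ (1 / c) ≤ 64 * N + β) :
    |cnt c P (Ico N (64 * N)) β σ H y - H * MT c P y| ≤
      (2 * H / X) * |ADl c P (Ico N (64 * N)) β σ (H / (N1 - H)) ω (Real.log y)| +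
      (2 * H / X) * |ADl c P (Ico N (64 * N)) β σ (H / (N2 + H)) ω (Real.log y)| +
      P.card * ((2 * H / X) * (R' * ω / c ^ 2 + 1 / ω) + (2 * H * (N2 - N1 + H) / X) * (R' / (c * X))) := by
  have hN1H : 0 < N1 - H := by linarith
  have hK : ∀ k ∈ Ico N (64 * N), 1 ≤ k := fun k hk => hN.trans (mem_Ico.mp hk).1
  have hlow := cnt_lower (c := c) (P := P) (K := Ico N (64 * N)) (β := β) (σ := σ) (H := H) (N1 := N1) (N2 := N2) (y := y)
    hσ hy hβ0 hK hH (by linarith) hN12 hP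
  have hup := cnt_upper (c := c) (P := P) (K := Ico N (64 * N)) (β := β) (σ := σ) (H := H) (N1 := N1) (N2 := N2) (y := y)
    hσ hy hβ0 hK hH (by linarith) hP
  have hmain := main_term hc P N (β := β) (ω := ω) (y := y) (R' := R') hω hy hβ0 hN (fun p hp => by
    obtain ⟨h1, h2⟩ := hP p hp
    obtain ⟨h3, h4, h5⟩ := hP2 p hp
    exact ⟨by linarith, h3, h4, h5⟩)
  set K := Ico N (64 * N) with hKdef
  set M := ∑ k ∈ K, Fw P (fun p : ℕ => Real.log p) ω (Real.log y + c * Real.log ((k : ℝ) + β)) with hM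
  have hsplit : ∀ s : ℝ, s * ∑ k ∈ K, Fw P (fun p : ℕ => Real.log p) s
      (Real.log y + -(σ * s) + c * Real.log ((k : ℝ) + β)) = s * ADl c P K β σ s ω (Real.log y) + s * M := by
    intro s
    unfold ADl AD
    rw [sum_sub_distrib, ← hM]
    ring
  -- a general estimate for `s`
  have hgen : ∀ s : ℝ, 0 < s → s ≤ 2 * H / X → (∀ p ∈ P, |s * (p : ℝ) - H| ≤ 2 * H * (N2 - N1 + H) / X) →
      |s * M - H * MT c P y| ≤ P.card * ((2 * H / X) * (R' * ω / c ^ 2 + 1 / ω) +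
        (2 * H * (N2 - N1 + H) / X) * (R' / (c * X))) := by
    intro s hs0 hs hsp
    have h1 : s * M - H * MT c P y = s * (M - ∑ p ∈ P, (1 / c) * ((p : ℝ) / y) ^ (1 / c)) +
        ∑ p ∈ P, (s * (p : ℝ) - H) * ((1 / (c * (p : ℝ))) * ((p : ℝ) / y) ^ (1 / c)) := by
      have : ∑ p ∈ P, (s * (p : ℝ) - H) * ((1 / (c * (p : ℝ))) * ((p : ℝ) / y) ^ (1 / c)) =
          s * ∑ p ∈ P, (1 / c) * ((p : ℝ) / y) ^ (1 / c) - H * MT c P y := by
        unfold MT
        rw [mul_sum, mul_sum, ← sum_sub_distrib]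
        refine sum_congr rfl fun p hp => ?_
        have hp0 : (0 : ℝ) < p := by have := (hP p hp).1; linarith
        field_simp
      rw [this]; ring
    rw [h1]
    refine (abs_add_le _ _).trans ?_
    have h2 : |s * (M - ∑ p ∈ P, (1 / c) * ((p : ℝ) / y) ^ (1 / c))| ≤
        (2 * H / X) * (P.card * (R' * ω / c ^ 2 + 1 / ω)) := by
      rw [abs_mul, abs_of_pos hs0]
      gcongr
    have h3 : |∑ p ∈ P, (s * (p : ℝ) - H) * ((1 / (c * (p : ℝ))) * ((p : ℝ) / y) ^ (1 / c))| ≤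
        P.card * ((2 * H * (N2 - N1 + H) / X) * (R' / (c * X))) := by
      refine (abs_sum_le_sum_abs _ _).trans ?_
      rw [← nsmul_eq_mul, ← sum_const]
      refine sum_le_sum fun p hp => ?_
      have hp1 : X < p := by have := (hP p hp).1; linarith
      have hp0 : (0 : ℝ) < p := by linarith
      have hr0 : 0 < ((p : ℝ) / y) ^ (1 / c) := Real.rpow_pos_of_pos (by positivity) _
      rw [abs_mul, abs_of_pos (by positivity : 0 < (1 / (c * (p : ℝ))) * ((p : ℝ) / y) ^ (1 / c))]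
      have h4 : (1 / (c * (p : ℝ))) * ((p : ℝ) / y) ^ (1 / c) ≤ R' / (c * X) := by
        rw [one_div_mul_eq_div]
        have := (hP2 p hp).1
        gcongr
        linarith
      have h5 := hsp p hp
      have h6 : 0 ≤ 2 * H * (N2 - N1 + H) / X := (abs_nonneg _).trans h5
      exact mul_le_mul h5 h4 (by positivity) h6
    have h4 : (2 * H / X) * (P.card * (R' * ω / c ^ 2 + 1 / ω)) +
        P.card * ((2 * H * (N2 - N1 + H) / X) * (R' / (c * X))) =
        P.card * ((2 * H / X) * (R' * ω / c ^ 2 + 1 / ω) + (2 * H * (N2 - N1 + H) / X) * (R' / (c * X))) := by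
      ring
    linarith
  have hsm : H / (N2 + H) ≤ 2 * H / X := by
    rw [div_le_div_iff₀ (by linarith) hX]
    nlinarith
  have hsp : H / (N1 - H) ≤ 2 * H / X := by
    rw [div_le_div_iff₀ hN1H hX]
    nlinarith
  have hD : 0 ≤ N2 - N1 + H := by linarith
  have g1 := hgen (H / (N2 + H)) (div_pos hH (by linarith)) hsm (by
    intro p hp
    obtain ⟨h1, h2⟩ := hP p hp
    have e1 : H / (N2 + H) * (p : ℝ) - H = -(H * (N2 - p + H) / (N2 + H)) := by
      have : N2 + H ≠ 0 := by linarith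
      field_simp; ring
    rw [e1, abs_neg, abs_of_nonneg (div_nonneg (mul_nonneg hH.le (by linarith)) (by linarith))]
    rw [div_le_div_iff₀ (by linarith) hX]
    have h3 : N2 - p + H ≤ N2 - N1 + H := by linarith
    have h4 : 0 ≤ N2 - p + H := by linarith
    calc H * (N2 - p + H) * X ≤ H * (N2 - N1 + H) * (N2 + H) := by
          apply mul_le_mul _ (by linarith) hX.le (by positivity)
          gcongr
      _ ≤ 2 * H * (N2 - N1 + H) * (N2 + H) := by
          have : 0 ≤ H * (N2 - N1 + H) * (N2 + H) := by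
            apply mul_nonneg (by positivity) (by linarith)
          linarith)
  have g2 := hgen (H / (N1 - H)) (by positivity) hsp (by
    intro p hp
    obtain ⟨h1, h2⟩ := hP p hp
    have e1 : H / (N1 - H) * (p : ℝ) - H = H * (p - N1 + H) / (N1 - H) := by
      field_simp; ring
    rw [e1, abs_of_nonneg (div_nonneg (mul_nonneg hH.le (by linarith)) hN1H.le)]
    rw [div_le_div_iff₀ hN1H hX]
    have h3 : p - N1 + H ≤ N2 - N1 + H := by linarith
    have h4 : 0 ≤ (p : ℝ) - N1 + H := by linarith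
    calc H * (p - N1 + H) * X ≤ H * (N2 - N1 + H) * (2 * (N1 - H)) := by
          apply mul_le_mul _ (by linarith) hX.le (by positivity)
          gcongr
      _ = 2 * H * (N2 - N1 + H) * (N1 - H) := by ring)
  rw [hsplit] at hlow hup
  set A1 := ADl c P K β σ (H / (N1 - H)) ω (Real.log y) with hA1
  set A2 := ADl c P K β σ (H / (N2 + H)) ω (Real.log y) with hA2
  have b1 : |H / (N1 - H) * A1| ≤ 2 * H / X * |A1| := by
    rw [abs_mul, abs_of_pos (by positivity)]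
    gcongr
  have b2 : |H / (N2 + H) * A2| ≤ 2 * H / X * |A2| := by
    rw [abs_mul, abs_of_pos (div_pos hH (by linarith))]
    gcongr
  have b3 : 0 ≤ 2 * H / X * |A1| := by positivity
  have b4 : 0 ≤ 2 * H / X * |A2| := by positivity
  rw [abs_le] at g1 g2 b1 b2 ⊢
  constructor <;> linarith [g1.1, g1.2, g2.1, g2.2, b1.1, b1.2, b2.1, b2.2]

end Pool.Agent.H717R2.MQ
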